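import Mathlib
import Pool.Agent.Lib.MP_fb225e_nt.Tw.Expansion
import Pool.Agent.Lib.MP_fb225e_nt.Fam.LocalFactor

/-!
MP_fb225e_nt, project QT, module Coeff: the coefficients of a base change at the primes of good
reduction.
-/

namespace Pool.Agent.MPfb225e.Qt

open WeierstrassCurve IsDedekindDomain IsLocalRing NumberField HeightOneSpectrum
open IsDiscreteValuationRing

universe u

/-- Good reduction at the places of degree one above the primes of good reduction. -/
theorem good_place (W₀ : WeierstrassCurve ℤ) {K : Type u} [Field K] [NumberField K]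
    (v : HeightOneSpectrum (𝓞 K)) {p : ℕ} (hv : Fam.N v = p) (hp : p.Prime) (h3 : 3 < p)
    (hΔ : ((W₀.Δ : ℤ) : ZMod p) ≠ 0) :
    ((((W₀.baseChange ℚ).baseChange K).baseChange (v.adicCompletion K)).minimal
      (v.adicCompletionIntegers K)).HasGoodReduction (v.adicCompletionIntegers K) := by
  have hfact : Fact p.Prime := ⟨hp⟩
  set R := v.adicCompletionIntegers K with hR
  set F := v.adicCompletion K with hF
  set k := ResidueField R with hk
  have hcard : Nat.card k = p := by
    rw [← hv]
    exact Curve.qv_eq v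
  have := Fintype.ofFinite k
  have hcard' : Fintype.card k = Fintype.card (ZMod p) := by
    rw [ZMod.card, ← hcard, Nat.card_eq_fintype_card]
  let e : k ≃+* ZMod p := FiniteField.ringEquivOfCardEq hcard'
  have hint : ∀ z : ℤ, (z : ZMod p) ≠ 0 → (z : k) ≠ 0 := by
    intro z hz h
    apply hz
    have := congrArg e h
    rw [map_intCast, map_zero] at this
    exact this
  have hunit : ∀ z : ℤ, (z : ZMod p) ≠ 0 → IsUnit (z : R) := by
    intro z hz
    rw [← residue_ne_zero_iff_isUnit, map_intCast]
    exact hint z hz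
  obtain ⟨n2, n3⟩ := Fam.small_ne_zero h3
  have u2 : IsUnit (2 : R) := by
    have := hunit 2 (by exact_mod_cast n2)
    exact_mod_cast this
  have u3 : IsUnit (3 : R) := by
    have := hunit 3 (by exact_mod_cast n3)
    exact_mod_cast this
  set V : WeierstrassCurve R := W₀.map (Int.castRingHom R) with hVdef
  have hV : (1 : VariableChange F) • (((W₀.baseChange ℚ).baseChange K).baseChange F) =
      V.map (algebraMap R F) := by
    rw [one_smul, WeierstrassCurve.baseChange, WeierstrassCurve.baseChange,
      WeierstrassCurve.baseChange, WeierstrassCurve.map_map, WeierstrassCurve.map_map, hVdef,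
      WeierstrassCurve.map_map]
    congr 1
    exact Subsingleton.elim _ _
  have hVΔ : IsUnit V.Δ := by
    rw [hVdef, map_Δ]
    exact hunit _ hΔ
  exact (Fam.good_of_integral R _ V 1 hV hVΔ u2 u3).1

/-- The coefficients of a base change at the primes of good reduction. -/
theorem yg_baseChange (W : WeierstrassCurve ℤ) (K : Type u) [Field K] [NumberField K] {p : ℕ}
    (hp : p.Prime) (h3 : 3 < p) (hΔ : ((W.Δ : ℤ) : ZMod p) ≠ 0) :
    Tw.yg ((W.baseChange ℚ).baseChange K) p = Fam.homCount K p * Fam.yy W p := by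
  classical
  have hW : (1 : WeierstrassCurve.VariableChange ℚ) • (W.baseChange ℚ) =
      W.map (Int.castRingHom ℚ) := by
    rw [one_smul, WeierstrassCurve.baseChange]
    congr 1
  unfold Tw.yg
  rw [if_pos hp]
  have := Fam.finite_fiber (K := K) p
  have := Fintype.ofFinite {v : HeightOneSpectrum (𝓞 K) // Fam.N v = p}
  have hx : ∀ v : {v : HeightOneSpectrum (𝓞 K) // Fam.N v = p},
      Tw.xg ((W.baseChange ℚ).baseChange K) v.1 = Fam.yy W p := by
    intro v
    obtain ⟨h7, h8⟩ := Fam.coeff_eq_yy (W.baseChange ℚ) W 1 hW v.1 v.2 hp h3 hΔ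
    unfold Tw.xg
    rw [if_pos (good_place W v.1 v.2 hp h3 hΔ)]
    unfold Zfr.xK
    rw [if_neg h7, h8]
  rw [tsum_congr hx, tsum_fintype, Finset.sum_const, Finset.card_univ,
    ← Nat.card_eq_fintype_card, Fam.card_fiber hp, nsmul_eq_mul]

end Pool.Agent.MPfb225e.Qt
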