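import Mathlib
import Pool.Agent.Lib.MP_fb225e_nt.Tw.Expansion
import Pool.Agent.Lib.MP_fb225e_nt.Zd.Detect2

/-!
MP_fb225e_nt, project QT, module Detect: detection of zeros by sums over primes, for an entire
function with an expansion of its logarithmic derivative.
-/

namespace Pool.Agent.MPfb225e.Qt

open Filter Topology Complex
open NumberField IsDedekindDomain
open scoped Nat
open Zd hiding detect local_data prime_expansion

/-- The data of an entire function. -/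
structure Dat (N : ℕ) (C₃ C₄ : ℝ) (F E : ℂ → ℂ) (y : ℕ → ℝ) : Prop where
  diff : Differentiable ℂ F
  hy : ∀ p, |y p| ≤ 2 * N
  hE1 : ∀ s : ℂ, 5 / 4 < s.re → DifferentiableAt ℂ E s
  hE2 : ∀ s : ℂ, 11 / 8 ≤ s.re → ‖E s‖ ≤ C₃
  hE3 : ∀ s : ℂ, 3 / 2 < s.re → deriv F s / F s = E s -
    ∑' p : Nat.Primes, ((y p * Real.log p : ℝ) : ℂ) * (p : ℂ) ^ (-(s - 1 / 2))
  low : ∀ s : ℂ, 3 / 2 < s.re → s.re ≤ 5 / 2 →
    Real.exp (-C₄) * (s.re - 3 / 2) ^ (2 * N) ≤ ‖F s‖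
  ne : ∀ s : ℂ, F s = 0 → s.re ≤ 3 / 2

/-- The local data at height `t`. -/
theorem local_data (n : ℕ) (C₃ C₄ : ℝ) (hC₃ : 0 < C₃) (hC₄ : 0 < C₄) : ∃ C₀ : ℝ, 0 < C₀ ∧
    ∀ (F E : ℂ → ℂ) (y : ℕ → ℝ), Dat n C₃ C₄ F E y →
    ∀ (δ T M : ℝ), 0 < δ → δ ≤ 1 / 2 → 0 ≤ T → 2 ≤ M →
    (∀ s : ℂ, 3 / 2 - δ ≤ s.re → |s.im| ≤ T + 1 → ‖F s‖ ≤ M) →
    ∀ η : ℝ, 0 < η → 32 * η ≤ δ → ∀ t : ℝ, |t| ≤ T + 1 / 2 →
    ∃ (k : ℕ) (ρ : Fin k → ℂ) (g : ℂ → ℂ), Differentiable ℂ g ∧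
      (∀ z, F z = (∏ j, (z - ρ j)) * g z) ∧
      (∀ z : ℂ, 3 / 2 - η ≤ z.re → z.re ≤ 3 / 2 → |z.im - t| ≤ η → g z ≠ 0) ∧
      (∀ j, (ρ j).re ≤ 3 / 2) ∧
      ∑ j, (‖((3 / 2 + η : ℝ) : ℂ) + t * I - ρ j‖⁻¹) ^ 2 ≤
        C₀ * (1 + η * (Zfr.Lg M T δ / δ)) / η ^ 2 ∧
      ∀ m : ℕ, ‖(∑' p : Nat.Primes, ((y p * Real.log p * (Real.log p ^ m / m !) : ℝ) : ℂ) *
        (p : ℂ) ^ (-(((3 / 2 + η : ℝ) : ℂ) + t * I - 1 / 2))) +
        ∑ j, ((((3 / 2 + η : ℝ) : ℂ) + t * I - ρ j)⁻¹) ^ (m + 1)‖ ≤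
          C₀ * (Zfr.Lg M T δ / δ) * ((16 / δ) ^ m) := by
  obtain ⟨C₂, hC₂, hloc⟩ := local_factor'
  obtain ⟨C₈, hC₈, hlp⟩ := sum_lp
  set CG : ℝ := 8 * C₂ * (C₄ + 6 * n + 2) + C₃ with hCG
  have hCG0 : 0 < CG := by positivity
  set CS : ℝ := 2 * n * C₈ + 2 * CG with hCS
  have hCS0 : 0 < CS := by positivity
  refine ⟨CS + 2 * CG, by positivity, ?_⟩
  intro F E y hdat
  obtain ⟨hF, hy, hE1, hE2, hE3, hlow, hFne⟩ := hdat
  intro δ T M hδ hδ1 hT hM hFM η hη hηδ t ht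
  have hLg := Zfr.two_le_Lg hδ hδ1 hT hM
  have hLM := Zfr.log_M_le hδ hδ1 hT hM
  have hLδ := Zfr.log_δ_le hδ hδ1 hT hM
  set Lg := Zfr.Lg M T δ with hLgdef
  set Λ : ℝ := Lg / δ with hΛ
  have hΛ1 : 1 ≤ Λ := by
    rw [hΛ, le_div_iff₀ hδ]
    linarith
  have hLgΛ : Lg ≤ Λ := by
    rw [hΛ, le_div_iff₀ hδ]
    nlinarith
  set r : ℝ := δ / 8 with hr
  have hr0 : 0 < r := by positivity
  set c : ℂ := ((3 / 2 + r / 4 : ℝ) : ℂ) + t * I with hc
  set s₀ : ℂ := ((3 / 2 + η : ℝ) : ℂ) + t * I with hs₀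
  have hcre : c.re = 3 / 2 + r / 4 := by simp [hc]
  have hcim : c.im = t := by simp [hc]
  have hs₀re : s₀.re = 3 / 2 + η := by simp [hs₀]
  have hs₀im : s₀.im = t := by simp [hs₀]
  -- the centre
  have hFc : Real.exp (-C₄) * (r / 4) ^ (2 * n) ≤ ‖F c‖ := by
    have h1 := hlow c (by rw [hcre]; linarith) (by rw [hcre]; linarith)
    rwa [hcre, add_sub_cancel_left] at h1
  have hFc0 : F c ≠ 0 := by
    intro h
    rw [h, norm_zero] at hFc
    have : 0 < Real.exp (-C₄) * (r / 4) ^ (2 * n) := by positivity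
    linarith
  set L' : ℝ := (C₄ + 6 * n + 1) * Lg with hL'
  have hL'0 : 0 ≤ L' := by positivity
  have hML : M ≤ Real.exp L' * ‖F c‖ := by
    have hlog32 : Real.log 32 ≤ 4 := by
      have h1 : Real.log 32 = 5 * Real.log 2 := by
        rw [show (32 : ℝ) = 2 ^ 5 by norm_num, Real.log_pow]
        norm_num
      rw [h1]
      linarith [Real.log_two_lt_d9]
    have h1 : Real.log (r / 4) = Real.log δ - Real.log 32 := by
      rw [hr, ← Real.log_div (by positivity) (by norm_num)]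
      congr 1
      ring
    have h2 : Real.log M ≤ L' + Real.log (Real.exp (-C₄) * (r / 4) ^ (2 * n)) := by
      rw [Real.log_mul (by positivity) (by positivity), Real.log_exp, Real.log_pow, h1, hL']
      push_cast
      have h3 : C₄ ≤ C₄ * Lg := by nlinarith
      have h4 : (2 * n : ℝ) * (Real.log 32 - Real.log δ) ≤ 2 * n * (3 * Lg) := by
        refine mul_le_mul_of_nonneg_left ?_ (by positivity)
        linarith
      nlinarith
    have h5 : M ≤ Real.exp L' * (Real.exp (-C₄) * (r / 4) ^ (2 * n)) := by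
      rw [← Real.log_le_log_iff (by linarith) (by positivity), Real.log_mul (by positivity)
        (by positivity), Real.log_exp]
      exact h2
    exact h5.trans (mul_le_mul_of_nonneg_left hFc (by positivity))
  have hball : ∀ z ∈ Metric.closedBall c (4 * r), ‖F z‖ ≤ M := by
    intro z hz
    rw [Metric.mem_closedBall, dist_eq_norm] at hz
    have h1 := (Complex.abs_re_le_norm (z - c)).trans hz
    have h2 := (Complex.abs_im_le_norm (z - c)).trans hz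
    rw [Complex.sub_re, hcre, abs_le] at h1
    rw [Complex.sub_im, hcim, abs_le] at h2
    rw [abs_le] at ht
    refine hFM z (by linarith [h1.1]) ?_
    rw [abs_le]
    constructor
    · linarith [h2.1]
    · linarith [h2.2]
  obtain ⟨k, ρ, g, hg, hfac, hg0, hgb⟩ := hloc F c r M L' hr0 hL'0 hF hball hML hFc0
  have hρz : ∀ j, F (ρ j) = 0 := by
    intro j
    rw [hfac, Finset.prod_eq_zero (Finset.mem_univ j) (sub_self _), zero_mul]
  have hρre : ∀ j, (ρ j).re ≤ 3 / 2 := fun j => hFne _ (hρz j)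
  set G : ℝ := CG * Λ with hG
  have hG0 : 0 < G := by positivity
  have hGb : C₂ * (L' + 1) / r ≤ G - C₃ := by
    have h1 : C₂ * (L' + 1) / r = 8 * C₂ * (L' + 1) / δ := by rw [hr]; field_simp
    have h2 : L' + 1 ≤ (C₄ + 6 * n + 2) * Lg := by rw [hL']; nlinarith
    have h3 : 8 * C₂ * (L' + 1) / δ ≤ 8 * C₂ * ((C₄ + 6 * n + 2) * Lg) / δ := by
      gcongr
    have h4 : 8 * C₂ * ((C₄ + 6 * n + 2) * Lg) / δ = 8 * C₂ * (C₄ + 6 * n + 2) * Λ := by
      rw [hΛ]; ring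
    have h5 : C₃ ≤ C₃ * Λ := by nlinarith
    rw [h1, hG, hCG]
    nlinarith
  have hsub : Metric.closedBall s₀ (δ / 16) ⊆ Metric.closedBall c r := by
    refine Metric.closedBall_subset_closedBall' ?_
    have h1 : dist s₀ c ≤ r / 4 := by
      rw [dist_eq_norm, hs₀, hc]
      have e : ((3 / 2 + η : ℝ) : ℂ) + t * I - (((3 / 2 + r / 4 : ℝ) : ℂ) + t * I) =
          ((η - r / 4 : ℝ) : ℂ) := by push_cast; ring
      rw [e, Complex.norm_real, Real.norm_eq_abs, abs_le]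
      constructor <;> linarith
    rw [hr] at h1 ⊢
    linarith
  have hregion : ∀ z : ℂ, 3 / 2 - η ≤ z.re → z.re ≤ 3 / 2 → |z.im - t| ≤ η → g z ≠ 0 := by
    intro z h1 h2 h3
    refine hg0 z ?_
    rw [Metric.mem_closedBall, dist_eq_norm]
    refine (Complex.norm_le_abs_re_add_abs_im _).trans ?_
    rw [Complex.sub_re, Complex.sub_im, hcre, hcim]
    have h4 : |z.re - (3 / 2 + r / 4)| ≤ η + r / 4 := by
      rw [abs_le]
      constructor <;> linarith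
    linarith
  have hE3' : ∀ s : ℂ, 3 / 2 < s.re → deriv F s / F s = E s -
      ∑' p : Nat.Primes, ((y p * Real.log p : ℝ) : ℂ) * (p : ℂ) ^ (-(s - 1 / 2)) :=
    fun s hs => hE3 s hs
  have hlogn : ∀ p : ℕ, |y p * Real.log p| ≤ 2 * n * Real.log p := by
    intro p
    rw [abs_mul, abs_of_nonneg (Real.log_natCast_nonneg _)]
    exact mul_le_mul_of_nonneg_right (hy p) (Real.log_natCast_nonneg _)
  have hcomp := taylor_compare (2 * n) (fun p => y p * Real.log p) hlogn F g E k ρ s₀ (δ / 16) G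
    (by positivity) (by rw [hs₀re]; linarith) hg hfac hρre (fun z hz => hg0 z (hsub hz))
    (fun z hz => (hgb z (hsub hz)).trans (by linarith [hGb]))
    (fun z hz => hE1 z (by
      rw [Metric.mem_closedBall, dist_eq_norm] at hz
      have h1 := (Complex.abs_re_le_norm (z - s₀)).trans hz
      rw [Complex.sub_re, hs₀re, abs_le] at h1
      linarith [h1.1]))
    (fun z hz => (hE2 z (by
      rw [Metric.mem_closedBall, dist_eq_norm] at hz
      have h1 := (Complex.abs_re_le_norm (z - s₀)).trans hz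
      rw [Complex.sub_re, hs₀re, abs_le] at h1
      linarith [h1.1])).trans (by
        have h5 : C₃ ≤ C₃ * Λ := by nlinarith
        have h6 : 0 ≤ 8 * C₂ * (C₄ + 6 * n + 2) * Λ := by positivity
        rw [hG, hCG]
        linarith))
    hE3'
  refine ⟨k, ρ, g, hg, hfac, hregion, hρre, ?_, ?_⟩
  · -- the sum over the zeros
    have hgs : g s₀ ≠ 0 := hg0 s₀ (hsub (Metric.mem_closedBall_self (by positivity)))
    have hne : ∀ j, s₀ - ρ j ≠ 0 := by
      intro j h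
      have h1 := congrArg Complex.re h
      rw [Complex.sub_re, hs₀re, Complex.zero_re] at h1
      linarith [hρre j]
    have hF0 : F s₀ ≠ 0 := by
      rw [hfac]
      exact mul_ne_zero (Finset.prod_ne_zero_iff.2 fun j _ => hne j) hgs
    have hld : deriv F s₀ / F s₀ = (∑ j, (s₀ - ρ j)⁻¹) + deriv g s₀ / g s₀ := by
      have h1 : logDeriv F s₀ = logDeriv (fun z => ∏ j, (z - ρ j)) s₀ + logDeriv g s₀ := by
        have e : F = fun z => (∏ j, (z - ρ j)) * g z := funext hfac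
        conv_lhs => rw [e]
        exact logDeriv_mul s₀ (Finset.prod_ne_zero_iff.2 fun j _ => hne j) hgs
          (by fun_prop) (hg s₀)
      have h2 : logDeriv (fun z => ∏ j, (z - ρ j)) s₀ = ∑ j, (s₀ - ρ j)⁻¹ := by
        rw [logDeriv_prod (s := Finset.univ) (f := fun j z => z - ρ j) (fun j _ => hne j)
          (fun j _ => by fun_prop)]
        refine Finset.sum_congr rfl fun j _ => ?_
        rw [logDeriv_apply, deriv_sub_const, deriv_id'', one_div]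
      rw [h2] at h1
      simpa only [logDeriv_apply] using h1
    have hEs : ‖E s₀‖ ≤ C₃ := hE2 s₀ (by rw [hs₀re]; linarith)
    have hPs : ‖∑' p : Nat.Primes, ((y p * Real.log p : ℝ) : ℂ) * (p : ℂ) ^ (-(s₀ - 1 / 2))‖ ≤
        2 * n * (C₈ / η) := by
      have hb : ∀ p : Nat.Primes,
          ‖((y p * Real.log p : ℝ) : ℂ) * (p : ℂ) ^ (-(s₀ - 1 / 2))‖ ≤ 2 * n * Szf.lp η p := by
        intro p
        rw [norm_mul, Zd.norm_cpow_le, Complex.norm_real, Real.norm_eq_abs, hs₀re]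
        have e : -(3 / 2 + η - 1 / 2) = -(1 + η) := by ring
        rw [e]
        unfold Szf.lp
        rw [← mul_assoc]
        exact mul_le_mul_of_nonneg_right (hlogn p) (Real.rpow_nonneg (by positivity) _)
      have h1 := tsum_of_norm_bounded ((Szf.summable_lp hη).mul_left (2 * (n : ℝ))).hasSum hb
      refine h1.trans ?_
      rw [tsum_mul_left]
      exact mul_le_mul_of_nonneg_left (hlp η hη (by linarith)) (by positivity)
    have hgs' : ‖deriv g s₀ / g s₀‖ ≤ G - C₃ :=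
      (hgb s₀ (hsub (Metric.mem_closedBall_self (by positivity)))).trans hGb
    have hsumre : ∑ j, ((s₀ - ρ j)⁻¹).re ≤ CS * (1 + η * Λ) / η := by
      have h1 : (∑ j, ((s₀ - ρ j)⁻¹).re) = (∑ j, (s₀ - ρ j)⁻¹).re := by
        rw [Complex.re_sum]
      have h2 : (∑ j, (s₀ - ρ j)⁻¹) = deriv F s₀ / F s₀ - deriv g s₀ / g s₀ := by
        rw [hld]; ring
      rw [h1, h2, hE3' s₀ (by rw [hs₀re]; linarith)]
      refine (Complex.re_le_norm _).trans ?_
      refine (norm_sub_le _ _).trans ?_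
      have h3 := norm_sub_le (E s₀)
        (∑' p : Nat.Primes, ((y p * Real.log p : ℝ) : ℂ) * (p : ℂ) ^ (-(s₀ - 1 / 2)))
      have h4 : CS * (1 + η * Λ) / η = 2 * n * (C₈ / η) + 2 * CG / η + CS * Λ := by
        rw [hCS]
        field_simp
      have h5 : G ≤ CS * Λ := by
        rw [hG, hCS]
        have : 0 ≤ (2 * n * C₈ + CG) * Λ := by positivity
        nlinarith
      have h6 : 0 ≤ 2 * CG / η := by positivity
      linarith
    have hterm : ∀ j, (‖s₀ - ρ j‖⁻¹) ^ 2 ≤ ((s₀ - ρ j)⁻¹).re / η := by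
      intro j
      have h1 : η ≤ (s₀ - ρ j).re := by
        rw [Complex.sub_re, hs₀re]
        linarith [hρre j]
      rw [Complex.inv_re, Complex.normSq_eq_norm_sq, inv_pow, div_div, le_div_iff₀ (by
        have := norm_pos_iff.2 (hne j)
        positivity)]
      have h2 : 0 < ‖s₀ - ρ j‖ ^ 2 := by
        have := norm_pos_iff.2 (hne j)
        positivity
      rw [inv_mul_eq_div, mul_div_assoc, mul_comm, div_mul_cancel_of_imp (fun h => absurd h h2.ne')]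
      exact h1
    calc ∑ j, (‖s₀ - ρ j‖⁻¹) ^ 2
        ≤ ∑ j, ((s₀ - ρ j)⁻¹).re / η := Finset.sum_le_sum fun j _ => hterm j
      _ = (∑ j, ((s₀ - ρ j)⁻¹).re) / η := by rw [Finset.sum_div]
      _ ≤ (CS * (1 + η * Λ) / η) / η := div_le_div_of_nonneg_right hsumre hη.le
      _ = CS * (1 + η * Λ) / η ^ 2 := by rw [div_div, sq]
      _ ≤ (CS + 2 * CG) * (1 + η * Λ) / η ^ 2 := by
          gcongr
          linarith
  · intro m
    refine (hcomp m).trans ?_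
    have e : (δ / 16)⁻¹ = 16 / δ := by rw [inv_div]
    rw [e]
    refine mul_le_mul_of_nonneg_right ?_ (by positivity)
    rw [hG]
    nlinarith [mul_pos hCS0 (lt_of_lt_of_le one_pos hΛ1)]

/-- QT detection. -/
theorem detect (n : ℕ) (C₃ C₄ : ℝ) (hC₃ : 0 < C₃) (hC₄ : 0 < C₄) : ∃ A C₆ C₇ : ℝ, 1 ≤ A ∧
    0 < C₆ ∧ 0 < C₇ ∧ ∀ (F E : ℂ → ℂ) (y : ℕ → ℝ), Dat n C₃ C₄ F E y →
    ∀ (δ T M : ℝ), 0 < δ → δ ≤ 1 / 2 → 0 ≤ T → 2 ≤ M →
    (∀ s : ℂ, 3 / 2 - δ ≤ s.re → |s.im| ≤ T + 1 → ‖F s‖ ≤ M) →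
    ∀ η : ℝ, 0 < η → C₇ * η ≤ δ → ∀ m : ℕ, C₆ * (1 + η * (Zfr.Lg M T δ / δ)) ≤ m →
    ∀ t : ℝ, |t| ≤ T + 1 / 2 →
    (∀ S : Finset ℂ, (∀ x ∈ S, 3 / 2 - η ≤ x.re ∧ |x.im - t| ≤ η) →
      ∑ x ∈ S, analyticOrderNatAt F x ≤ m) ∧
    ∀ x : ℂ, 3 / 2 - η ≤ x.re → |x.im - t| ≤ η → F x = 0 → ∃ q : ℕ, m ≤ q ∧ q + 1 ≤ 2 * m ∧
      1 / 2 * A⁻¹ ^ m * ((3 * η)⁻¹) ^ (q + 1) ≤ ‖Zd.psum y η t q‖ := by
  classical
  obtain ⟨A, hA, hTur⟩ := turan
  obtain ⟨C₀, hC₀, hdata⟩ := local_data n C₃ C₄ hC₃ hC₄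
  have hA0 : 0 < A := by linarith
  refine ⟨A, (12 * A) ^ 2 * C₀ + 12 * C₀, 192 * A, hA, by positivity, by positivity, ?_⟩
  intro F E y hdat
  have hF := hdat.diff
  intro δ T M hδ hδ1 hT hM hFM η hη hηδ m hm t ht
  have h32 : 32 * η ≤ δ := by nlinarith
  obtain ⟨k, ρ, g, hg, hfac, hg0, hρ, hsum, hcomp⟩ :=
    hdata F E y hdat δ T M hδ hδ1 hT hM hFM η hη h32 t ht
  change ∑ j, (‖pt η t - ρ j‖⁻¹) ^ 2 ≤ _ at hsum
  have hLg := Zfr.two_le_Lg hδ hδ1 hT hM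
  set Λ : ℝ := Zfr.Lg M T δ / δ with hΛ
  have hΛ0 : 0 < Λ := by rw [hΛ]; positivity
  have hbase : 0 < 1 + η * Λ := by positivity
  have hre : ∀ j, η ≤ (pt η t - ρ j).re := by
    intro j
    rw [Complex.sub_re, pt_re]
    linarith [hρ j]
  have hpos : ∀ j, 0 < ‖pt η t - ρ j‖ := fun j =>
    lt_of_lt_of_le hη ((hre j).trans (Complex.re_le_norm _))
  have hdist : ∀ x : ℂ, 3 / 2 - η ≤ x.re → x.re ≤ 3 / 2 → |x.im - t| ≤ η →
      ‖pt η t - x‖ ≤ 3 * η := by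
    intro x h1 h2 h3
    refine (Complex.norm_le_abs_re_add_abs_im _).trans ?_
    rw [Complex.sub_re, Complex.sub_im, pt_re, pt_im, abs_sub_comm t]
    have h4 : |3 / 2 + η - x.re| ≤ 2 * η := by
      rw [abs_le]
      constructor <;> linarith
    linarith
  refine ⟨?_, ?_⟩
  · intro S hS
    have h1 : ∑ x ∈ S, analyticOrderNatAt F x =
        ∑ x ∈ S.filter (fun x => F x = 0), analyticOrderNatAt F x := by
      rw [Finset.sum_filter]
      refine Finset.sum_congr rfl fun x _ => ?_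
      split_ifs with h
      · rfl
      · exact order_eq_zero hF h
    rw [h1]
    have h2 := orders_le hg ρ hfac (S.filter fun x => F x = 0) (fun x hx => by
      rw [Finset.mem_filter] at hx
      exact hg0 x (hS x hx.1).1 (hdat.ne _ hx.2) (hS x hx.1).2)
      (fun j => ‖pt η t - ρ j‖ ≤ 3 * η) (fun j hj => by
        rw [Finset.mem_filter] at hj
        exact hdist _ (hS _ hj.1).1 (hdat.ne _ hj.2) (hS _ hj.1).2)
    refine h2.trans ?_
    have h3 : ∑ j ∈ Finset.univ.filter (fun j => ‖pt η t - ρ j‖ ≤ 3 * η), (3 * η)⁻¹ ^ 2 ≤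
        ∑ j, (‖pt η t - ρ j‖⁻¹) ^ 2 := by
      refine (Finset.sum_le_sum fun j hj => ?_).trans (Finset.sum_le_univ_sum_of_nonneg
        fun j => by positivity)
      rw [Finset.mem_filter] at hj
      exact pow_le_pow_left₀ (by positivity) (inv_anti₀ (hpos j) hj.2) 2
    rw [Finset.sum_const, nsmul_eq_mul] at h3
    have h4 := h3.trans hsum
    have h5 : ((Finset.univ.filter fun j => ‖pt η t - ρ j‖ ≤ 3 * η).card : ℝ) * (3 * η)⁻¹ ^ 2 =
        ((Finset.univ.filter fun j => ‖pt η t - ρ j‖ ≤ 3 * η).card : ℝ) / (9 * η ^ 2) := by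
      have e9 : (3 * η) ^ 2 = 9 * η ^ 2 := by ring
      rw [inv_pow, e9, div_eq_mul_inv]
    rw [h5, div_le_div_iff₀ (by positivity) (by positivity)] at h4
    have h6 : ((Finset.univ.filter fun j => ‖pt η t - ρ j‖ ≤ 3 * η).card : ℝ) * η ^ 2 ≤
        (9 * (C₀ * (1 + η * Λ))) * η ^ 2 := by linarith
    have h7 := le_of_mul_le_mul_right h6 (by positivity)
    have h8 : 9 * (C₀ * (1 + η * Λ)) ≤ ((12 * A) ^ 2 * C₀ + 12 * C₀) * (1 + η * Λ) := by
      have h9 : 0 ≤ ((12 * A) ^ 2 * C₀ + 3 * C₀) * (1 + η * Λ) := by positivity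
      nlinarith
    exact_mod_cast h7.trans (h8.trans hm)
  · intro x hx1 hx2 hx0
    have hx3 := hdat.ne _ hx0
    have hgx := hg0 x hx1 hx3 hx2
    obtain ⟨j₀, hj₀⟩ : ∃ j, x = ρ j := by
      have h1 := hfac x
      rw [hx0] at h1
      have h2 := (mul_eq_zero.1 h1.symm).resolve_right hgx
      obtain ⟨j, -, hj⟩ := Finset.prod_eq_zero_iff.1 h2
      exact ⟨j, sub_eq_zero.1 hj⟩
    have hm' : (12 * A) ^ 2 * (C₀ * (1 + η * Λ)) ≤ m := by
      refine le_trans ?_ hm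
      have h9 : 0 ≤ 12 * C₀ * (1 + η * Λ) := by positivity
      nlinarith
    obtain ⟨q, hq1, hq2, hq3⟩ := power_detect hA hTur ρ (pt η t) m hη hre hsum hm' j₀
      (by rw [← hj₀]; exact hdist x hx1 hx3 hx2)
    refine ⟨q - 1, by omega, by omega, ?_⟩
    have hq : q - 1 + 1 = q := by omega
    rw [hq]
    have h1 := hcomp (q - 1)
    rw [hq] at h1
    change ‖psum y η t (q - 1) + ∑ j, ((pt η t - ρ j)⁻¹) ^ q‖ ≤ _ at h1
    have h2 : ‖∑ j, ((pt η t - ρ j)⁻¹) ^ q‖ ≤ ‖psum y η t (q - 1)‖ +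
        ‖psum y η t (q - 1) + ∑ j, ((pt η t - ρ j)⁻¹) ^ q‖ := by
      have h3 := norm_sub_norm_le (∑ j, ((pt η t - ρ j)⁻¹) ^ q)
        (psum y η t (q - 1) + ∑ j, ((pt η t - ρ j)⁻¹) ^ q)
      have h4 : (∑ j, ((pt η t - ρ j)⁻¹) ^ q) -
          (psum y η t (q - 1) + ∑ j, ((pt η t - ρ j)⁻¹) ^ q) =
          -psum y η t (q - 1) := by ring
      rw [h4, norm_neg] at h3
      linarith
    have h3 : C₀ * Λ * (16 / δ) ^ (q - 1) ≤ 1 / 4 * A⁻¹ ^ m * ((3 * η)⁻¹) ^ q := by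
      have e1 : ((3 * η)⁻¹) ^ q = ((3 * η)⁻¹) ^ (q - 1) * (3 * η)⁻¹ := by
        rw [← pow_succ, hq]
      have h4 : 16 / δ ≤ (4 * A)⁻¹ * (3 * η)⁻¹ := by
        rw [← mul_inv, ← one_div, div_le_div_iff₀ hδ (by positivity)]
        nlinarith
      have h5 : (16 / δ) ^ (q - 1) ≤ ((4 * A)⁻¹) ^ (q - 1) * ((3 * η)⁻¹) ^ (q - 1) := by
        rw [← mul_pow]
        exact pow_le_pow_left₀ (by positivity) h4 _
      have h6 : ((4 * A)⁻¹) ^ (q - 1) ≤ ((4 * A)⁻¹) ^ m :=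
        pow_le_pow_of_le_one (by positivity) (inv_le_one_of_one_le₀ (by linarith)) (by omega)
      have h7 : ((4 * A)⁻¹) ^ m = (4 ^ m)⁻¹ * A⁻¹ ^ m := by
        rw [mul_inv, mul_pow, inv_pow]
      have h8 : 12 * (C₀ * (η * Λ)) ≤ m := by
        refine le_trans ?_ hm
        have h9 : 0 ≤ (12 * A) ^ 2 * C₀ * (1 + η * Λ) + 12 * C₀ := by positivity
        nlinarith
      have h9 : (m : ℝ) ≤ 4 ^ m := by
        have := Nat.lt_pow_self (n := m) (show 1 < 4 by norm_num)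
        exact_mod_cast this.le
      have h10 : 12 * (C₀ * (η * Λ)) * (4 ^ m)⁻¹ ≤ 1 := by
        rw [← div_eq_mul_inv, div_le_one (by positivity)]
        exact h8.trans h9
      calc C₀ * Λ * (16 / δ) ^ (q - 1)
          ≤ C₀ * Λ * (((4 ^ m)⁻¹ * A⁻¹ ^ m) * ((3 * η)⁻¹) ^ (q - 1)) := by
            refine mul_le_mul_of_nonneg_left (h5.trans ?_) (by positivity)
            rw [← h7]
            exact mul_le_mul_of_nonneg_right h6 (by positivity)
        _ = (12 * (C₀ * (η * Λ)) * (4 ^ m)⁻¹) * (1 / 4 * A⁻¹ ^ m * ((3 * η)⁻¹) ^ q) := by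
            rw [e1]
            field_simp
            ring
        _ ≤ 1 * (1 / 4 * A⁻¹ ^ m * ((3 * η)⁻¹) ^ q) :=
            mul_le_mul_of_nonneg_right h10 (by positivity)
        _ = _ := one_mul _
    have h5 : 3 / 4 * A⁻¹ ^ m * ((3 * η)⁻¹) ^ q - 1 / 4 * A⁻¹ ^ m * ((3 * η)⁻¹) ^ q =
        1 / 2 * A⁻¹ ^ m * ((3 * η)⁻¹) ^ q := by ring
    linarith

end Pool.Agent.MPfb225e.Qt
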