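import Mathlib
import Pool.Agent.Lib.MP_fb225e_nt.Zd.Lower

/-!
MP_fb225e_nt, project QT, module Upper: upper bound for `L(W/K, s)` to the right of the edge.
-/

namespace Pool.Agent.MPfb225e.Qt

open Filter Topology Complex
open NumberField IsDedekindDomain

universe u

open Zfr LogExp

variable {ι : Type*}

theorem log_upper {q : ι → ℕ} {a b : ι → ℤ} {α β : ι → ℂ} {c : ι → ℝ} {Z : Set ι}
    (D : Data q a b α β c Z) [Northcott q] (t ε : ℝ) (hε : 0 < ε) :
    Real.log ‖L q a b ((3 / 2 + ε : ℝ) + t * I)‖ ≤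
      2 * (∑' i, (q i : ℝ) ^ (-(1 + ε))) + bd q Z := by
  classical
  set s : ℂ := (3 / 2 + ε : ℝ) + t * I with hs
  have hre : s.re = 3 / 2 + ε := by simp [hs]
  have him : s.im = t := by simp [hs]
  have hs32 : 3 / 2 < s.re := by rw [hre]; linarith
  have hρ : 0 < 1 - rho := by linarith [rho_lt]
  have hρ7 := Expand_inv_rho
  rw [D.log_L hs32]
  have hg := Expand_hasSum_g (q := q) D.hZ (D.hsum (3 / 2) (by norm_num))
  have hq1s := (D.hsum (1 + ε) (by linarith)).hasSum.mul_left 2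
  have hlog := (D.summable_log hs32).hasSum.neg
  have htot := (hlog.add hq1s).add hg
  have hpos : ∀ i, 0 ≤ -Real.log ‖fac q α β s i‖ + 2 * (q i : ℝ) ^ (-(1 + ε)) +
      (14 * (q i : ℝ) ^ (-(3 / 2 : ℝ)) + (if i ∈ Z then (14 : ℝ) else 0)) := by
    intro i
    have hq := D.hq i
    have hq1 : (1 : ℝ) ≤ q i := by exact_mod_cast (by omega : 1 ≤ q i)
    have hq0 : (0 : ℝ) < q i := by linarith
    have p1 : 0 ≤ (q i : ℝ) ^ (-(1 + ε)) := Real.rpow_nonneg hq0.le _
    have p2 : 0 ≤ (q i : ℝ) ^ (-(3 / 2 : ℝ)) := Real.rpow_nonneg hq0.le _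
    by_cases hi : i ∈ Z
    · have h1 := D.abs_log_fac_le hs32 i
      have h2 := D.r_le hs32 i
      have h3 := (abs_le.mp h1).2
      have h4 : 4 / (1 - rho) * (c i * (q i : ℝ) ^ (-s.re)) ≤ 14 * 1 := by
        have e : 4 / (1 - rho) = 4 * (1 / (1 - rho)) := by ring
        refine mul_le_mul ?_ (h2.trans rho_lt.le) ?_ (by norm_num)
        · rw [e]; linarith
        · exact mul_nonneg (D.c_nonneg i) (Real.rpow_nonneg hq0.le _)
      rw [if_pos hi]
      linarith
    · have h1 := D.abs_log_fac_sub_le hs32 hi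
      have h3 := (abs_le.mp h1).2
      have e : xs q a Z i * ((q i : ℝ) ^ (-(1 + ε)) * Real.cos (t * Real.log (q i))) =
          (a i : ℝ) * ((q i : ℝ) ^ (-s.re) * Real.cos (s.im * Real.log (q i))) := by
        rw [hre, him]
        simp only [xs, if_neg hi]
        have e1 : (q i : ℝ) ^ (-(1 + ε)) = √(q i : ℝ) * (q i : ℝ) ^ (-(3 / 2 + ε)) := by
          rw [Real.sqrt_eq_rpow, ← Real.rpow_add hq0]
          congr 1
          ring
        have hsq : √(q i : ℝ) ≠ 0 := (Real.sqrt_pos.mpr hq0).ne'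
        rw [e1]
        field_simp
      rw [← e] at h3
      have h4 : |xs q a Z i * ((q i : ℝ) ^ (-(1 + ε)) * Real.cos (t * Real.log (q i)))| ≤
          2 * (q i : ℝ) ^ (-(1 + ε)) := by
        rw [abs_mul, abs_mul, abs_of_nonneg p1]
        calc |xs q a Z i| * ((q i : ℝ) ^ (-(1 + ε)) * |Real.cos (t * Real.log (q i))|)
            ≤ 2 * ((q i : ℝ) ^ (-(1 + ε)) * 1) := by
              refine mul_le_mul (D.abs_xs_le i)
                (mul_le_mul_of_nonneg_left (Real.abs_cos_le_one _) p1) (by positivity)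
                (by norm_num)
          _ = 2 * (q i : ℝ) ^ (-(1 + ε)) := by ring
      have h5 := (abs_le.mp h4).2
      have h6 : 2 / (1 - rho) * (q i : ℝ) ^ (-(2 : ℝ)) ≤ 7 * (q i : ℝ) ^ (-(3 / 2 : ℝ)) := by
        have e : 2 / (1 - rho) = 2 * (1 / (1 - rho)) := by ring
        refine mul_le_mul ?_ ?_ (Real.rpow_nonneg hq0.le _) (by norm_num)
        · rw [e]; linarith
        · exact Real.rpow_le_rpow_of_exponent_le hq1 (by norm_num)
      rw [if_neg hi]
      linarith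
  have h := htot.nonneg hpos
  have h' := Expand_g_le_bd (q := q) (Z := Z)
  linarith

theorem upper_centre (n : ℕ) : ∃ C : ℝ, 0 < C ∧ ∀ (K : Type u) [Field K] [NumberField K]
    (W : WeierstrassCurve K), Module.finrank ℚ K = n → ∀ s : ℂ, 3 / 2 < s.re → s.re ≤ 5 / 2 →
    (s.re - 3 / 2) ^ (2 * n) * ‖W.LSeries s‖ ≤ Real.exp C := by
  obtain ⟨C₀, hC₀⟩ := bd_le.{u} n
  have hlog2 : 0 < Real.log 2 := Real.log_pos (by norm_num)
  refine ⟨|C₀| + 2 * n * Real.log 2 + 1, by positivity, ?_⟩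
  intro K _ _ W hn s hs1 hs2
  set ε : ℝ := s.re - 3 / 2 with hε
  have hε0 : 0 < ε := by linarith
  have hε1 : ε ≤ 1 := by linarith
  obtain ⟨a, b, α, β, c, D, hL, -⟩ := exists_data W
  have hs : s = ((3 / 2 + ε : ℝ) : ℂ) + s.im * I := by
    apply Complex.ext
    · simp [hε]
    · simp
  have h1 := log_upper D s.im ε hε0
  rw [← hs, ← hL] at h1
  have h2 := (hC₀ K hn).1
  have h3 := Zd.low_places (K := K) hε0
  rw [hn] at h3
  have hne : 0 < ‖W.LSeries s‖ := norm_pos_iff.2 (LSeries_ne W hs1)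
  have h4 : Real.log (1 + 1 / ε) ≤ Real.log 2 - Real.log ε := by
    rw [← Real.log_div (by norm_num) hε0.ne']
    refine Real.log_le_log (by positivity) ?_
    rw [le_div_iff₀ hε0, add_mul, one_div, inv_mul_cancel₀ hε0.ne']
    linarith
  have h5 : (n : ℝ) * Real.log (1 + 1 / ε) ≤ n * (Real.log 2 - Real.log ε) :=
    mul_le_mul_of_nonneg_left h4 (by positivity)
  have h6 := le_abs_self C₀
  have h7 : (2 * n : ℕ) * Real.log ε + Real.log ‖W.LSeries s‖ ≤
      |C₀| + 2 * n * Real.log 2 + 1 := by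
    push_cast
    nlinarith
  calc ε ^ (2 * n) * ‖W.LSeries s‖
      = Real.exp ((2 * n : ℕ) * Real.log ε + Real.log ‖W.LSeries s‖) := by
        rw [Real.exp_add, Real.exp_nat_mul, Real.exp_log hε0, Real.exp_log hne]
    _ ≤ _ := Real.exp_le_exp.2 h7

end Pool.Agent.MPfb225e.Qt
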