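import Mathlib
import Pool.Agent.Lib.MP_fb225e_nt.Qt.Detect
import Pool.Agent.Lib.MP_fb225e_nt.Qt.Upper
import Pool.Agent.Lib.MP_fb225e_nt.Tw.Good

/-!
MP_fb225e_nt, project QT, module Quot: the data of the quotient of two L-functions.
-/

namespace Pool.Agent.MPfb225e.Qt

open Filter Topology Complex
open NumberField IsDedekindDomain

universe u

theorem exists_const {P : ℕ → ℝ → Prop} (h : ∀ d, ∃ C : ℝ, 0 < C ∧ P d C)
    (hm : ∀ d C C', P d C → C ≤ C' → P d C') (n : ℕ) : ∃ C : ℝ, 0 < C ∧ ∀ d ≤ n, P d C := by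
  choose f hf hP using h
  refine ⟨∑ d ∈ Finset.range (n + 1), f d, Finset.sum_pos (fun d _ => hf d)
    ⟨0, by simp⟩, fun d hd => hm d (f d) _ (hP d) ?_⟩
  exact Finset.single_le_sum (f := f) (fun d _ => (hf d).le) (Finset.mem_range.2 (by omega))

/-- The expansion, with the same constant for all degrees up to `n`. -/
theorem expansion_le (n : ℕ) : ∃ C : ℝ, 0 < C ∧ ∀ (K : Type u) [Field K] [NumberField K]
    (W : WeierstrassCurve K), Module.finrank ℚ K ≤ n → ∃ E : ℂ → ℂ,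
    (∀ s : ℂ, 5 / 4 < s.re → DifferentiableAt ℂ E s) ∧ (∀ s : ℂ, 11 / 8 ≤ s.re → ‖E s‖ ≤ C) ∧
    ∀ F : ℂ → ℂ, (∀ s : ℂ, 3 / 2 < s.re → F s = W.LSeries s) → ∀ s : ℂ, 3 / 2 < s.re →
      deriv F s / F s = E s -
        ∑' p : Nat.Primes, ((Tw.yg W p * Real.log p : ℝ) : ℂ) * (p : ℂ) ^ (-(s - 1 / 2)) := by
  obtain ⟨C, hC, h⟩ := exists_const (fun d => Tw.prime_expansion.{u} d) (by
    intro d C C' h hC K _ _ W hn
    obtain ⟨E, h1, h2, h3⟩ := h K W hn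
    exact ⟨E, h1, fun s hs => (h2 s hs).trans hC, h3⟩) n
  exact ⟨C, hC, fun K _ _ W hn => h _ hn K W rfl⟩

theorem lower_le (n : ℕ) : ∃ C : ℝ, 0 < C ∧ ∀ (K : Type u) [Field K] [NumberField K]
    (W : WeierstrassCurve K), Module.finrank ℚ K ≤ n → ∀ s : ℂ, 3 / 2 < s.re → s.re ≤ 5 / 2 →
    Real.exp (-C) * (s.re - 3 / 2) ^ (2 * n) ≤ ‖W.LSeries s‖ ∧
    (s.re - 3 / 2) ^ (2 * n) * ‖W.LSeries s‖ ≤ Real.exp C := by
  obtain ⟨C₁, hC₁, h1⟩ := exists_const (fun d => Zd.lower_centre.{u} d) (by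
    intro d C C' h hC K _ _ W hn s hs hs'
    refine le_trans ?_ (h K W hn s hs hs')
    have : 0 ≤ s.re - 3 / 2 := by linarith
    exact mul_le_mul_of_nonneg_right (Real.exp_le_exp.2 (by linarith)) (by positivity)) n
  obtain ⟨C₂, hC₂, h2⟩ := exists_const (fun d => upper_centre.{u} d) (by
    intro d C C' h hC K _ _ W hn s hs hs'
    exact (h K W hn s hs hs').trans (Real.exp_le_exp.2 hC)) n
  refine ⟨C₁ + C₂, by positivity, fun K _ _ W hn s hs hs' => ?_⟩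
  have h3 := h1 _ hn K W rfl s hs hs'
  have h4 := h2 _ hn K W rfl s hs hs'
  have h5 : 0 ≤ s.re - 3 / 2 := by linarith
  have h6 : s.re - 3 / 2 ≤ 1 := by linarith
  have h7 : (s.re - 3 / 2) ^ (2 * n) ≤ (s.re - 3 / 2) ^ (2 * Module.finrank ℚ K) :=
    pow_le_pow_of_le_one h5 h6 (by omega)
  constructor
  · refine le_trans ?_ h3
    exact mul_le_mul (Real.exp_le_exp.2 (by linarith)) h7 (by positivity) (Real.exp_pos _).le
  · refine le_trans ?_ (h4.trans (Real.exp_le_exp.2 (by linarith)))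
    exact mul_le_mul_of_nonneg_right h7 (norm_nonneg _)

/-- QT: the data of a quotient. -/
theorem quot_dat (n : ℕ) : ∃ C₃ C₄ : ℝ, 0 < C₃ ∧ 0 < C₄ ∧ ∀ (K₁ K₂ : Type u) [Field K₁]
    [NumberField K₁] [Field K₂] [NumberField K₂] (W₁ : WeierstrassCurve K₁)
    (W₂ : WeierstrassCurve K₂), Module.finrank ℚ K₁ ≤ n → Module.finrank ℚ K₂ ≤ n →
    ∀ F₁ F₂ Q : ℂ → ℂ, Differentiable ℂ F₁ → Differentiable ℂ Q →
    (∀ s : ℂ, 3 / 2 < s.re → F₁ s = W₁.LSeries s) → (∀ s : ℂ, 3 / 2 < s.re → F₂ s = W₂.LSeries s) →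
    (∀ s, F₂ s = F₁ s * Q s) → ∃ E : ℂ → ℂ,
      Dat (2 * n) C₃ C₄ Q E fun p => Tw.yg W₂ p - Tw.yg W₁ p := by
  obtain ⟨C₃, hC₃, hexp⟩ := expansion_le.{u} n
  obtain ⟨C₄, hC₄, hlow⟩ := lower_le.{u} n
  refine ⟨2 * C₃, 2 * C₄, by positivity, by positivity, ?_⟩
  intro K₁ K₂ _ _ _ _ W₁ W₂ hn₁ hn₂ F₁ F₂ Q hF₁ hQ hL₁ hL₂ hfac
  obtain ⟨E₁, h11, h12, h13⟩ := hexp K₁ W₁ hn₁
  obtain ⟨E₂, h21, h22, h23⟩ := hexp K₂ W₂ hn₂
  have hb₁ : ∀ p, |Tw.yg W₁ p| ≤ 2 * n := fun p => (Tw.abs_yg_le W₁ p).trans (by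
    have : ((Module.finrank ℚ K₁ : ℕ) : ℝ) ≤ n := by exact_mod_cast hn₁
    linarith)
  have hb₂ : ∀ p, |Tw.yg W₂ p| ≤ 2 * n := fun p => (Tw.abs_yg_le W₂ p).trans (by
    have : ((Module.finrank ℚ K₂ : ℕ) : ℝ) ≤ n := by exact_mod_cast hn₂
    linarith)
  refine ⟨fun s => E₂ s - E₁ s, hQ, ?_, ?_, ?_, ?_, ?_, ?_⟩
  · intro p
    refine (abs_sub _ _).trans ?_
    have := add_le_add (hb₂ p) (hb₁ p)
    push_cast
    linarith
  · intro s hs
    exact (h21 s hs).sub (h11 s hs)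
  · intro s hs
    refine (norm_sub_le _ _).trans ?_
    linarith [h12 s hs, h22 s hs]
  · intro s hs
    have hF1 : F₁ s ≠ 0 := fun h => absurd (Zfr.re_le_of_zero W₁ hL₁ h) (by linarith)
    have hF2 : F₂ s ≠ 0 := fun h => absurd (Zfr.re_le_of_zero W₂ hL₂ h) (by linarith)
    have hQ0 : Q s ≠ 0 := by
      intro h
      rw [hfac, h, mul_zero] at hF2
      exact hF2 rfl
    have e1 : deriv F₂ s / F₂ s = deriv F₁ s / F₁ s + deriv Q s / Q s := by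
      have e : F₂ = fun z => F₁ z * Q z := funext hfac
      have h := logDeriv_mul s hF1 hQ0 (hF₁ s) (hQ s)
      rw [← e] at h
      simpa only [logDeriv_apply] using h
    have h1 := h13 F₁ hL₁ s hs
    have h2 := h23 F₂ hL₂ s hs
    have hs1 := Tw.summable_term hb₁ hs
    have hs2 := Tw.summable_term hb₂ hs
    have e2 : (∑' p : Nat.Primes, (((Tw.yg W₂ p - Tw.yg W₁ p) * Real.log p : ℝ) : ℂ) *
        (p : ℂ) ^ (-(s - 1 / 2))) =
        (∑' p : Nat.Primes, ((Tw.yg W₂ p * Real.log p : ℝ) : ℂ) * (p : ℂ) ^ (-(s - 1 / 2))) -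
        ∑' p : Nat.Primes, ((Tw.yg W₁ p * Real.log p : ℝ) : ℂ) * (p : ℂ) ^ (-(s - 1 / 2)) := by
      rw [← hs2.tsum_sub hs1]
      refine tsum_congr fun p => ?_
      push_cast
      ring
    rw [e2]
    have e3 : deriv Q s / Q s = deriv F₂ s / F₂ s - deriv F₁ s / F₁ s := by
      rw [e1]
      ring
    rw [e3, h1, h2]
    ring
  · intro s hs hs'
    have h1 := (hlow K₁ W₁ hn₁ s hs hs').2
    have h2 := (hlow K₂ W₂ hn₂ s hs hs').1
    rw [← hL₁ s hs] at h1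
    rw [← hL₂ s hs, hfac, norm_mul] at h2
    have h5 : 0 ≤ s.re - 3 / 2 := by linarith
    set x : ℝ := (s.re - 3 / 2) ^ (2 * n) with hx
    have hx0 : 0 ≤ x := by positivity
    have e1 : (s.re - 3 / 2) ^ (2 * (2 * n)) = x * x := by
      rw [hx, ← pow_add]
      congr 1
      omega
    have e2 : Real.exp (-(2 * C₄)) = Real.exp (-C₄) * Real.exp (-C₄) := by
      rw [← Real.exp_add]
      congr 1
      ring
    have e3 : Real.exp (-C₄) * Real.exp C₄ = 1 := by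
      rw [← Real.exp_add, neg_add_cancel, Real.exp_zero]
    rw [e1, e2]
    calc Real.exp (-C₄) * Real.exp (-C₄) * (x * x)
        = (Real.exp (-C₄) * x) * (Real.exp (-C₄) * x) := by ring
      _ ≤ (‖F₁ s‖ * ‖Q s‖) * (Real.exp (-C₄) * x) :=
          mul_le_mul_of_nonneg_right h2 (by positivity)
      _ = (x * ‖F₁ s‖) * (Real.exp (-C₄) * ‖Q s‖) := by ring
      _ ≤ Real.exp C₄ * (Real.exp (-C₄) * ‖Q s‖) :=
          mul_le_mul_of_nonneg_right h1 (by positivity)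
      _ = (Real.exp (-C₄) * Real.exp C₄) * ‖Q s‖ := by ring
      _ = ‖Q s‖ := by rw [e3, one_mul]
  · intro s hs
    refine Zfr.re_le_of_zero W₂ hL₂ ?_
    rw [hfac, hs, mul_zero]

end Pool.Agent.MPfb225e.Qt
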