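import Mathlib
import Pool.Agent.Lib.MP_fb225e_nt.Qt.Quot
import Pool.Agent.Lib.MP_fb225e_nt.Qt.Coeff

/-!
MP_fb225e_nt, project QT, module Rel: linear relations between the numbers of primes of degree one
give relations between the orders of vanishing for `Re s > 5/4`.
-/

namespace Pool.Agent.MPfb225e.Qt

open Filter Topology Complex NumberField

universe u

theorem tendsto_order {F : ℂ → ℂ} (hF : Differentiable ℂ F) {s₀ : ℂ}
    (h0 : analyticOrderAt F s₀ ≠ ⊤) :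
    Tendsto (fun s => (s - s₀) * (deriv F s / F s)) (𝓝[≠] s₀)
      (𝓝 (analyticOrderNatAt F s₀ : ℂ)) ∧ ∀ᶠ z in 𝓝[≠] s₀, F z ≠ 0 := by
  obtain ⟨g, hg, hg0, hfg⟩ := (hF.analyticAt s₀).analyticOrderAt_ne_top.1 h0
  set n := analyticOrderNatAt F s₀ with hn
  have hfg' : ∀ᶠ z in 𝓝 s₀, F =ᶠ[𝓝 z] fun z => (z - s₀) ^ n • g z := hfg.eventually_nhds
  have hga : ∀ᶠ z in 𝓝 s₀, AnalyticAt ℂ g z := hg.eventually_analyticAt
  have hgne : ∀ᶠ z in 𝓝 s₀, g z ≠ 0 := hg.continuousAt.eventually_ne hg0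
  have key : ∀ᶠ z in 𝓝[≠] s₀, (z - s₀) * (deriv F z / F z) = n + (z - s₀) * (deriv g z / g z) ∧
      F z ≠ 0 := by
    filter_upwards [nhdsWithin_le_nhds hfg', nhdsWithin_le_nhds hga, nhdsWithin_le_nhds hgne,
      self_mem_nhdsWithin] with z hz1 hz2 hz3 hz4
    have hz : z - s₀ ≠ 0 := sub_ne_zero.2 hz4
    have e1 : F z = (z - s₀) ^ n * g z := hz1.self_of_nhds
    have hd1 : DifferentiableAt ℂ (fun z : ℂ => (z - s₀) ^ n) z := by fun_prop
    have e2 : deriv F z = deriv (fun z : ℂ => (z - s₀) ^ n * g z) z := hz1.deriv_eq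
    have e3 : logDeriv (fun z : ℂ => (z - s₀) ^ n * g z) z =
        logDeriv (fun z : ℂ => (z - s₀) ^ n) z + logDeriv g z :=
      logDeriv_mul z (pow_ne_zero n hz) hz3 hd1 hz2.differentiableAt
    have e4 : logDeriv (fun z : ℂ => (z - s₀) ^ n) z = n * (1 / (z - s₀)) := by
      have h := logDeriv_fun_pow (f := fun z : ℂ => z - s₀) (x := z) (by fun_prop) n
      rw [h, logDeriv_apply, deriv_sub_const, deriv_id'']
    have e5 : deriv F z / F z = n * (1 / (z - s₀)) + deriv g z / g z := by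
      rw [e2, e1, ← logDeriv_apply g, ← e4, ← e3, logDeriv_apply]
    refine ⟨?_, ?_⟩
    · rw [e5]
      field_simp
    · rw [e1]
      exact mul_ne_zero (pow_ne_zero n hz) hz3
  refine ⟨?_, key.mono fun z hz => hz.2⟩
  have hlim : Tendsto (fun z => (n : ℂ) + (z - s₀) * (deriv g z / g z)) (𝓝[≠] s₀)
      (𝓝 (n + (s₀ - s₀) * (deriv g s₀ / g s₀))) := by
    refine tendsto_nhdsWithin_of_tendsto_nhds ?_
    have h1 : ContinuousAt (fun z => deriv g z / g z) s₀ :=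
      hg.deriv.continuousAt.div hg.continuousAt hg0
    exact (continuousAt_const.add ((continuousAt_id.sub continuousAt_const).mul h1)).tendsto
  rw [sub_self, zero_mul, add_zero] at hlim
  refine hlim.congr' ?_
  exact key.mono fun z hz => hz.1.symm

theorem order_ne_top {F : ℂ → ℂ} (hF : Differentiable ℂ F) (h2 : F 2 ≠ 0) (s : ℂ) :
    analyticOrderAt F s ≠ ⊤ := by
  have han : AnalyticOnNhd ℂ F Set.univ := fun z _ => hF.analyticAt z
  refine han.analyticOrderAt_ne_top_of_isPreconnected isPreconnected_univ (Set.mem_univ 2)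
    (Set.mem_univ s) ?_
  rw [(hF.analyticAt 2).analyticOrderAt_eq_zero.2 h2]
  exact ENat.zero_ne_top

/-- QT relations. -/
theorem rel {ι : Type*} [Fintype ι] (W : WeierstrassCurve ℤ) (hW : W.Δ ≠ 0) (K : ι → Type u)
    [∀ i, Field (K i)] [∀ i, NumberField (K i)] (F : ι → ℂ → ℂ) (hF : ∀ i, Differentiable ℂ (F i))
    (hFL : ∀ i, ∀ s : ℂ, 3 / 2 < s.re →
      F i s = ((W.baseChange ℚ).baseChange (K i)).LSeries s) (c : ι → ℝ) (N : ℕ)
    (hc : ∀ p : ℕ, p.Prime → N < p → ∑ i, c i * Fam.homCount (K i) p = 0) {s₀ : ℂ}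
    (hs₀ : 5 / 4 < s₀.re) : ∑ i, c i * (analyticOrderNatAt (F i) s₀ : ℝ) = 0 := by
  classical
  obtain ⟨V, hV⟩ : ∃ V : (i : ι) → WeierstrassCurve (K i),
      ∀ i, V i = (W.baseChange ℚ).baseChange (K i) := ⟨_, fun _ => rfl⟩
  have hex : ∀ i, ∃ E : ℂ → ℂ, (∀ s : ℂ, 5 / 4 < s.re → DifferentiableAt ℂ E s) ∧
      ∀ s : ℂ, 3 / 2 < s.re → deriv (F i) s / F i s = E s -
        ∑' p : Nat.Primes, ((Tw.yg (V i) p * Real.log p : ℝ) : ℂ) * (p : ℂ) ^ (-(s - 1 / 2)) := by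
    intro i
    obtain ⟨C, -, h⟩ := Tw.prime_expansion.{u} (Module.finrank ℚ (K i))
    obtain ⟨E, h1, -, h3⟩ := h (K i) (V i) rfl
    exact ⟨E, h1, h3 (F i) (by rw [hV i]; exact hFL i)⟩
  choose E hE1 hE3 using hex
  obtain ⟨N₁, hN₁⟩ : ∃ N₁ : ℕ, N₁ = max (max N 3) W.Δ.natAbs := ⟨_, rfl⟩
  have hy : ∀ p : ℕ, p.Prime → N₁ < p → ∑ i, c i * Tw.yg (V i) p = 0 := by
    intro p hp hpN
    have h1 : N < p := by omega
    have h3 : 3 < p := by omega
    have hΔ : ((W.Δ : ℤ) : ZMod p) ≠ 0 := by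
      intro h
      rw [ZMod.intCast_zmod_eq_zero_iff_dvd] at h
      have h4 := Int.natAbs_le_of_dvd_ne_zero h hW
      rw [Int.natAbs_natCast] at h4
      omega
    have h4 : ∀ i, c i * Tw.yg (V i) p = c i * Fam.homCount (K i) p * Fam.yy W p := by
      intro i
      rw [hV i, yg_baseChange W (K i) hp h3 hΔ]
      ring
    rw [Finset.sum_congr rfl fun i _ => h4 i, ← Finset.sum_mul, hc p hp h1, zero_mul]
  have hfin : {p : Nat.Primes | (p : ℕ) ≤ N₁}.Finite :=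
    Set.Finite.preimage (Nat.Primes.coe_nat_injective.injOn) (Set.finite_Iic N₁)
  obtain ⟨G, hG⟩ : ∃ G : ℂ → ℂ, ∀ s, G s = ∑ i, (c i : ℂ) * E i s -
      ∑ p ∈ hfin.toFinset, ((∑ i, c i * Tw.yg (V i) p : ℝ) : ℂ) * (Real.log p : ℂ) *
        (p : ℂ) ^ (-(s - 1 / 2)) := ⟨_, fun _ => rfl⟩
  have hGd : ∀ s : ℂ, 5 / 4 < s.re → DifferentiableAt ℂ G s := by
    intro s hs
    have e : G = fun s => ∑ i, (c i : ℂ) * E i s -
      ∑ p ∈ hfin.toFinset, ((∑ i, c i * Tw.yg (V i) p : ℝ) : ℂ) * (Real.log p : ℂ) *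
        (p : ℂ) ^ (-(s - 1 / 2)) := funext hG
    rw [e]
    refine DifferentiableAt.sub ?_ ?_
    · exact DifferentiableAt.fun_sum fun i _ => (hE1 i s hs).const_mul _
    · refine DifferentiableAt.fun_sum fun p _ => DifferentiableAt.const_mul ?_ _
      refine DifferentiableAt.const_cpow (by fun_prop) (Or.inl ?_)
      exact_mod_cast p.2.ne_zero
  -- the identity to the right
  have hid : ∀ s : ℂ, 3 / 2 < s.re → ∑ i, (c i : ℂ) * (deriv (F i) s / F i s) = G s := by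
    intro s hs
    have hsum : ∀ i, Summable fun p : Nat.Primes => (c i : ℂ) *
        (((Tw.yg (V i) p * Real.log p : ℝ) : ℂ) * (p : ℂ) ^ (-(s - 1 / 2))) := fun i =>
      (Tw.summable_term (fun p => Tw.abs_yg_le (V i) p) hs).mul_left _
    have h1 : ∑ i, (c i : ℂ) * (∑' p : Nat.Primes, ((Tw.yg (V i) p * Real.log p : ℝ) : ℂ) *
        (p : ℂ) ^ (-(s - 1 / 2))) =
        ∑' p : Nat.Primes, ((∑ i, c i * Tw.yg (V i) p : ℝ) : ℂ) * (Real.log p : ℂ) *
        (p : ℂ) ^ (-(s - 1 / 2)) := by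
      have h2 : ∀ i, (c i : ℂ) * (∑' p : Nat.Primes, ((Tw.yg (V i) p * Real.log p : ℝ) : ℂ) *
          (p : ℂ) ^ (-(s - 1 / 2))) = ∑' p : Nat.Primes, (c i : ℂ) *
          (((Tw.yg (V i) p * Real.log p : ℝ) : ℂ) * (p : ℂ) ^ (-(s - 1 / 2))) := fun i =>
        tsum_mul_left.symm
      rw [Finset.sum_congr rfl fun i _ => h2 i, ← Summable.tsum_finsetSum fun i _ => hsum i]
      refine tsum_congr fun p => ?_
      push_cast
      rw [Finset.sum_mul, Finset.sum_mul]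
      refine Finset.sum_congr rfl fun i _ => ?_
      ring
    have h2 : ∑' p : Nat.Primes, ((∑ i, c i * Tw.yg (V i) p : ℝ) : ℂ) * (Real.log p : ℂ) *
        (p : ℂ) ^ (-(s - 1 / 2)) = ∑ p ∈ hfin.toFinset,
        ((∑ i, c i * Tw.yg (V i) p : ℝ) : ℂ) * (Real.log p : ℂ) *
        (p : ℂ) ^ (-(s - 1 / 2)) := by
      refine tsum_eq_sum fun p hp => ?_
      rw [Set.Finite.mem_toFinset, Set.mem_setOf_eq, not_le] at hp
      rw [hy p p.2 hp, Complex.ofReal_zero, zero_mul, zero_mul]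
    rw [hG, ← h2, ← h1, ← Finset.sum_sub_distrib]
    refine Finset.sum_congr rfl fun i _ => ?_
    rw [hE3 i s hs]
    ring
  have hF2 : ∀ i, F i 2 ≠ 0 := by
    intro i
    rw [hFL i 2 (by norm_num)]
    exact Zfr.LSeries_ne _ (by norm_num)
  have hFne : ∀ i, ∀ s : ℂ, 3 / 2 < s.re → F i s ≠ 0 := by
    intro i s hs
    rw [hFL i s hs]
    exact Zfr.LSeries_ne _ hs
  obtain ⟨H, hH⟩ : ∃ H : ℂ → ℂ, ∀ s, H s = ∑ i, (c i : ℂ) * (deriv (F i) s *
      ∏ j ∈ Finset.univ.erase i, F j s) - G s * ∏ j, F j s := ⟨_, fun _ => rfl⟩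
  have hprod : ∀ s : ℂ, (∀ i, F i s ≠ 0) → H s =
      (∑ i, (c i : ℂ) * (deriv (F i) s / F i s) - G s) * ∏ j, F j s := by
    intro s hs
    rw [hH, sub_mul, Finset.sum_mul]
    congr 1
    refine Finset.sum_congr rfl fun i _ => ?_
    rw [← Finset.mul_prod_erase Finset.univ (fun j => F j s) (Finset.mem_univ i)]
    have := hs i
    field_simp
  have hU : IsOpen {s : ℂ | 5 / 4 < s.re} := isOpen_lt continuous_const Complex.continuous_re
  have hUc : IsPreconnected {s : ℂ | 5 / 4 < s.re} :=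
    (convex_halfSpace_re_gt (5 / 4)).isPreconnected
  have hHd : DifferentiableOn ℂ H {s : ℂ | 5 / 4 < s.re} := by
    intro s hs
    have e : H = fun s => ∑ i, (c i : ℂ) * (deriv (F i) s *
      ∏ j ∈ Finset.univ.erase i, F j s) - G s * ∏ j, F j s := funext hH
    rw [e]
    refine DifferentiableAt.differentiableWithinAt ?_
    refine DifferentiableAt.sub (DifferentiableAt.fun_sum fun i _ => ?_)
      ((hGd s hs).mul (DifferentiableAt.fun_finsetProd fun j _ => hF j s))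
    refine DifferentiableAt.const_mul (DifferentiableAt.mul ?_
      (DifferentiableAt.fun_finsetProd fun j _ => hF j s)) _
    exact ((hF i).analyticAt s).deriv.differentiableAt
  have hHan : AnalyticOnNhd ℂ H {s : ℂ | 5 / 4 < s.re} := hHd.analyticOnNhd hU
  have hH0 : Set.EqOn H 0 {s : ℂ | 5 / 4 < s.re} := by
    refine hHan.eqOn_zero_of_preconnected_of_eventuallyEq_zero hUc (z₀ := 2) (by norm_num) ?_
    have h3 : {s : ℂ | 3 / 2 < s.re} ∈ 𝓝 (2 : ℂ) :=
      (isOpen_lt continuous_const Complex.continuous_re).mem_nhds (by norm_num)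
    filter_upwards [h3] with s hs
    rw [hprod s fun i => hFne i s hs, hid s hs, sub_self, zero_mul]
    rfl
  -- the limit
  have hlim1 : Tendsto (fun s => ∑ i, (c i : ℂ) * ((s - s₀) * (deriv (F i) s / F i s))) (𝓝[≠] s₀)
      (𝓝 (∑ i, (c i : ℂ) * (analyticOrderNatAt (F i) s₀ : ℂ))) :=
    tendsto_finset_sum _ fun i _ =>
      (tendsto_order (hF i) (order_ne_top (hF i) (hF2 i) s₀)).1.const_mul _
  have hlim2 : Tendsto (fun s => (s - s₀) * G s) (𝓝[≠] s₀) (𝓝 ((s₀ - s₀) * G s₀)) := by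
    refine tendsto_nhdsWithin_of_tendsto_nhds ?_
    exact ((continuousAt_id.sub continuousAt_const).mul (hGd s₀ hs₀).continuousAt).tendsto
  rw [sub_self, zero_mul] at hlim2
  have heq : (fun s => (s - s₀) * G s) =ᶠ[𝓝[≠] s₀]
      fun s => ∑ i, (c i : ℂ) * ((s - s₀) * (deriv (F i) s / F i s)) := by
    have h1 : ∀ᶠ z in 𝓝[≠] s₀, ∀ i, F i z ≠ 0 := by
      rw [Filter.eventually_all]
      exact fun i => (tendsto_order (hF i) (order_ne_top (hF i) (hF2 i) s₀)).2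
    have h2 : ∀ᶠ z in 𝓝[≠] s₀, z ∈ {s : ℂ | 5 / 4 < s.re} :=
      nhdsWithin_le_nhds (hU.mem_nhds hs₀)
    filter_upwards [h1, h2] with z hz1 hz2
    have h3 := hprod z hz1
    rw [hH0 hz2] at h3
    have h4 : ∏ j, F j z ≠ 0 := Finset.prod_ne_zero_iff.2 fun j _ => hz1 j
    have h5 : ∑ i, (c i : ℂ) * (deriv (F i) z / F i z) - G z = 0 :=
      (mul_eq_zero.1 h3.symm).resolve_right h4
    rw [← sub_eq_zero.1 h5, Finset.mul_sum]
    refine Finset.sum_congr rfl fun i _ => ?_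
    ring
  have h := tendsto_nhds_unique (hlim2.congr' heq) hlim1
  have h' : ((∑ i, c i * (analyticOrderNatAt (F i) s₀ : ℝ) : ℝ) : ℂ) = 0 := by
    rw [h]
    push_cast
    rfl
  exact_mod_cast h'

end Pool.Agent.MPfb225e.Qt
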