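import Mathlib
import Pool.Agent.Lib.MP_fb225e_nt.Qt.Rel
import Pool.Agent.Lib.MP_fb225e_nt.Szf.Frob
import Pool.Agent.Lib.MP_fb225e_nt.Fam.Descent

/-!
MP_fb225e_nt, project QT, module Class: the orders of vanishing of the L-functions of the subfields
of a Galois extension are the averages of a class function.
-/

namespace Pool.Agent.MPfb225e.Qt

open NumberField Grp

universe u

/-- The base change of a curve over `ℤ`. -/
noncomputable abbrev bc (W : WeierstrassCurve ℤ) (K : Type u) [Field K] [NumberField K] :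
    WeierstrassCurve K := (W.baseChange ℚ).baseChange K

section descent

variable {L : Type u} [Field L] [NumberField L] [IsGalois ℚ L]

/-- restriction to a subfield -/
def resHom (K : IntermediateField ℚ L) (τ : L ≃ₐ[ℚ] L) : K →ₐ[ℚ] L := (τ : L →ₐ[ℚ] L).comp K.val

theorem exists_lift (K : IntermediateField ℚ L) (φ : K →ₐ[ℚ] L) :
    ∃ τ : L ≃ₐ[ℚ] L, resHom K τ = φ := by
  let ψ : L →ₐ[ℚ] L := φ.liftNormal L
  refine ⟨AlgEquiv.ofBijective ψ (AlgHom.normal_bijective ℚ L L ψ), ?_⟩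
  ext x
  exact φ.liftNormal_commutes L x

omit [IsGalois ℚ L] in
theorem res_eq_iff (H : Subgroup (L ≃ₐ[ℚ] L)) (τ τ' : L ≃ₐ[ℚ] L) :
    resHom (IntermediateField.fixedField H) τ = resHom (IntermediateField.fixedField H) τ' ↔
      τ⁻¹ * τ' ∈ H := by
  have h0 : τ⁻¹ * τ' ∈ H ↔ τ⁻¹ * τ' ∈ (IntermediateField.fixedField H).fixingSubgroup := by
    rw [IntermediateField.fixingSubgroup_fixedField]
  rw [h0, IntermediateField.mem_fixingSubgroup_iff]
  constructor
  · intro h x hx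
    have h1 : τ x = τ' x := congrArg (fun f => f ⟨x, hx⟩) h
    change τ.symm (τ' x) = x
    rw [← h1, τ.symm_apply_apply]
  · intro h
    ext x
    have h1 : τ.symm (τ' (x : L)) = x := h x x.2
    change τ (x : L) = τ' (x : L)
    rw [← h1, τ.apply_symm_apply, h1]

open Classical in
theorem card_mul_fix (H : Subgroup (L ≃ₐ[ℚ] L)) (σ : L ≃ₐ[ℚ] L) :
    (Nat.card H : ℝ) * Fam.fix (IntermediateField.fixedField H) σ =
      ∑ τ : L ≃ₐ[ℚ] L, if τ⁻¹ * σ * τ ∈ H then 1 else 0 := by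
  set K := IntermediateField.fixedField H with hK
  choose lift hlift using exists_lift K
  have hres : ∀ τ : L ≃ₐ[ℚ] L, (σ : L →ₐ[ℚ] L).comp (resHom K τ) = resHom K (σ * τ) :=
    fun τ => rfl
  have h1 : ∀ τ : L ≃ₐ[ℚ] L, (σ : L →ₐ[ℚ] L).comp (resHom K τ) = resHom K τ ↔
      τ⁻¹ * σ * τ ∈ H := by
    intro τ
    rw [hres, eq_comm, hK, res_eq_iff, mul_assoc]
  have hmem : ∀ φ : K →ₐ[ℚ] L, ∀ h ∈ H, resHom K (lift φ * h) = φ := by
    intro φ h hh
    nth_rewrite 2 [← hlift φ]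
    symm
    rw [hK, res_eq_iff, inv_mul_cancel_left]
    exact hh
  let e : {τ : L ≃ₐ[ℚ] L // τ⁻¹ * σ * τ ∈ H} ≃
      {φ : K →ₐ[ℚ] L // (σ : L →ₐ[ℚ] L).comp φ = φ} × H :=
    { toFun := fun τ => (⟨resHom K τ, (h1 τ).2 τ.2⟩, ⟨(lift (resHom K τ))⁻¹ * τ,
        (res_eq_iff H _ _).1 (hlift (resHom K τ))⟩)
      invFun := fun x => ⟨lift x.1 * x.2, by
        rw [← h1, hmem _ _ x.2.2]
        exact x.1.2⟩
      left_inv := fun τ => Subtype.ext (by
        change lift (resHom K τ) * ((lift (resHom K τ))⁻¹ * τ) = τ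
        rw [mul_inv_cancel_left])
      right_inv := fun x => by
        have h2 := hmem x.1 x.2 x.2.2
        refine Prod.ext (Subtype.ext h2) (Subtype.ext ?_)
        change (lift (resHom K (lift x.1 * x.2)))⁻¹ * (lift x.1 * x.2) = x.2
        rw [h2, inv_mul_cancel_left] }
  have h2 := Nat.card_congr e
  rw [Nat.card_prod] at h2
  have h3 : (∑ τ : L ≃ₐ[ℚ] L, if τ⁻¹ * σ * τ ∈ H then (1 : ℝ) else 0) =
      Nat.card {τ : L ≃ₐ[ℚ] L // τ⁻¹ * σ * τ ∈ H} := by
    rw [Finset.sum_boole, Nat.card_eq_fintype_card, Fintype.card_subtype]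
  rw [h3, h2]
  unfold Fam.fix
  push_cast
  ring

/-- The orders of vanishing at a point with `Re s > 5/4` are averages of a class function. -/
theorem exists_class (W : WeierstrassCurve ℤ) (hW : W.Δ ≠ 0)
    (F : Subgroup (L ≃ₐ[ℚ] L) → ℂ → ℂ) (hF : ∀ H, Differentiable ℂ (F H))
    (hFL : ∀ H : Subgroup (L ≃ₐ[ℚ] L), ∀ s : ℂ, 3 / 2 < s.re → F H s =
      (bc W (IntermediateField.fixedField H)).LSeries s) {s₀ : ℂ} (hs₀ : 5 / 4 < s₀.re) :
    ∃ a : (L ≃ₐ[ℚ] L) → ℝ, (∀ x y, a (x⁻¹ * y * x) = a y) ∧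
    ∀ H : Subgroup (L ≃ₐ[ℚ] L), sm a H = Nat.card H * (analyticOrderNatAt (F H) s₀ : ℝ) := by
  classical
  have hfin : Fintype (Subgroup (L ≃ₐ[ℚ] L)) := Fintype.ofFinite _
  obtain ⟨w, hw⟩ := Fam.exists_weight
    (fun (H : Subgroup (L ≃ₐ[ℚ] L)) (σ : L ≃ₐ[ℚ] L) =>
      (Fam.fix (IntermediateField.fixedField H) σ : ℝ))
    (fun H => (analyticOrderNatAt (F H) s₀ : ℝ)) (by
      intro c hc
      refine rel W hW (fun H : Subgroup (L ≃ₐ[ℚ] L) => IntermediateField.fixedField H) F hF hFL c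
        (∑ H : Subgroup (L ≃ₐ[ℚ] L),
          (NumberField.discr (IntermediateField.fixedField H)).natAbs) ?_ hs₀
      intro p hp hpN
      obtain ⟨σ, hσ⟩ := Szf.exists_frob L hp
      rw [← hc σ]
      refine Finset.sum_congr rfl fun H _ => ?_
      have h1 : ¬ p ∣ (NumberField.discr (IntermediateField.fixedField H)).natAbs := by
        intro h
        have h2 : 0 < (NumberField.discr (IntermediateField.fixedField H)).natAbs :=
          Int.natAbs_pos.2 (NumberField.discr_ne_zero _)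
        have h3 := Nat.le_of_dvd h2 h
        have h4 : (NumberField.discr (IntermediateField.fixedField H)).natAbs ≤
            ∑ H : Subgroup (L ≃ₐ[ℚ] L),
              (NumberField.discr (IntermediateField.fixedField H)).natAbs :=
          Finset.single_le_sum (f := fun H : Subgroup (L ≃ₐ[ℚ] L) =>
            (NumberField.discr (IntermediateField.fixedField H)).natAbs)
            (fun _ _ => Nat.zero_le _) (Finset.mem_univ H)
        omega
      rw [hσ _ h1])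
  refine ⟨fun g => ∑ τ : L ≃ₐ[ℚ] L, w (τ * g * τ⁻¹), fun x y => ?_, fun H => ?_⟩
  · change (∑ τ : L ≃ₐ[ℚ] L, w (τ * (x⁻¹ * y * x) * τ⁻¹)) = ∑ τ : L ≃ₐ[ℚ] L, w (τ * y * τ⁻¹)
    rw [← Equiv.sum_comp (Equiv.mulRight x) (fun τ => w (τ * (x⁻¹ * y * x) * τ⁻¹))]
    refine Finset.sum_congr rfl fun τ _ => ?_
    congr 1
    change τ * x * (x⁻¹ * y * x) * (τ * x)⁻¹ = _
    group
  · rw [hw H, Finset.mul_sum]
    unfold sm
    have h1 : ∀ g : L ≃ₐ[ℚ] L, (if g ∈ H then ∑ τ : L ≃ₐ[ℚ] L, w (τ * g * τ⁻¹) else 0) =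
        ∑ τ : L ≃ₐ[ℚ] L, if g ∈ H then w (τ * g * τ⁻¹) else 0 := by
      intro g
      split_ifs
      · rfl
      · rw [Finset.sum_const_zero]
    rw [Finset.sum_congr rfl fun g _ => h1 g, Finset.sum_comm]
    have h2 : ∀ τ : L ≃ₐ[ℚ] L, (∑ g : L ≃ₐ[ℚ] L, if g ∈ H then w (τ * g * τ⁻¹) else 0) =
        ∑ σ : L ≃ₐ[ℚ] L, if τ⁻¹ * σ * τ ∈ H then w σ else 0 := by
      intro τ
      rw [← Equiv.sum_comp (MulAut.conj τ).toEquiv (fun σ => if τ⁻¹ * σ * τ ∈ H then w σ else 0)]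
      refine Finset.sum_congr rfl fun g _ => ?_
      change _ = if τ⁻¹ * (τ * g * τ⁻¹) * τ ∈ H then w (τ * g * τ⁻¹) else 0
      have h3 : τ⁻¹ * (τ * g * τ⁻¹) * τ = g := by group
      rw [h3]
    rw [Finset.sum_congr rfl fun τ _ => h2 τ, Finset.sum_comm]
    refine Finset.sum_congr rfl fun σ _ => ?_
    have h3 : (Nat.card H : ℝ) * (w σ * Fam.fix (IntermediateField.fixedField H) σ) =
        w σ * ((Nat.card H : ℝ) * Fam.fix (IntermediateField.fixedField H) σ) := by ring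
    rw [h3, card_mul_fix, Finset.mul_sum]
    refine Finset.sum_congr rfl fun τ _ => ?_
    split_ifs
    · rw [mul_one]
    · rw [mul_zero]

end descent

end Pool.Agent.MPfb225e.Qt
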