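import Mathlib
import Pool.Agent.Lib.MP_fb225e_nt.Qt.Class

/-!
MP_fb225e_nt, project QT, module Class2: the orders of vanishing of the L-functions of the
intermediate fields of a Galois extension `L/k` of number fields are the averages of a class
function.
-/

namespace Pool.Agent.MPfb225e.Qt

open NumberField Grp

universe u

section emb

variable {k L Ω : Type u} [Field k] [NumberField k] [Field L] [NumberField L] [Algebra k L]
  [Field Ω] [NumberField Ω]

/-- The number of embeddings `τ` of `L` with `σ τ = τ g`. -/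
noncomputable def emb (σ : Ω ≃ₐ[ℚ] Ω) (g : L ≃ₐ[k] L) : ℕ :=
  Nat.card {τ : L →ₐ[ℚ] Ω // ∀ x, σ (τ x) = τ (g x)}

/-- An automorphism as a `ℚ`-homomorphism. -/
noncomputable def toRat (g : L ≃ₐ[k] L) : L →ₐ[ℚ] L := (g : L →+* L).toRatAlgHom

theorem toRat_apply (g : L ≃ₐ[k] L) (x : L) : toRat g x = g x := rfl

theorem emb_conj (σ : Ω ≃ₐ[ℚ] Ω) (x g : L ≃ₐ[k] L) : emb σ (x⁻¹ * g * x) = emb σ g := by
  unfold emb
  symm
  refine Nat.card_congr
    ⟨fun τ => ⟨τ.1.comp (toRat x), fun y => ?_⟩, fun τ => ⟨τ.1.comp (toRat x⁻¹), fun y => ?_⟩,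
      fun τ => ?_, fun τ => ?_⟩
  · change σ (τ.1 (x y)) = τ.1 (x (x⁻¹ (g (x y))))
    rw [τ.2]
    congr 1
    exact (AlgEquiv.apply_symm_apply x _).symm
  · change σ (τ.1 (x⁻¹ y)) = τ.1 (x⁻¹ (g y))
    rw [τ.2]
    change τ.1 (x⁻¹ (g (x (x⁻¹ y)))) = _
    congr 3
    exact AlgEquiv.apply_symm_apply x _
  · refine Subtype.ext (AlgHom.ext fun y => ?_)
    change τ.1 (x (x⁻¹ y)) = τ.1 y
    congr 1
    exact AlgEquiv.apply_symm_apply x _
  · refine Subtype.ext (AlgHom.ext fun y => ?_)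
    change τ.1 (x⁻¹ (x y)) = τ.1 y
    congr 1
    exact AlgEquiv.symm_apply_apply x _

/-- Two embeddings of a normal extension which agree on the base field. -/
theorem exists_aut0 {F L Ω : Type*} [Field F] [Field L] [Field Ω] [Algebra F L] [Normal F L]
    (τ τ' : L →+* Ω) (h : ∀ x : F, τ (algebraMap F L x) = τ' (algebraMap F L x)) :
    ∃ g : L ≃ₐ[F] L, ∀ x, τ' x = τ (g x) := by
  let a1 : Algebra L Ω := τ.toAlgebra
  let a2 : Algebra F Ω := (τ.comp (algebraMap F L)).toAlgebra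
  have hst : IsScalarTower F L Ω := IsScalarTower.of_algebraMap_eq fun x => rfl
  let f : L →ₐ[F] Ω :=
    { toRingHom := τ'
      commutes' := fun x => (h x).symm }
  refine ⟨Normal.algHomEquivAut F Ω L f, fun x => ?_⟩
  have h1 : (Normal.algHomEquivAut F Ω L).symm (Normal.algHomEquivAut F Ω L f) = f :=
    Equiv.symm_apply_apply _ _
  exact (congrArg (fun F : L →ₐ[F] Ω => F x) h1).symm

variable [IsGalois k L]

/-- Two embeddings which agree on the fixed field of `H` differ by an element of `H`. -/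
theorem exists_aut (H : Subgroup (L ≃ₐ[k] L)) (τ τ' : L →ₐ[ℚ] Ω)
    (h : ∀ x : IntermediateField.fixedField H, τ x = τ' x) :
    ∃ g ∈ H, ∀ x, τ' x = τ (g x) := by
  obtain ⟨g, hg⟩ := exists_aut0 (F := IntermediateField.fixedField H) (τ : L →+* Ω)
    (τ' : L →+* Ω) h
  have hmem : (g.restrictScalars k) ∈ (IntermediateField.fixedField H).fixingSubgroup := by
    rw [IntermediateField.mem_fixingSubgroup_iff]
    intro x hx
    exact g.commutes ⟨x, hx⟩
  exact ⟨g.restrictScalars k,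
    (SetLike.ext_iff.1 (IntermediateField.fixingSubgroup_fixedField H) _).1 hmem, hg⟩

/-- Extension of embeddings. -/
theorem exists_ext [IsGalois ℚ Ω] (j : L →ₐ[ℚ] Ω) (K : IntermediateField k L) (φ : K →+* Ω) :
    ∃ τ : L →ₐ[ℚ] Ω, ∀ x : K, τ x = φ x := by
  letI a2 : Algebra K Ω := ((j : L →+* Ω).comp (algebraMap K L)).toAlgebra
  have hst : IsScalarTower ℚ K Ω := inferInstance
  let ψ : Ω →ₐ[ℚ] Ω := (φ.toRatAlgHom).liftNormal Ω
  refine ⟨ψ.comp j, fun x => ?_⟩
  exact (φ.toRatAlgHom).liftNormal_commutes Ω x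

open Classical in
theorem card_emb (σ : Ω ≃ₐ[ℚ] Ω) (g : L ≃ₐ[k] L) :
    (emb σ g : ℝ) = ∑ τ : L →ₐ[ℚ] Ω, if ∀ x, σ (τ x) = τ (g x) then 1 else 0 := by
  unfold emb
  rw [Finset.sum_boole, Nat.card_eq_fintype_card, Fintype.card_subtype]

open Classical in
/-- The embeddings of the fixed field of `H` which are fixed by `σ`. -/
theorem card_mul_fix2 [IsGalois ℚ Ω] (j : L →ₐ[ℚ] Ω) (H : Subgroup (L ≃ₐ[k] L)) {K' : Type u}
    [Field K'] [NumberField K'] (e : IntermediateField.fixedField H ≃+* K') (σ : Ω ≃ₐ[ℚ] Ω) :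
    (Nat.card H : ℝ) * Fam.fix K' σ = sm (fun g => (emb σ g : ℝ)) H := by
  -- restriction and extension
  obtain ⟨res, hres⟩ : ∃ res : (L →ₐ[ℚ] Ω) → (K' →ₐ[ℚ] Ω), ∀ τ, ∀ x, res τ (e x) = τ x := by
    refine ⟨fun τ => ((τ : L →+* Ω).comp ((algebraMap (IntermediateField.fixedField H) L).comp
      (e.symm : K' →+* IntermediateField.fixedField H))).toRatAlgHom, fun τ x => ?_⟩
    change τ (algebraMap (IntermediateField.fixedField H) L (e.symm (e x))) = τ x
    rw [e.symm_apply_apply]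
    rfl
  have hext : ∀ φ : K' →ₐ[ℚ] Ω, ∃ τ : L →ₐ[ℚ] Ω, ∀ x : IntermediateField.fixedField H,
      τ x = φ (e x) := fun φ =>
    exists_ext j (IntermediateField.fixedField H) ((φ : K' →+* Ω).comp
      (e : IntermediateField.fixedField H →+* K'))
  choose lift hlift using hext
  have hrl : ∀ φ, res (lift φ) = φ := by
    intro φ
    refine AlgHom.ext fun y => ?_
    obtain ⟨x, rfl⟩ := e.surjective y
    rw [hres, hlift]
  have haut : ∀ τ : L →ₐ[ℚ] Ω, ∃ g ∈ H, ∀ x, τ x = lift (res τ) (g x) := by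
    intro τ
    refine exists_aut H (lift (res τ)) τ fun x => ?_
    rw [hlift, hres]
  choose au hauH hau using haut
  have hfixH : ∀ g ∈ H, ∀ x : IntermediateField.fixedField H, g x = (x : L) := by
    intro g hg x
    exact x.2 ⟨g, hg⟩
  have hresH : ∀ (τ : L →ₐ[ℚ] Ω), ∀ g ∈ H, res (τ.comp (toRat g)) = res τ := by
    intro τ g hg
    refine AlgHom.ext fun y => ?_
    obtain ⟨x, rfl⟩ := e.surjective y
    rw [hres, hres]
    change τ (g x) = τ x
    rw [hfixH g hg]
  let eq : {τ : L →ₐ[ℚ] Ω // ∀ x : IntermediateField.fixedField H, σ (τ x) = τ x} ≃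
      {φ : K' →ₐ[ℚ] Ω // (σ : Ω →ₐ[ℚ] Ω).comp φ = φ} × H :=
    { toFun := fun τ => (⟨res τ.1, by
        refine AlgHom.ext fun y => ?_
        obtain ⟨x, rfl⟩ := e.surjective y
        change σ (res τ.1 (e x)) = res τ.1 (e x)
        rw [hres]
        exact τ.2 x⟩, ⟨au τ.1, hauH τ.1⟩)
      invFun := fun y => ⟨(lift y.1.1).comp (toRat y.2.1), fun x => by
        change σ (lift y.1.1 (y.2.1 x)) = lift y.1.1 (y.2.1 x)
        rw [hfixH _ y.2.2, hlift]
        exact congrArg (fun f : K' →ₐ[ℚ] Ω => f (e x)) y.1.2⟩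
      left_inv := fun τ => Subtype.ext (AlgHom.ext fun x => (hau τ.1 x).symm)
      right_inv := fun y => by
        have h1 : res ((lift y.1.1).comp (toRat y.2.1)) = y.1.1 := by
          rw [hresH _ _ y.2.2, hrl]
        refine Prod.ext (Subtype.ext h1) (Subtype.ext ?_)
        change au ((lift y.1.1).comp (toRat y.2.1)) = y.2.1
        refine AlgEquiv.ext fun x => ?_
        have h2 := hau ((lift y.1.1).comp (toRat y.2.1)) x
        rw [h1] at h2
        exact ((lift y.1.1).injective h2).symm }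
  have h1 := Nat.card_congr eq
  rw [Nat.card_prod] at h1
  have h2 : (Nat.card {τ : L →ₐ[ℚ] Ω // ∀ x : IntermediateField.fixedField H,
      σ (τ x) = τ x} : ℝ) =
      ∑ τ : L →ₐ[ℚ] Ω, if ∀ x : IntermediateField.fixedField H, σ (τ x) = τ x then 1 else 0 := by
    rw [Finset.sum_boole, Nat.card_eq_fintype_card, Fintype.card_subtype]
  have h3 : ∀ τ : L →ₐ[ℚ] Ω,
      (if ∀ x : IntermediateField.fixedField H, σ (τ x) = τ x then (1 : ℝ) else 0) =
      ∑ g : L ≃ₐ[k] L, if g ∈ H then (if ∀ x, σ (τ x) = τ (g x) then 1 else 0) else 0 := by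
    intro τ
    split_ifs with h
    · obtain ⟨g, hg, hgτ⟩ := exists_aut H τ ((σ : Ω →ₐ[ℚ] Ω).comp τ) fun x => (h x).symm
      rw [Finset.sum_eq_single g]
      · have hgτ' : ∀ x, σ (τ x) = τ (g x) := hgτ
        rw [if_pos hg, if_pos hgτ']
      · intro g' _ hne
        split_ifs with h4 h5
        · exfalso
          apply hne
          refine AlgEquiv.ext fun x => ?_
          have h6 : τ (g' x) = τ (g x) := by
            rw [← h5 x]
            exact hgτ x
          exact (τ : L →+* Ω).injective h6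
        · rfl
        · rfl
      · intro h4
        exact absurd (Finset.mem_univ _) h4
    · symm
      refine Finset.sum_eq_zero fun g _ => ?_
      split_ifs with h4 h5
      · exfalso
        apply h
        intro x
        rw [h5, hfixH g h4]
      · rfl
      · rfl
  have h4 : (Nat.card H : ℝ) * Fam.fix K' σ =
      (Nat.card {τ : L →ₐ[ℚ] Ω // ∀ x : IntermediateField.fixedField H, σ (τ x) = τ x} : ℝ) := by
    rw [h1]
    unfold Fam.fix
    push_cast
    ring
  rw [h4, h2, Finset.sum_congr rfl fun τ _ => h3 τ, Finset.sum_comm]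
  unfold sm
  refine Finset.sum_congr rfl fun g _ => ?_
  split_ifs with h5
  · exact (card_emb σ g).symm
  · rw [Finset.sum_const_zero]

end emb

/-- The Galois closure. -/
theorem exists_closure (L : Type u) [Field L] [NumberField L] :
    ∃ (Ω : Type u) (_ : Field Ω) (_ : NumberField Ω) (_ : IsGalois ℚ Ω),
      Nonempty (L →ₐ[ℚ] Ω) := by
  have hsplits : ∀ x : L, ((minpoly ℚ x).map (algebraMap ℚ (AlgebraicClosure L))).Splits :=
    fun x => IsAlgClosed.splits _
  have hN : IsNormalClosure ℚ L (IntermediateField.normalClosure ℚ L (AlgebraicClosure L)) :=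
    Algebra.IsAlgebraic.isNormalClosure_normalClosure hsplits
  have hnorm : Normal ℚ (IntermediateField.normalClosure ℚ L (AlgebraicClosure L)) := hN.normal
  have hfin : FiniteDimensional ℚ
      (IntermediateField.normalClosure ℚ L (AlgebraicClosure L)) := inferInstance
  have hnf : NumberField (IntermediateField.normalClosure ℚ L (AlgebraicClosure L)) :=
    NumberField.of_module_finite ℚ _
  have hgal : IsGalois ℚ (IntermediateField.normalClosure ℚ L (AlgebraicClosure L)) :=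
    { to_isSeparable := inferInstance, to_normal := hnorm }
  refine ⟨IntermediateField.normalClosure ℚ L (AlgebraicClosure L), inferInstance, hnf, hgal, ?_⟩
  exact ⟨(normalClosure.algHomEquiv ℚ L (AlgebraicClosure L)).symm
    (algebraMap L (AlgebraicClosure L)).toRatAlgHom⟩

section descent

variable {k L : Type u} [Field k] [NumberField k] [Field L] [NumberField L] [Algebra k L]
  [IsGalois k L]

/-- The image of a subfield. -/
theorem exists_image {Ω : Type u} [Field Ω] [NumberField Ω] (j : L →ₐ[ℚ] Ω)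
    (K : IntermediateField k L) : ∃ K' : IntermediateField ℚ Ω, Nonempty (K ≃+* K') := by
  let f : K →ₐ[ℚ] Ω := ((j : L →+* Ω).comp (algebraMap K L)).toRatAlgHom
  refine ⟨f.fieldRange, ⟨RingEquiv.ofBijective
    ((f : K →+* Ω).codRestrict f.fieldRange fun x => ⟨x, rfl⟩) ⟨RingHom.injective _, ?_⟩⟩⟩
  rintro ⟨y, x, hx⟩
  exact ⟨x, Subtype.ext hx⟩

open Classical in
/-- The orders of vanishing at a point with `Re s > 5/4` are averages of a class function. -/
theorem exists_class2 (W : WeierstrassCurve ℤ) (hW : W.Δ ≠ 0)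
    (F : Subgroup (L ≃ₐ[k] L) → ℂ → ℂ) (hF : ∀ H, Differentiable ℂ (F H))
    (hFL : ∀ H : Subgroup (L ≃ₐ[k] L), ∀ s : ℂ, 3 / 2 < s.re → F H s =
      (bc W (IntermediateField.fixedField H)).LSeries s) {s₀ : ℂ} (hs₀ : 5 / 4 < s₀.re) :
    ∃ a : (L ≃ₐ[k] L) → ℝ, (∀ x y, a (x⁻¹ * y * x) = a y) ∧
    ∀ H : Subgroup (L ≃ₐ[k] L), sm a H = Nat.card H * (analyticOrderNatAt (F H) s₀ : ℝ) := by
  have hfin : Fintype (Subgroup (L ≃ₐ[k] L)) := Fintype.ofFinite _
  obtain ⟨Ω, _, _, _, ⟨j⟩⟩ := exists_closure L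
  choose K' hK' using fun H : Subgroup (L ≃ₐ[k] L) =>
    exists_image j (IntermediateField.fixedField H)
  -- the numbers of conjugates
  obtain ⟨u, hu⟩ : ∃ u : Subgroup (L ≃ₐ[k] L) → (L ≃ₐ[k] L) → ℝ, ∀ H g, u H g =
      ∑ τ : L ≃ₐ[k] L, if τ⁻¹ * g * τ ∈ H then 1 else 0 := ⟨_, fun _ _ => rfl⟩
  have hcard : ∀ H : Subgroup (L ≃ₐ[k] L), (Nat.card H : ℝ) ≠ 0 := by
    intro H
    have : 0 < Nat.card H := Nat.card_pos
    exact_mod_cast this.ne'
  have hG : (Fintype.card (L ≃ₐ[k] L) : ℝ) ≠ 0 := by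
    have : 0 < Fintype.card (L ≃ₐ[k] L) := Fintype.card_pos
    exact_mod_cast this.ne'
  -- sums of class functions
  have hcls : ∀ (e : (L ≃ₐ[k] L) → ℝ), (∀ x g, e (x⁻¹ * g * x) = e g) →
      ∀ H : Subgroup (L ≃ₐ[k] L), (Fintype.card (L ≃ₐ[k] L) : ℝ) * sm e H = ∑ g, e g * u H g := by
    intro e he H
    have h1 : ∀ τ : L ≃ₐ[k] L, sm e H = ∑ g, if τ⁻¹ * g * τ ∈ H then e g else 0 := by
      intro τ
      unfold sm
      rw [← Equiv.sum_comp (MulAut.conj τ⁻¹).toEquiv (fun g => if g ∈ H then e g else 0)]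
      refine Finset.sum_congr rfl fun g _ => ?_
      have h3 : (MulAut.conj τ⁻¹).toEquiv g = τ⁻¹ * g * τ := by
        change τ⁻¹ * g * τ⁻¹⁻¹ = _
        rw [inv_inv]
      rw [h3, he]
    have h2 : (Fintype.card (L ≃ₐ[k] L) : ℝ) * sm e H =
        ∑ τ : L ≃ₐ[k] L, ∑ g, if τ⁻¹ * g * τ ∈ H then e g else 0 := by
      rw [← Finset.sum_congr rfl fun τ _ => h1 τ, Finset.sum_const, Finset.card_univ,
        nsmul_eq_mul]
    rw [h2, Finset.sum_comm]
    refine Finset.sum_congr rfl fun g _ => ?_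
    rw [hu, Finset.mul_sum]
    refine Finset.sum_congr rfl fun τ _ => ?_
    split_ifs
    · rw [mul_one]
    · rw [mul_zero]
  obtain ⟨w, hw⟩ := Fam.exists_weight
    (fun (H : Subgroup (L ≃ₐ[k] L)) (g : L ≃ₐ[k] L) => (Nat.card H : ℝ)⁻¹ * u H g)
    (fun H => (analyticOrderNatAt (F H) s₀ : ℝ)) (by
      intro c hc
      refine rel W hW (fun H : Subgroup (L ≃ₐ[k] L) => IntermediateField.fixedField H) F hF hFL c
        (∑ H : Subgroup (L ≃ₐ[k] L), (NumberField.discr (K' H)).natAbs) ?_ hs₀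
      intro p hp hpN
      obtain ⟨σ, hσ⟩ := Szf.exists_frob Ω hp
      have h5 : ∀ H : Subgroup (L ≃ₐ[k] L),
          (Fam.homCount (IntermediateField.fixedField H) p : ℝ) =
            (Nat.card H : ℝ)⁻¹ * sm (fun g => (emb σ g : ℝ)) H := by
        intro H
        have h1 : ¬ p ∣ (NumberField.discr (K' H)).natAbs := by
          intro h
          have h2 : 0 < (NumberField.discr (K' H)).natAbs :=
            Int.natAbs_pos.2 (NumberField.discr_ne_zero _)
          have h3 := Nat.le_of_dvd h2 h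
          have h4 : (NumberField.discr (K' H)).natAbs ≤
              ∑ H : Subgroup (L ≃ₐ[k] L), (NumberField.discr (K' H)).natAbs :=
            Finset.single_le_sum (f := fun H : Subgroup (L ≃ₐ[k] L) =>
              (NumberField.discr (K' H)).natAbs)
              (fun _ _ => Nat.zero_le _) (Finset.mem_univ H)
          omega
        obtain ⟨e⟩ := hK' H
        rw [Fam.homCount_congr e, hσ _ h1, ← card_mul_fix2 j H e σ, ← mul_assoc,
          inv_mul_cancel₀ (hcard H), one_mul]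
      rw [Finset.sum_congr rfl fun H _ => by rw [h5 H]]
      have h6 : (Fintype.card (L ≃ₐ[k] L) : ℝ) * ∑ H : Subgroup (L ≃ₐ[k] L),
          c H * ((Nat.card H : ℝ)⁻¹ * sm (fun g => (emb σ g : ℝ)) H) = 0 := by
        rw [Finset.mul_sum]
        have h7 : ∀ H : Subgroup (L ≃ₐ[k] L), (Fintype.card (L ≃ₐ[k] L) : ℝ) *
            (c H * ((Nat.card H : ℝ)⁻¹ * sm (fun g => (emb σ g : ℝ)) H)) =
            ∑ g : L ≃ₐ[k] L, (emb σ g : ℝ) * (c H * ((Nat.card H : ℝ)⁻¹ * u H g)) := by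
          intro H
          have h8 := hcls (fun g => (emb σ g : ℝ)) (fun x g => by rw [emb_conj]) H
          calc (Fintype.card (L ≃ₐ[k] L) : ℝ) *
              (c H * ((Nat.card H : ℝ)⁻¹ * sm (fun g => (emb σ g : ℝ)) H)) =
              c H * (Nat.card H : ℝ)⁻¹ * ((Fintype.card (L ≃ₐ[k] L) : ℝ) *
                sm (fun g => (emb σ g : ℝ)) H) := by ring
            _ = _ := by
              rw [h8, Finset.mul_sum]
              exact Finset.sum_congr rfl fun g _ => by ring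
        rw [Finset.sum_congr rfl fun H _ => h7 H, Finset.sum_comm]
        refine Finset.sum_eq_zero fun g _ => ?_
        rw [← Finset.mul_sum, hc g, mul_zero]
      exact (mul_eq_zero.1 h6).resolve_left hG)
  refine ⟨fun g => ∑ τ : L ≃ₐ[k] L, w (τ * g * τ⁻¹), fun x y => ?_, fun H => ?_⟩
  · change (∑ τ : L ≃ₐ[k] L, w (τ * (x⁻¹ * y * x) * τ⁻¹)) = ∑ τ : L ≃ₐ[k] L, w (τ * y * τ⁻¹)
    rw [← Equiv.sum_comp (Equiv.mulRight x) (fun τ => w (τ * (x⁻¹ * y * x) * τ⁻¹))]
    refine Finset.sum_congr rfl fun τ _ => ?_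
    congr 1
    change τ * x * (x⁻¹ * y * x) * (τ * x)⁻¹ = _
    group
  · rw [hw H, Finset.mul_sum]
    unfold sm
    have h1 : ∀ g : L ≃ₐ[k] L, (if g ∈ H then ∑ τ : L ≃ₐ[k] L, w (τ * g * τ⁻¹) else 0) =
        ∑ τ : L ≃ₐ[k] L, if g ∈ H then w (τ * g * τ⁻¹) else 0 := by
      intro g
      split_ifs
      · rfl
      · rw [Finset.sum_const_zero]
    rw [Finset.sum_congr rfl fun g _ => h1 g, Finset.sum_comm]
    have h2 : ∀ τ : L ≃ₐ[k] L, (∑ g : L ≃ₐ[k] L, if g ∈ H then w (τ * g * τ⁻¹) else 0) =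
        ∑ σ : L ≃ₐ[k] L, if τ⁻¹ * σ * τ ∈ H then w σ else 0 := by
      intro τ
      rw [← Equiv.sum_comp (MulAut.conj τ).toEquiv (fun σ => if τ⁻¹ * σ * τ ∈ H then w σ else 0)]
      refine Finset.sum_congr rfl fun g _ => ?_
      change _ = if τ⁻¹ * (τ * g * τ⁻¹) * τ ∈ H then w (τ * g * τ⁻¹) else 0
      have h3 : τ⁻¹ * (τ * g * τ⁻¹) * τ = g := by group
      rw [h3]
    rw [Finset.sum_congr rfl fun τ _ => h2 τ, Finset.sum_comm]
    refine Finset.sum_congr rfl fun σ _ => ?_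
    have h3 : (Nat.card H : ℝ) * (w σ * ((Nat.card H : ℝ)⁻¹ * u H σ)) = w σ * u H σ := by
      have := hcard H
      field_simp
    rw [h3, hu, Finset.mul_sum]
    refine Finset.sum_congr rfl fun τ _ => ?_
    split_ifs
    · rw [mul_one]
    · rw [mul_zero]

end descent

end Pool.Agent.MPfb225e.Qt
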