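import Mathlib

/-!
MP_fb225e_nt, project QT (families of number fields): quasi-orthogonality of the splitting counts
in short windows. The values at the primes are extended to the squarefree integers.
-/

namespace Pool.Agent.MPfb225e.Qt

open Finset

/-- The multiplicative extension to the squarefree integers. -/
def ext (v : ℕ → ℤ) (m : ℕ) : ℤ := ∏ p ∈ m.primeFactors, v p

/-- The sums of the products have a power saving. -/
def Pair (M δ : ℝ) (v w : ℕ → ℤ) : Prop :=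
  ∀ x : ℝ, 1 ≤ x → |((∑ m ∈ (Icc 1 ⌊x⌋₊).filter Squarefree, ext v m * ext w m : ℤ) : ℝ)| ≤
    M * x ^ (1 - δ)

theorem Pair.symm {M δ : ℝ} {v w : ℕ → ℤ} (h : Pair M δ v w) : Pair M δ w v := by
  intro x hx
  have h1 := h x hx
  have e : (∑ m ∈ (Icc 1 ⌊x⌋₊).filter Squarefree, ext w m * ext v m) =
      ∑ m ∈ (Icc 1 ⌊x⌋₊).filter Squarefree, ext v m * ext w m :=
    sum_congr rfl fun m _ => mul_comm _ _
  rw [e]
  exact h1

theorem ext_prime (v : ℕ → ℤ) {p : ℕ} (hp : p.Prime) : ext v p = v p := by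
  unfold ext
  rw [hp.primeFactors, prod_singleton]

theorem abs_ext_le {n : ℕ} (v : ℕ → ℤ) (hv : ∀ p, p.Prime → |v p| ≤ n) (m : ℕ) :
    |((ext v m : ℤ) : ℝ)| ≤ ((n + 1 : ℕ) : ℝ) ^ m.primeFactors.card := by
  unfold ext
  rw [Int.cast_prod, abs_prod, ← prod_const]
  refine prod_le_prod (fun p _ => abs_nonneg _) fun p hp => ?_
  have h1 := hv p (Nat.prime_of_mem_primeFactors hp)
  have h2 : |((v p : ℤ) : ℝ)| ≤ n := by exact_mod_cast h1
  push_cast
  linarith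

/-- `a ^ ω(m)` is at most `C m ^ θ`. -/
theorem pow_omega_le (a θ : ℝ) (ha : 1 ≤ a) (hθ : 0 < θ) : ∃ C : ℝ, 1 ≤ C ∧ ∀ m : ℕ, 1 ≤ m →
    a ^ m.primeFactors.card ≤ C * (m : ℝ) ^ θ := by
  obtain ⟨N, hN⟩ : ∃ N : ℕ, ∀ p : ℕ, N < p → a ≤ (p : ℝ) ^ θ := by
    obtain ⟨N, hN⟩ := exists_nat_gt (a ^ θ⁻¹)
    refine ⟨N, fun p hp => ?_⟩
    have ha0 : 0 ≤ a := by linarith
    have h1 : a ^ θ⁻¹ ≤ (p : ℝ) := hN.le.trans (by exact_mod_cast hp.le)
    have h2 := Real.rpow_le_rpow (Real.rpow_nonneg ha0 _) h1 hθ.le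
    rwa [← Real.rpow_mul ha0, inv_mul_cancel₀ hθ.ne', Real.rpow_one] at h2
  refine ⟨a ^ (N + 1), one_le_pow₀ ha, fun m hm => ?_⟩
  have hm0 : m ≠ 0 := by omega
  have h1 : a ^ m.primeFactors.card =
      (∏ p ∈ m.primeFactors.filter (fun p => p ≤ N), a) *
        ∏ p ∈ m.primeFactors.filter (fun p => ¬ p ≤ N), a := by
    rw [prod_filter_mul_prod_filter_not, prod_const]
  have h2 : (∏ p ∈ m.primeFactors.filter (fun p => p ≤ N), a) ≤ a ^ (N + 1) := by
    rw [prod_const]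
    refine pow_le_pow_right₀ ha ?_
    have h3 : m.primeFactors.filter (fun p => p ≤ N) ⊆ range (N + 1) := by
      intro p hp
      rw [mem_filter] at hp
      rw [mem_range]
      omega
    exact (card_le_card h3).trans (card_range _).le
  have h3 : (∏ p ∈ m.primeFactors.filter (fun p => ¬ p ≤ N), a) ≤ (m : ℝ) ^ θ := by
    have h4 : (∏ p ∈ m.primeFactors.filter (fun p => ¬ p ≤ N), a) ≤
        ∏ p ∈ m.primeFactors.filter (fun p => ¬ p ≤ N), (p : ℝ) ^ θ := by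
      refine prod_le_prod (fun _ _ => by linarith) fun p hp => hN p ?_
      rw [mem_filter] at hp
      omega
    have h5 : ∏ p ∈ m.primeFactors.filter (fun p => ¬ p ≤ N), (p : ℝ) ^ θ ≤
        ∏ p ∈ m.primeFactors, (p : ℝ) ^ θ := by
      refine prod_le_prod_of_subset_of_one_le (filter_subset _ _)
        (fun _ _ => Real.rpow_nonneg (Nat.cast_nonneg _) _) fun p hp _ => ?_
      exact Real.one_le_rpow (by exact_mod_cast (Nat.prime_of_mem_primeFactors hp).one_lt.le) hθ.le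
    refine h4.trans (h5.trans ?_)
    rw [Real.finsetProd_rpow _ _ fun p _ => Nat.cast_nonneg _]
    refine Real.rpow_le_rpow (prod_nonneg fun p _ => Nat.cast_nonneg _) ?_ hθ.le
    rw [← Nat.cast_prod]
    exact_mod_cast Nat.le_of_dvd (by omega) (Nat.prod_primeFactors_dvd m)
  rw [h1]
  exact mul_le_mul h2 h3 (prod_nonneg fun _ _ => by linarith) (by positivity)

/-- A Gram type bound. -/
theorem gram {κ : Type*} [DecidableEq κ] (J : Finset κ) (S : κ → κ → ℝ) (bad : κ → κ → Prop)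
    [DecidableRel bad] (hsymm : ∀ i j, bad i j → bad j i) (B : ℕ) (D E : ℝ)
    (hD : 0 ≤ D) (hE : 0 ≤ E)
    (hB : ∀ i ∈ J, (J.filter (fun j => bad i j)).card ≤ B)
    (h1 : ∀ i ∈ J, ∀ j ∈ J, |S i j| ≤ D) (h2 : ∀ i ∈ J, ∀ j ∈ J, ¬ bad i j → |S i j| ≤ E)
    (a : κ → ℝ) (ha : ∀ i, 0 ≤ a i) :
    ∑ i ∈ J, ∑ j ∈ J, a i * a j * |S i j| ≤ (B * D + J.card * E) * ∑ i ∈ J, a i ^ 2 := by
  have hpt : ∀ i ∈ J, ∀ j ∈ J, a i * a j * |S i j| ≤
      (if bad i j then (a i ^ 2 + a j ^ 2) / 2 * D else 0) + (a i ^ 2 + a j ^ 2) / 2 * E := by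
    intro i hi j hj
    have h3 : a i * a j ≤ (a i ^ 2 + a j ^ 2) / 2 := by nlinarith [sq_nonneg (a i - a j)]
    have h4 : 0 ≤ a i * a j := mul_nonneg (ha i) (ha j)
    have h5 : 0 ≤ (a i ^ 2 + a j ^ 2) / 2 := h4.trans h3
    split_ifs with h
    · have h6 : a i * a j * |S i j| ≤ (a i ^ 2 + a j ^ 2) / 2 * D :=
        mul_le_mul h3 (h1 i hi j hj) (abs_nonneg _) h5
      have := mul_nonneg h5 hE
      linarith
    · have h6 : a i * a j * |S i j| ≤ (a i ^ 2 + a j ^ 2) / 2 * E :=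
        mul_le_mul h3 (h2 i hi j hj h) (abs_nonneg _) h5
      linarith
  have hsum1 : ∑ i ∈ J, ∑ j ∈ J, (if bad i j then (a i ^ 2 + a j ^ 2) / 2 * D else 0) ≤
      B * D * ∑ i ∈ J, a i ^ 2 := by
    have e1 : ∑ i ∈ J, ∑ j ∈ J, (if bad i j then (a i ^ 2 + a j ^ 2) / 2 * D else 0) =
        ∑ i ∈ J, ∑ j ∈ J, (if bad i j then a i ^ 2 * D else 0) := by
      have e2 : ∀ i j : κ, (if bad i j then (a i ^ 2 + a j ^ 2) / 2 * D else 0) =
          (if bad i j then a i ^ 2 * D else 0) / 2 + (if bad i j then a j ^ 2 * D else 0) / 2 := by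
        intro i j
        split_ifs <;> ring
      have e3 : ∑ i ∈ J, ∑ j ∈ J, (if bad i j then a j ^ 2 * D else 0) =
          ∑ i ∈ J, ∑ j ∈ J, (if bad i j then a i ^ 2 * D else 0) := by
        rw [sum_comm]
        refine sum_congr rfl fun i _ => sum_congr rfl fun j _ => ?_
        have e4 : bad j i ↔ bad i j := ⟨hsymm j i, hsymm i j⟩
        simp only [e4]
      simp only [e2, sum_add_distrib, ← sum_div]
      rw [e3]
      ring
    rw [e1, mul_sum]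
    refine sum_le_sum fun i hi => ?_
    rw [← sum_filter, sum_const, nsmul_eq_mul]
    have h3 : ((J.filter (fun j => bad i j)).card : ℝ) ≤ B := by exact_mod_cast hB i hi
    have h4 : 0 ≤ a i ^ 2 * D := by positivity
    calc ((J.filter (fun j => bad i j)).card : ℝ) * (a i ^ 2 * D) ≤ B * (a i ^ 2 * D) :=
          mul_le_mul_of_nonneg_right h3 h4
      _ = _ := by ring
  have hsum2 : ∑ i ∈ J, ∑ j ∈ J, (a i ^ 2 + a j ^ 2) / 2 * E = J.card * E * ∑ i ∈ J, a i ^ 2 := by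
    have e2 : ∀ i j : κ, (a i ^ 2 + a j ^ 2) / 2 * E = E / 2 * a i ^ 2 + E / 2 * a j ^ 2 := by
      intro i j
      ring
    simp only [e2, sum_add_distrib, sum_const, nsmul_eq_mul, ← mul_sum]
    ring
  calc ∑ i ∈ J, ∑ j ∈ J, a i * a j * |S i j| ≤
        ∑ i ∈ J, ∑ j ∈ J, ((if bad i j then (a i ^ 2 + a j ^ 2) / 2 * D else 0) +
          (a i ^ 2 + a j ^ 2) / 2 * E) := sum_le_sum fun i hi => sum_le_sum fun j hj => hpt i hi j hj
    _ = ∑ i ∈ J, ∑ j ∈ J, (if bad i j then (a i ^ 2 + a j ^ 2) / 2 * D else 0) +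
        ∑ i ∈ J, ∑ j ∈ J, (a i ^ 2 + a j ^ 2) / 2 * E := by
        simp only [sum_add_distrib]
    _ ≤ B * D * ∑ i ∈ J, a i ^ 2 + J.card * E * ∑ i ∈ J, a i ^ 2 := by
        rw [hsum2]
        linarith
    _ = _ := by ring

end Pool.Agent.MPfb225e.Qt
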