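import Mathlib
import Pool.Agent.Lib.MP_fb225e_nt.Qt.Window
import Pool.Agent.Lib.MP_fb225e_nt.Tw.MeanValue

/-!
MP_fb225e_nt, project QT: the sums over the primes of a short window.
-/

namespace Pool.Agent.MPfb225e.Qt

open Finset

universe v

theorem card_window_le {u T : ℝ} (hT : 1 ≤ T) (hTu : T ≤ Real.exp u) :
    (((Ioc ⌊Real.exp u⌋₊ ⌊Real.exp (u + 2 / T)⌋₊).filter Squarefree).card : ℝ) ≤
      17 / T * Real.exp u := by
  have hT0 : 0 < T := by linarith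
  have h1 : (((Ioc ⌊Real.exp u⌋₊ ⌊Real.exp (u + 2 / T)⌋₊).filter Squarefree).card : ℝ) ≤
      Real.exp (u + 2 / T) - Real.exp u + 1 := by
    have h2 : ((Ioc ⌊Real.exp u⌋₊ ⌊Real.exp (u + 2 / T)⌋₊).filter Squarefree).card ≤
        ⌊Real.exp (u + 2 / T)⌋₊ - ⌊Real.exp u⌋₊ := by
      refine (card_filter_le _ _).trans ?_
      rw [Nat.card_Ioc]
    have h3 : ⌊Real.exp u⌋₊ ≤ ⌊Real.exp (u + 2 / T)⌋₊ :=
      Nat.floor_mono (Real.exp_le_exp.2 (by have : 0 < 2 / T := by positivity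
                                            linarith))
    have h4 : (((⌊Real.exp (u + 2 / T)⌋₊ - ⌊Real.exp u⌋₊ : ℕ)) : ℝ) =
        (⌊Real.exp (u + 2 / T)⌋₊ : ℝ) - ⌊Real.exp u⌋₊ := by
      rw [Nat.cast_sub h3]
    have h5 : (⌊Real.exp (u + 2 / T)⌋₊ : ℝ) ≤ Real.exp (u + 2 / T) :=
      Nat.floor_le (Real.exp_pos _).le
    have h6 : Real.exp u < ⌊Real.exp u⌋₊ + 1 := Nat.lt_floor_add_one _
    have h7 : (((Ioc ⌊Real.exp u⌋₊ ⌊Real.exp (u + 2 / T)⌋₊).filter Squarefree).card : ℝ) ≤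
        ((⌊Real.exp (u + 2 / T)⌋₊ - ⌊Real.exp u⌋₊ : ℕ) : ℝ) := by exact_mod_cast h2
    rw [h4] at h7
    linarith
  refine h1.trans ?_
  have h2 : Real.exp (2 / T) - 1 ≤ 16 / T := by
    have h3 : 2 / T ≤ 2 := by
      rw [div_le_iff₀ hT0]
      linarith
    have h4 : (0 : ℝ) < 2 / T := by positivity
    have h5 : Real.exp (2 / T) ≤ 8 := by
      have h6 : Real.exp (2 / T) ≤ Real.exp 2 := Real.exp_le_exp.2 h3
      have h7 : Real.exp 2 = Real.exp 1 * Real.exp 1 := by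
        rw [← Real.exp_add]
        norm_num
      have h8 : Real.exp 1 < 2.7182818286 := Real.exp_one_lt_d9
      have h9 : 0 < Real.exp 1 := Real.exp_pos 1
      nlinarith
    -- `exp x - 1 ≤ x exp x`
    have h10 := Real.add_one_le_exp (-(2 / T))
    have h11 : Real.exp (2 / T) * Real.exp (-(2 / T)) = 1 := by
      rw [← Real.exp_add, add_neg_cancel, Real.exp_zero]
    have h12 : Real.exp (2 / T) - 1 ≤ (2 / T) * Real.exp (2 / T) := by
      nlinarith [Real.exp_pos (2 / T)]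
    calc Real.exp (2 / T) - 1 ≤ (2 / T) * Real.exp (2 / T) := h12
      _ ≤ (2 / T) * 8 := mul_le_mul_of_nonneg_left h5 h4.le
      _ = 16 / T := by ring
  have h3 : 1 ≤ 1 / T * Real.exp u := by
    rw [one_div, inv_mul_eq_div, le_div_iff₀ hT0]
    linarith
  rw [Real.exp_add]
  have h4 : Real.exp u * Real.exp (2 / T) - Real.exp u = Real.exp u * (Real.exp (2 / T) - 1) := by
    ring
  rw [h4]
  have h5 := mul_le_mul_of_nonneg_left h2 (Real.exp_pos u).le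
  calc Real.exp u * (Real.exp (2 / T) - 1) + 1 ≤ Real.exp u * (16 / T) + 1 / T * Real.exp u := by
        linarith
    _ = _ := by ring

theorem exp_two_div_le {T : ℝ} (hT : 1 ≤ T) : Real.exp (2 / T) ≤ 8 := by
  have hT0 : 0 < T := by linarith
  have h3 : 2 / T ≤ 2 := by
    rw [div_le_iff₀ hT0]
    linarith
  have h6 : Real.exp (2 / T) ≤ Real.exp 2 := Real.exp_le_exp.2 h3
  have h7 : Real.exp 2 = Real.exp 1 * Real.exp 1 := by
    rw [← Real.exp_add]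
    norm_num
  have h8 : Real.exp 1 < 2.7182818286 := Real.exp_one_lt_d9
  have h9 : 0 < Real.exp 1 := Real.exp_pos 1
  nlinarith

/-- The window sums of the products. -/
theorem window_pair {M δ : ℝ} {v w : ℕ → ℤ} (h : Pair M δ v w) (hM : 1 ≤ M) (hδ : 0 < δ)
    (hδ1 : δ ≤ 1 / 2) {u T : ℝ} (hT : 1 ≤ T) (hu : 0 ≤ u) :
    |∑ m ∈ (Ioc ⌊Real.exp u⌋₊ ⌊Real.exp (u + 2 / T)⌋₊).filter Squarefree,
      ((ext v m : ℤ) : ℝ) * ((ext w m : ℤ) : ℝ)| ≤ 16 * M * Real.exp ((1 - δ) * u) := by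
  have hT0 : 0 < T := by linarith
  have h2T : 0 < 2 / T := by positivity
  set f : ℕ → ℝ := fun m => ((ext v m : ℤ) : ℝ) * ((ext w m : ℤ) : ℝ) with hf
  have hmono : ⌊Real.exp u⌋₊ ≤ ⌊Real.exp (u + 2 / T)⌋₊ :=
    Nat.floor_mono (Real.exp_le_exp.2 (by linarith))
  have hsplit : ∑ m ∈ (Icc 1 ⌊Real.exp (u + 2 / T)⌋₊).filter Squarefree, f m =
      ∑ m ∈ (Icc 1 ⌊Real.exp u⌋₊).filter Squarefree, f m +
      ∑ m ∈ (Ioc ⌊Real.exp u⌋₊ ⌊Real.exp (u + 2 / T)⌋₊).filter Squarefree, f m := by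
    rw [← sum_union]
    · refine sum_congr ?_ fun _ _ => rfl
      ext m
      simp only [mem_filter, mem_Icc, mem_union, mem_Ioc]
      constructor
      · rintro ⟨⟨h1, h2⟩, h3⟩
        rcases le_or_gt m ⌊Real.exp u⌋₊ with h4 | h4
        · exact Or.inl ⟨⟨h1, h4⟩, h3⟩
        · exact Or.inr ⟨⟨h4, h2⟩, h3⟩
      · rintro (⟨⟨h1, h2⟩, h3⟩ | ⟨⟨h1, h2⟩, h3⟩)
        · exact ⟨⟨h1, h2.trans hmono⟩, h3⟩
        · exact ⟨⟨by omega, h2⟩, h3⟩
    · rw [disjoint_left]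
      intro m h1 h2
      simp only [mem_filter, mem_Icc, mem_Ioc] at h1 h2
      omega
  have hc : ∀ N : ℕ, ((∑ m ∈ (Icc 1 N).filter Squarefree, ext v m * ext w m : ℤ) : ℝ) =
      ∑ m ∈ (Icc 1 N).filter Squarefree, f m := by
    intro N
    push_cast
    rfl
  have h1 := h (Real.exp u) (Real.one_le_exp hu)
  have h2 := h (Real.exp (u + 2 / T)) (Real.one_le_exp (by linarith))
  rw [hc] at h1 h2
  have e1 : (Real.exp u) ^ (1 - δ) = Real.exp ((1 - δ) * u) := by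
    rw [← Real.exp_mul, mul_comm]
  have e2 : (Real.exp (u + 2 / T)) ^ (1 - δ) ≤ 8 * Real.exp ((1 - δ) * u) := by
    rw [← Real.exp_mul, add_mul, Real.exp_add, mul_comm u, mul_comm]
    refine mul_le_mul_of_nonneg_right ?_ (Real.exp_pos _).le
    refine le_trans (Real.exp_le_exp.2 ?_) (exp_two_div_le hT)
    nlinarith
  rw [e1] at h1
  have h3 : |∑ m ∈ (Ioc ⌊Real.exp u⌋₊ ⌊Real.exp (u + 2 / T)⌋₊).filter Squarefree, f m| ≤
      M * (8 * Real.exp ((1 - δ) * u)) + M * Real.exp ((1 - δ) * u) := by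
    have e : ∑ m ∈ (Ioc ⌊Real.exp u⌋₊ ⌊Real.exp (u + 2 / T)⌋₊).filter Squarefree, f m =
        ∑ m ∈ (Icc 1 ⌊Real.exp (u + 2 / T)⌋₊).filter Squarefree, f m -
        ∑ m ∈ (Icc 1 ⌊Real.exp u⌋₊).filter Squarefree, f m := by
      rw [hsplit]
      ring
    rw [e]
    refine (abs_sub _ _).trans ?_
    refine add_le_add (h2.trans ?_) h1
    exact mul_le_mul_of_nonneg_left e2 (by linarith)
  refine h3.trans ?_
  have h4 : 0 ≤ M * Real.exp ((1 - δ) * u) := by positivity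
  linarith

/-- QT: the sums over the primes of a short window. -/
theorem quot_window (n : ℕ) (η : ℝ) (hη : 0 < η) : ∃ C : ℝ, 0 < C ∧
    ∀ (B : ℕ) (κ : Type v) (J : Finset κ) (V : κ → ℕ → ℤ) (T u δ M : ℝ), 1 ≤ T → 0 ≤ u →
    T ≤ Real.exp u → 0 < δ →
    δ ≤ 1 / 2 → 1 ≤ M → (∀ i ∈ J, ∀ p, p.Prime → |V i p| ≤ n) →
    (∀ i ∈ J, Set.ncard {j : κ | j ∈ J ∧ ¬ Pair M δ (V i) (V j)} ≤ B) →
    (J.card : ℝ) * M * T ≤ (B + 1) * Real.exp (δ * u) →
    ∀ P : Finset Nat.Primes, (∀ p ∈ P, u < Real.log p ∧ Real.log p ≤ u + 2 / T) →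
    ∀ b : κ → ℂ, ∑ p ∈ P, Real.log p / p * ((p : ℝ) ^ (-η) * ‖∑ i ∈ J, b i * (V i p : ℂ)‖ ^ 2) ≤
      C * (B + 1) / T * ∑ i ∈ J, ‖b i‖ ^ 2 := by
  classical
  obtain ⟨C₁, hC₁, homega⟩ := pow_omega_le (((n + 1 : ℕ) : ℝ) ^ 2) (η / 2)
    (one_le_pow₀ (by exact_mod_cast Nat.succ_le_succ (Nat.zero_le n))) (by positivity)
  set C₂ : ℝ := 2 / η + 2 with hC₂
  set C₃ : ℝ := 17 * C₁ * 8 ^ (η / 2) with hC₃
  have hC₃0 : 0 < C₃ := by positivity
  have hC₂0 : 0 < C₂ := by positivity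
  refine ⟨C₂ * (C₃ + 16), by positivity, ?_⟩
  intro B κ J V T u δ M hT hu hTu hδ hδ1 hM hV hB hJ P hP b
  have hT0 : 0 < T := by linarith
  have hS0 : 0 ≤ ∑ i ∈ J, ‖b i‖ ^ 2 := sum_nonneg fun _ _ => sq_nonneg _
  -- pointwise
  have hlog : ∀ p ∈ P, Real.log p / p * ((p : ℝ) ^ (-η) * ‖∑ i ∈ J, b i * (V i p : ℂ)‖ ^ 2) ≤
      (u + 2) * Real.exp (-u) * Real.exp (-(η * u)) * ‖∑ i ∈ J, b i * (V i p : ℂ)‖ ^ 2 := by
    intro p hp
    obtain ⟨h1, h2⟩ := hP p hp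
    have hp0 : (0 : ℝ) < (p : ℕ) := by exact_mod_cast p.2.pos
    have h3 : 2 / T ≤ 2 := by
      rw [div_le_iff₀ hT0]
      linarith
    have h4 : Real.exp u ≤ (p : ℕ) := ((Real.lt_log_iff_exp_lt hp0).1 h1).le
    have h5 : ((p : ℕ) : ℝ)⁻¹ ≤ Real.exp (-u) := by
      rw [Real.exp_neg]
      exact inv_anti₀ (Real.exp_pos u) h4
    have h6 : ((p : ℕ) : ℝ) ^ (-η) ≤ Real.exp (-(η * u)) := by
      rw [Real.rpow_def_of_pos hp0]
      refine Real.exp_le_exp.2 ?_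
      nlinarith
    have hl0 : 0 ≤ Real.log p := by linarith
    calc Real.log p / p * ((p : ℝ) ^ (-η) * ‖∑ i ∈ J, b i * (V i p : ℂ)‖ ^ 2)
        = Real.log p * ((p : ℕ) : ℝ)⁻¹ * ((p : ℝ) ^ (-η)) * ‖∑ i ∈ J, b i * (V i p : ℂ)‖ ^ 2 := by
          ring
      _ ≤ _ := by
          refine mul_le_mul_of_nonneg_right ?_ (sq_nonneg _)
          refine mul_le_mul ?_ h6 (Real.rpow_nonneg hp0.le _) (by positivity)
          exact mul_le_mul (by linarith) h5 (by positivity) (by linarith)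
  set W : Finset ℕ := (Ioc ⌊Real.exp u⌋₊ ⌊Real.exp (u + 2 / T)⌋₊).filter Squarefree with hW
  -- primes to integers
  have hPW : ∑ p ∈ P, ‖∑ i ∈ J, b i * (V i p : ℂ)‖ ^ 2 ≤
      ∑ m ∈ W, ‖∑ i ∈ J, b i * ((((ext (V i) m : ℤ) : ℝ) : ℝ) : ℂ)‖ ^ 2 := by
    have e1 : ∑ p ∈ P, ‖∑ i ∈ J, b i * (V i p : ℂ)‖ ^ 2 =
        ∑ m ∈ P.image (fun p : Nat.Primes => (p : ℕ)),
          ‖∑ i ∈ J, b i * ((((ext (V i) m : ℤ) : ℝ) : ℝ) : ℂ)‖ ^ 2 := by
      rw [Finset.sum_image (g := fun p : Nat.Primes => (p : ℕ))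
        (fun p _ q _ h => Nat.Primes.coe_nat_injective h)]
      refine sum_congr rfl fun p _ => ?_
      congr 2
      refine sum_congr rfl fun i _ => ?_
      rw [ext_prime (V i) p.2]
      push_cast
      rfl
    rw [e1]
    refine sum_le_sum_of_subset_of_nonneg ?_ fun _ _ _ => sq_nonneg _
    intro m hm
    obtain ⟨p, hp, rfl⟩ := mem_image.1 hm
    obtain ⟨h1, h2⟩ := hP p hp
    have hp0 : (0 : ℝ) < (p : ℕ) := by exact_mod_cast p.2.pos
    rw [hW, mem_filter, mem_Ioc]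
    refine ⟨⟨?_, ?_⟩, p.2.squarefree⟩
    · exact (Nat.floor_lt (Real.exp_pos u).le).2 ((Real.lt_log_iff_exp_lt hp0).1 h1)
    · exact Nat.le_floor ((Real.log_le_iff_le_exp hp0).1 h2)
  -- expand
  set S : κ → κ → ℝ := fun i j => ∑ m ∈ W, ((ext (V i) m : ℤ) : ℝ) * ((ext (V j) m : ℤ) : ℝ)
    with hS
  have hexp : ∑ m ∈ W, ‖∑ i ∈ J, b i * ((((ext (V i) m : ℤ) : ℝ) : ℝ) : ℂ)‖ ^ 2 ≤
      ∑ i ∈ J, ∑ j ∈ J, ‖b i‖ * ‖b j‖ * |S i j| := by
    have h0 : 0 ≤ ∑ m ∈ W, ‖∑ i ∈ J, b i * ((((ext (V i) m : ℤ) : ℝ) : ℝ) : ℂ)‖ ^ 2 :=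
      sum_nonneg fun _ _ => sq_nonneg _
    have h1 : ((∑ m ∈ W, ‖∑ i ∈ J, b i * ((((ext (V i) m : ℤ) : ℝ) : ℝ) : ℂ)‖ ^ 2 : ℝ) : ℂ) =
        ∑ i ∈ J, ∑ j ∈ J, (b i * (starRingEnd ℂ) (b j)) * ((S i j : ℝ) : ℂ) := by
      rw [Complex.ofReal_sum]
      have h2 : ∀ m ∈ W, ((‖∑ i ∈ J, b i * ((((ext (V i) m : ℤ) : ℝ) : ℝ) : ℂ)‖ ^ 2 : ℝ) : ℂ) =
          ∑ i ∈ J, ∑ j ∈ J, (b i * (starRingEnd ℂ) (b j)) *
            (((((ext (V i) m : ℤ) : ℝ)) * ((ext (V j) m : ℤ) : ℝ) : ℝ) : ℂ) := fun m _ =>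
        Tw.normSq_sum_expand J b fun i => ((ext (V i) m : ℤ) : ℝ)
      rw [sum_congr rfl h2, sum_comm]
      refine sum_congr rfl fun i _ => ?_
      rw [sum_comm]
      refine sum_congr rfl fun j _ => ?_
      rw [← mul_sum, hS, ← Complex.ofReal_sum]
    have h2 : ∑ m ∈ W, ‖∑ i ∈ J, b i * ((((ext (V i) m : ℤ) : ℝ) : ℝ) : ℂ)‖ ^ 2 =
        ‖((∑ m ∈ W, ‖∑ i ∈ J, b i * ((((ext (V i) m : ℤ) : ℝ) : ℝ) : ℂ)‖ ^ 2 : ℝ) : ℂ)‖ := by
      rw [Complex.norm_real, Real.norm_eq_abs, abs_of_nonneg h0]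
    rw [h2, h1]
    refine (norm_sum_le _ _).trans (sum_le_sum fun i _ => ?_)
    refine (norm_sum_le _ _).trans (sum_le_sum fun j _ => ?_)
    rw [norm_mul, norm_mul, RCLike.norm_conj, Complex.norm_real, Real.norm_eq_abs]
  -- the entries
  have hy' : Real.exp (u + 2 / T) ≤ 8 * Real.exp u := by
    rw [Real.exp_add, mul_comm]
    exact mul_le_mul_of_nonneg_right (exp_two_div_le hT) (Real.exp_pos u).le
  have hD : ∀ i ∈ J, ∀ j ∈ J, |S i j| ≤ C₃ / T * Real.exp u * Real.exp (η / 2 * u) := by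
    intro i hi j hj
    have h1 : ∀ m ∈ W, |((ext (V i) m : ℤ) : ℝ) * ((ext (V j) m : ℤ) : ℝ)| ≤
        C₁ * (8 ^ (η / 2) * Real.exp (η / 2 * u)) := by
      intro m hm
      rw [hW, mem_filter, mem_Ioc] at hm
      have hm1 : 1 ≤ m := by omega
      have h2 : (m : ℝ) ≤ 8 * Real.exp u := by
        refine le_trans ?_ hy'
        exact (Nat.le_floor_iff (Real.exp_pos _).le).1 hm.1.2
      rw [abs_mul]
      have h3 := mul_le_mul (abs_ext_le (V i) (hV i hi) m) (abs_ext_le (V j) (hV j hj) m)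
        (abs_nonneg _) (by positivity)
      refine h3.trans ?_
      rw [← mul_pow, ← sq]
      refine (homega m hm1).trans ?_
      refine mul_le_mul_of_nonneg_left ?_ (by linarith)
      refine (Real.rpow_le_rpow (Nat.cast_nonneg _) h2 (by positivity)).trans (le_of_eq ?_)
      rw [Real.mul_rpow (by norm_num) (Real.exp_pos _).le, ← Real.exp_mul, mul_comm u]
    have h2 : |S i j| ≤ W.card * (C₁ * (8 ^ (η / 2) * Real.exp (η / 2 * u))) := by
      rw [hS]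
      refine (abs_sum_le_sum_abs _ _).trans ?_
      rw [← nsmul_eq_mul]
      exact sum_le_card_nsmul _ _ _ h1
    refine h2.trans ?_
    have h3 := card_window_le hT hTu
    rw [← hW] at h3
    calc (W.card : ℝ) * (C₁ * (8 ^ (η / 2) * Real.exp (η / 2 * u)))
        ≤ (17 / T * Real.exp u) * (C₁ * (8 ^ (η / 2) * Real.exp (η / 2 * u))) :=
          mul_le_mul_of_nonneg_right h3 (by positivity)
      _ = _ := by rw [hC₃]; ring
  have hE : ∀ i ∈ J, ∀ j ∈ J, ¬ ¬ Pair M δ (V i) (V j) →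
      |S i j| ≤ 16 * M * Real.exp ((1 - δ) * u) := by
    intro i _ j _ h
    exact window_pair (not_not.1 h) hM hδ hδ1 hT hu
  have hB' : ∀ i ∈ J, (J.filter (fun j => ¬ Pair M δ (V i) (V j))).card ≤ B := by
    intro i hi
    refine le_trans (le_of_eq ?_) (hB i hi)
    rw [← Set.ncard_coe_finset]
    congr 1
    ext j
    simp
  have hgram := gram J S (fun i j => ¬ Pair M δ (V i) (V j))
    (fun i j h h' => h h'.symm) B (C₃ / T * Real.exp u * Real.exp (η / 2 * u))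
    (16 * M * Real.exp ((1 - δ) * u)) (by positivity) (by positivity) hB' hD hE
    (fun i => ‖b i‖) (fun i => norm_nonneg _)
  -- conclusion
  have h1 : ∑ p ∈ P, Real.log p / p * ((p : ℝ) ^ (-η) * ‖∑ i ∈ J, b i * (V i p : ℂ)‖ ^ 2) ≤
      (u + 2) * Real.exp (-u) * Real.exp (-(η * u)) *
        ((B * (C₃ / T * Real.exp u * Real.exp (η / 2 * u)) +
          J.card * (16 * M * Real.exp ((1 - δ) * u))) * ∑ i ∈ J, ‖b i‖ ^ 2) := by
    refine (sum_le_sum hlog).trans ?_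
    rw [← mul_sum]
    refine mul_le_mul_of_nonneg_left (hPW.trans (hexp.trans hgram)) ?_
    have : 0 ≤ u + 2 := by linarith
    positivity
  refine h1.trans ?_
  have hu2 : u + 2 ≤ C₂ * Real.exp (η / 2 * u) := by
    have h2 := Real.add_one_le_exp (η / 2 * u)
    have h3 : 1 ≤ Real.exp (η / 2 * u) := Real.one_le_exp (by positivity)
    have h4 : u ≤ 2 / η * Real.exp (η / 2 * u) := by
      rw [div_mul_eq_mul_div, le_div_iff₀ hη]
      nlinarith
    rw [hC₂, add_mul]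
    linarith
  have e1 : Real.exp (-u) * Real.exp u = 1 := by
    rw [← Real.exp_add, neg_add_cancel, Real.exp_zero]
  have e2 : Real.exp (-(η * u)) * (Real.exp (η / 2 * u) * Real.exp (η / 2 * u)) = 1 := by
    rw [← Real.exp_add, ← Real.exp_add]
    have : -(η * u) + (η / 2 * u + η / 2 * u) = 0 := by ring
    rw [this, Real.exp_zero]
  have e3 : Real.exp (-u) * Real.exp ((1 - δ) * u) = Real.exp (-(δ * u)) := by
    rw [← Real.exp_add]
    congr 1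
    ring
  have h5 : (J.card : ℝ) * M * Real.exp (-(δ * u)) ≤ (B + 1) / T := by
    rw [le_div_iff₀ hT0]
    have h6 : Real.exp (δ * u) * Real.exp (-(δ * u)) = 1 := by
      rw [← Real.exp_add, add_neg_cancel, Real.exp_zero]
    have h7 := mul_le_mul_of_nonneg_right hJ (Real.exp_pos (-(δ * u))).le
    rw [mul_assoc ((B : ℝ) + 1), h6, mul_one] at h7
    linarith
  have h8 : Real.exp (-(η * u)) * Real.exp (η / 2 * u) ≤ 1 := by
    rw [← Real.exp_add]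
    refine Real.exp_le_one_iff.2 ?_
    nlinarith
  have hcoef : (u + 2) * Real.exp (-u) * Real.exp (-(η * u)) *
      (B * (C₃ / T * Real.exp u * Real.exp (η / 2 * u)) +
        J.card * (16 * M * Real.exp ((1 - δ) * u))) ≤ C₂ * (C₃ + 16) * (B + 1) / T := by
    have h9 : (u + 2) * Real.exp (-u) * Real.exp (-(η * u)) *
        (B * (C₃ / T * Real.exp u * Real.exp (η / 2 * u)) +
          J.card * (16 * M * Real.exp ((1 - δ) * u))) ≤
        (C₂ * Real.exp (η / 2 * u)) * Real.exp (-u) * Real.exp (-(η * u)) *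
        (B * (C₃ / T * Real.exp u * Real.exp (η / 2 * u)) +
          J.card * (16 * M * Real.exp ((1 - δ) * u))) := by
      refine mul_le_mul_of_nonneg_right ?_ (by positivity)
      refine mul_le_mul_of_nonneg_right ?_ (Real.exp_pos _).le
      exact mul_le_mul_of_nonneg_right hu2 (Real.exp_pos _).le
    refine h9.trans ?_
    have h10 : (C₂ * Real.exp (η / 2 * u)) * Real.exp (-u) * Real.exp (-(η * u)) *
        (B * (C₃ / T * Real.exp u * Real.exp (η / 2 * u)) +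
          J.card * (16 * M * Real.exp ((1 - δ) * u))) =
        C₂ * (B * C₃ / T) * (Real.exp (-u) * Real.exp u) *
          (Real.exp (-(η * u)) * (Real.exp (η / 2 * u) * Real.exp (η / 2 * u))) +
        C₂ * 16 * (Real.exp (-(η * u)) * Real.exp (η / 2 * u)) *
          (J.card * M * (Real.exp (-u) * Real.exp ((1 - δ) * u))) := by
      ring
    rw [h10, e1, e2, e3]
    have h11 : C₂ * 16 * (Real.exp (-(η * u)) * Real.exp (η / 2 * u)) *
        (J.card * M * Real.exp (-(δ * u))) ≤ C₂ * 16 * 1 * ((B + 1) / T) := by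
      refine mul_le_mul ?_ h5 (by positivity) (by positivity)
      exact mul_le_mul_of_nonneg_left h8 (by positivity)
    calc C₂ * (B * C₃ / T) * 1 * 1 + C₂ * 16 * (Real.exp (-(η * u)) * Real.exp (η / 2 * u)) *
          (J.card * M * Real.exp (-(δ * u)))
        ≤ C₂ * (B * C₃ / T) * 1 * 1 + C₂ * 16 * 1 * ((B + 1) / T) := by linarith
      _ = C₂ * (C₃ + 16) * (B + 1) / T - C₂ * C₃ / T := by ring
      _ ≤ _ := by
          have : 0 ≤ C₂ * C₃ / T := by positivity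
          linarith
  rw [← mul_assoc]
  exact mul_le_mul_of_nonneg_right hcoef hS0

end Pool.Agent.MPfb225e.Qt
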