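import Mathlib
import Pool.Agent.Lib.MP_fb225e_nt.Qt.Win2
import Pool.Agent.Lib.MP_fb225e_nt.Tw.Gauss
import Pool.Agent.Lib.MP_fb225e_nt.Zd.MeanSum

/-!
MP_fb225e_nt, project QT, module Mean: mean values of the prime sums over a family.
-/

namespace Pool.Agent.MPfb225e.Qt

open Filter Topology Complex MeasureTheory
open scoped Nat

universe v

/-- QT: the mean square of the truncated prime sums over the family. -/
theorem mean_family (n : ℕ) (η : ℝ) (hη : 0 < η) (hη1 : η ≤ 1) : ∃ C₉ : ℝ, 0 < C₉ ∧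
    ∀ (B : ℕ) (κ : Type v) (J : Finset κ) (V : κ → ℕ → ℤ) (T U δ M : ℝ), 1 ≤ T → 1 ≤ U →
    T ≤ Real.exp (U - 1) → 0 < δ →
    δ ≤ 1 / 2 → 1 ≤ M → (∀ i ∈ J, ∀ p, p.Prime → |V i p| ≤ n) →
    (∀ i ∈ J, Set.ncard {j : κ | j ∈ J ∧ ¬ Pair M δ (V i) (V j)} ≤ B) →
    (J.card : ℝ) * M * T ≤ (B + 1) * Real.exp (δ * (U - 1)) →
    ∀ P : Finset Nat.Primes, (∀ p ∈ P, U < Real.log p) → ∀ y : ℕ → ℝ, (∀ p, |y p| ≤ 2) →
    ∀ q : ℕ,
    ∑ i ∈ J, ∫ t : ℝ in (-T)..T, ‖∑ p ∈ P, (Zd.bq y η q p : ℂ) * ((V i p : ℝ) : ℂ) *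
        cexp (-(t * Real.log p : ℝ) * I)‖ ^ 2 ≤
      C₉ * (B + 1) * 4 ^ q * (η⁻¹) ^ (2 * q + 1) := by
  obtain ⟨C', hC', hwin⟩ := quot_window.{v} n (η / 2) (by positivity)
  obtain ⟨C₁, hC₁, hgauss⟩ := Tw.gauss_weighted
  obtain ⟨C₈, hC₈, hlp⟩ := Zd.sum_lp
  refine ⟨64 * (C₁ * C') * C₈ + 1, by positivity, ?_⟩
  intro B κ J V T U δ M hT hU hTU hδ hδ1 hM hV hB hJ P hP y hy q
  obtain ⟨C, hCdef⟩ : ∃ C : ℝ, C = C' * (B + 1) := ⟨_, rfl⟩
  have hC : 0 < C := by rw [hCdef]; positivity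
  have hT0 : 0 < T := by linarith
  set w : Nat.Primes → ℝ := fun p => 2 * (Real.log p / p) * (p : ℝ) ^ (-(η / 2)) with hw
  set j : Nat.Primes → ℝ := fun p => (p : ℝ) ^ (-(η / 2)) * (Real.log p ^ q / q !) with hj
  have hw0 : ∀ p, 0 ≤ w p := fun p => by
    have : 0 ≤ Real.log p := Real.log_natCast_nonneg _
    rw [hw]; positivity
  have hj0 : ∀ p, 0 ≤ j p := fun p => by
    have : 0 ≤ Real.log p := Real.log_natCast_nonneg _
    rw [hj]; positivity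
  have hlp' : ∀ (η : ℝ) (p : Nat.Primes), Szf.lp η p = Real.log p / p * (p : ℝ) ^ (-η) := by
    intro η p
    have hp : (0 : ℝ) < (p : ℕ) := by exact_mod_cast p.2.pos
    unfold Szf.lp
    rw [neg_add, Real.rpow_add hp, Real.rpow_neg_one]
    ring
  have hsplit : ∀ p : Nat.Primes, (p : ℝ) ^ (-(η / 2)) * (p : ℝ) ^ (-(η / 2)) =
      (p : ℝ) ^ (-η) := by
    intro p
    have hp : (0 : ℝ) < (p : ℕ) := by exact_mod_cast p.2.pos
    rw [← Real.rpow_add hp]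
    congr 1
    ring
  have hBB : ∀ (x : ℝ) (b : κ → ℂ), ∑ p ∈ P, w p *
      Real.exp (-((x - Real.log p) * T) ^ 2 / 2) *
      ‖∑ i ∈ J, b i * (((V i p : ℤ) : ℝ) : ℂ)‖ ^ 2 ≤
      2 * (C₁ * (C / T)) * ∑ i ∈ J, ‖b i‖ ^ 2 := by
    intro x b
    have hS0 : 0 ≤ ∑ i ∈ J, ‖b i‖ ^ 2 := Finset.sum_nonneg fun i _ => sq_nonneg _
    have h1 := hgauss T U (C / T * ∑ i ∈ J, ‖b i‖ ^ 2) x
      (fun p => (p : ℝ) ^ (-(η / 2)) * ‖∑ i ∈ J, b i * (V i p : ℂ)‖ ^ 2) hT (by positivity)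
      (fun p => by positivity)
      (fun u hu P' hP' => by
        rw [hCdef]
        exact hwin B κ J V T u δ M hT (by linarith) (hTU.trans (Real.exp_le_exp.2 hu)) hδ hδ1 hM
          hV hB (hJ.trans (mul_le_mul_of_nonneg_left
            (Real.exp_le_exp.2 (mul_le_mul_of_nonneg_left hu hδ.le)) (by positivity))) P' hP' b)
      P hP
    have h2 : ∑ p ∈ P, w p * Real.exp (-((x - Real.log p) * T) ^ 2 / 2) *
        ‖∑ i ∈ J, b i * (((V i p : ℤ) : ℝ) : ℂ)‖ ^ 2 =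
        2 * ∑ p ∈ P, Real.log p / p * Real.exp (-((x - Real.log p) * T) ^ 2 / 2) *
          ((p : ℝ) ^ (-(η / 2)) * ‖∑ i ∈ J, b i * (V i p : ℂ)‖ ^ 2) := by
      rw [Finset.mul_sum]
      refine Finset.sum_congr rfl fun p _ => ?_
      simp only [hw, Complex.ofReal_intCast]
      ring
    rw [h2]
    calc 2 * ∑ p ∈ P, Real.log p / p * Real.exp (-((x - Real.log p) * T) ^ 2 / 2) *
          ((p : ℝ) ^ (-(η / 2)) * ‖∑ i ∈ J, b i * (V i p : ℂ)‖ ^ 2)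
        ≤ 2 * (C₁ * (C / T * ∑ i ∈ J, ‖b i‖ ^ 2)) :=
          mul_le_mul_of_nonneg_left h1 (by positivity)
      _ = _ := by ring
  have h1 := Tw.family_mean_value P J (fun p : Nat.Primes => Real.log p) w j
    (fun p => (Zd.bq y η q p : ℂ)) (fun i p => ((V i p : ℤ) : ℝ)) T (2 * (C₁ * (C / T)))
    hT0 (by positivity) hw0 hj0 (fun p _ => by
      rw [Complex.norm_real, Real.norm_eq_abs]
      refine (Zd.abs_bq_le (n := 1) (fun p => by
        have := hy p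
        rw [Nat.cast_one, mul_one]
        exact this) q p).trans (le_of_eq ?_)
      rw [hlp', hw, hj]
      simp only
      rw [← hsplit p, Nat.cast_one]
      ring) hBB
  refine h1.trans ?_
  have h4 : ∑ p ∈ P, w p * j p ^ 2 ≤ 2 * (4 ^ q * (η⁻¹) ^ (2 * q)) * (C₈ / (η / 2)) := by
    have h5 : ∀ p ∈ P, w p * j p ^ 2 ≤ 2 * (4 ^ q * (η⁻¹) ^ (2 * q)) * Szf.lp (η / 2) p := by
      intro p _
      have hp : (0 : ℝ) < (p : ℕ) := by exact_mod_cast p.2.pos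
      have h6 := Zd.log_pow_sq_le hη q p
      have h7 : w p * j p ^ 2 =
          2 * (Real.log p / p * (p : ℝ) ^ (-(η / 2))) * (p : ℝ) ^ (-η) *
            (Real.log p ^ q / q !) ^ 2 := by
        rw [hw, hj]
        simp only
        rw [← hsplit p]
        ring
      have hl : 0 ≤ Real.log p := Real.log_natCast_nonneg _
      rw [h7]
      calc 2 * (Real.log p / p * (p : ℝ) ^ (-(η / 2))) * (p : ℝ) ^ (-η) *
            (Real.log p ^ q / q !) ^ 2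
          ≤ 2 * (Real.log p / p * (p : ℝ) ^ (-(η / 2))) * (p : ℝ) ^ (-η) *
              (4 ^ q * (η⁻¹) ^ (2 * q) * (p : ℝ) ^ η) := mul_le_mul_of_nonneg_left h6 (by positivity)
        _ = 2 * (4 ^ q * (η⁻¹) ^ (2 * q)) * (Real.log p / p * (p : ℝ) ^ (-(η / 2))) *
              ((p : ℝ) ^ (-η) * (p : ℝ) ^ η) := by ring
        _ = _ := by
            rw [← Real.rpow_add hp, neg_add_cancel, Real.rpow_zero, mul_one, hlp']
    refine (Finset.sum_le_sum h5).trans ?_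
    rw [← Finset.mul_sum]
    refine mul_le_mul_of_nonneg_left ?_ (by positivity)
    have hη2 : 0 < η / 2 := by positivity
    exact ((Szf.summable_lp hη2).sum_le_tsum P fun p _ => Szf.lp_nonneg (η / 2) p).trans
      (hlp (η / 2) hη2 (by linarith))
  calc 8 * T * (2 * (C₁ * (C / T))) * ∑ p ∈ P, w p * j p ^ 2
      ≤ 8 * T * (2 * (C₁ * (C / T))) * (2 * (4 ^ q * (η⁻¹) ^ (2 * q)) * (C₈ / (η / 2))) :=
        mul_le_mul_of_nonneg_left h4 (by positivity)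
    _ = 64 * (C₁ * (T * (C / T))) * C₈ * 4 ^ q * ((η⁻¹) ^ (2 * q) * η⁻¹) := by
        field_simp
        ring
    _ = 64 * (C₁ * C) * C₈ * 4 ^ q * (η⁻¹) ^ (2 * q + 1) := by
        have e : T * (C / T) = C := by field_simp
        rw [e, pow_succ η⁻¹]
    _ = 64 * (C₁ * C') * C₈ * (B + 1) * 4 ^ q * (η⁻¹) ^ (2 * q + 1) := by
        rw [hCdef]
        ring
    _ ≤ (64 * (C₁ * C') * C₈ + 1) * (B + 1) * 4 ^ q * (η⁻¹) ^ (2 * q + 1) := by
        gcongr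
        linarith

end Pool.Agent.MPfb225e.Qt
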