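import Mathlib
import Pool.Agent.Lib.MP_fb225e_nt.Qt.Main
import Pool.Agent.Lib.MP_fb225e_nt.Qt.Quot
import Pool.Agent.Lib.MP_fb225e_nt.Qt.Coeff

/-!
MP_fb225e_nt, project QT: the zeros of the quotients `L(E/K_i, s) / L(E/F_i, s)`.
-/

namespace Pool.Agent.MPfb225e.Qt

open Filter Topology Complex NumberField

universe u

theorem Pair.mono {M M' δ : ℝ} {v w : ℕ → ℤ} (h : Pair M δ v w) (hM : M ≤ M') :
    Pair M' δ v w := fun x hx =>
  (h x hx).trans (mul_le_mul_of_nonneg_right hM (Real.rpow_nonneg (by linarith) _))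

/-- From subfamilies of bounded size to the whole family. -/
theorem subfamily {N : ℕ} (a : Fin N → ℕ) (X C b e : ℝ) (hC : 0 < C) (hb : 1 ≤ b) (he : e ≤ 1 / 2)
    (hX : (C + 1) ^ 2 ≤ X)
    (h : ∀ J : Finset (Fin N), (J.card : ℝ) ≤ b * X → ∑ i ∈ J, (a i : ℝ) ≤ C * b * X ^ e) :
    ∑ i, (a i : ℝ) ≤ C * b * X ^ e := by
  classical
  have hX1 : 1 ≤ X := by nlinarith
  have hX0 : 0 < X := by linarith
  set Ex : Finset (Fin N) := Finset.univ.filter fun i => a i ≠ 0 with hEx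
  have hsum : ∑ i, (a i : ℝ) = ∑ i ∈ Ex, (a i : ℝ) := by
    rw [hEx, Finset.sum_filter]
    refine Finset.sum_congr rfl fun i _ => ?_
    by_cases h0 : a i = 0
    · simp [h0]
    · rw [if_pos h0]
  rw [hsum]
  refine h Ex ?_
  by_contra hcon
  push Not at hcon
  obtain ⟨J, hJ1, hJ2⟩ := Finset.exists_subset_card_eq (s := Ex) (n := ⌊b * X⌋₊)
    (Nat.floor_le_of_le hcon.le)
  have h1 : ((⌊b * X⌋₊ : ℕ) : ℝ) ≤ b * X := Nat.floor_le (by positivity)
  have h2 := h J (by rw [hJ2]; exact h1)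
  have h3 : (J.card : ℝ) ≤ ∑ i ∈ J, (a i : ℝ) := by
    rw [Finset.card_eq_sum_ones, Nat.cast_sum]
    refine Finset.sum_le_sum fun i hi => ?_
    have h4 := (Finset.mem_filter.1 (hJ1 hi)).2
    exact_mod_cast Nat.one_le_iff_ne_zero.2 h4
  have h5 : b * X < (⌊b * X⌋₊ : ℝ) + 1 := Nat.lt_floor_add_one _
  rw [hJ2] at h3
  have h6 : X ^ e ≤ √X := by
    rw [Real.sqrt_eq_rpow]
    exact Real.rpow_le_rpow_of_exponent_le hX1 he
  have h7 : C + 1 ≤ √X := Real.le_sqrt_of_sq_le hX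
  have h8 : √X * √X = X := Real.mul_self_sqrt hX0.le
  have h9 : C * b * X ^ e ≤ C * b * √X := mul_le_mul_of_nonneg_left h6 (by positivity)
  have h10 : (C * b + b) * √X ≤ b * X := by
    calc (C * b + b) * √X = b * ((C + 1) * √X) := by ring
      _ ≤ b * (√X * √X) := by
          refine mul_le_mul_of_nonneg_left ?_ (by linarith)
          exact mul_le_mul_of_nonneg_right h7 (Real.sqrt_nonneg _)
      _ = b * X := by rw [h8]
  have h11 : 1 ≤ √X := by linarith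
  nlinarith

/-- The splitting numbers. -/
noncomputable def nuDiff (F K : Type u) [Field F] [Field K] (p : ℕ) : ℤ :=
  (Fam.homCount K p : ℤ) - Fam.homCount F p

theorem abs_nuDiff_le (F K : Type u) [Field F] [NumberField F] [Field K] [NumberField K] {n : ℕ}
    (hF : Module.finrank ℚ F ≤ n) (hK : Module.finrank ℚ K ≤ n) {p : ℕ} (hp : p.Prime) :
    |nuDiff F K p| ≤ n := by
  have h1 := Fam.homCount_le K hp
  have h2 := Fam.homCount_le F hp
  rw [NumberField.RingOfIntegers.rank] at h1 h2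
  unfold nuDiff
  rw [abs_le]
  constructor <;> omega

/-- QT main. -/
theorem total (n : ℕ) : ∃ A : ℝ, 1 ≤ A ∧ ∀ ε δ : ℝ, 0 < ε → ε ≤ 1 / 2 → 0 < δ → δ ≤ 1 / 2 →
    ∃ C : ℝ, 0 < C ∧ ∀ (W : WeierstrassCurve ℤ), W.Δ ≠ 0 → ∀ (N B : ℕ) (F K : Fin N → Type u)
    [∀ i, Field (F i)] [∀ i, NumberField (F i)] [∀ i, Field (K i)] [∀ i, NumberField (K i)],
    (∀ i, Module.finrank ℚ (F i) ≤ n) → (∀ i, Module.finrank ℚ (K i) ≤ n) →
    ∀ LF LK Q : Fin N → ℂ → ℂ, (∀ i, Differentiable ℂ (LF i)) → (∀ i, Differentiable ℂ (Q i)) →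
    (∀ i, ∀ s : ℂ, 3 / 2 < s.re → LF i s = ((W.baseChange ℚ).baseChange (F i)).LSeries s) →
    (∀ i, ∀ s : ℂ, 3 / 2 < s.re → LK i s = ((W.baseChange ℚ).baseChange (K i)).LSeries s) →
    (∀ i s, LK i s = LF i s * Q i s) → ∀ T M : ℝ, 0 ≤ T → 2 ≤ M → |(W.Δ : ℝ)| ≤ M →
    (∀ i, ∀ s : ℂ, 3 / 2 - δ ≤ s.re → |s.im| ≤ T + 1 → ‖Q i s‖ ≤ M) →
    (∀ i, Set.ncard {j | ¬ Pair M δ (nuDiff (F i) (K i)) (nuDiff (F j) (K j))} ≤ B) →
    ∀ S : Fin N → Finset ℂ, (∀ i, ∀ x ∈ S i, 3 / 2 - ε * δ / A ≤ x.re ∧ |x.im| ≤ T) →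
    ∑ i, ∑ x ∈ S i, (analyticOrderNatAt (Q i) x : ℝ) ≤ C * (B + 1) * (M * (T + 2)) ^ ε := by
  classical
  obtain ⟨C₃, C₄, hC₃, hC₄, hdat⟩ := quot_dat.{u} n
  obtain ⟨K₀, C₇, hK₀, hC₇, hmain⟩ := count_aux.{0} n (2 * n) C₃ C₄ hC₃ hC₄
  refine ⟨K₀ + C₇, by linarith, ?_⟩
  intro ε δ hε hε1 hδ hδ1
  set A : ℝ := K₀ + C₇ with hA
  have hA0 : 0 < A := by positivity
  set η : ℝ := ε * δ / A with hη
  have hη0 : 0 < η := by positivity
  have hAη : A * η = ε * δ := by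
    rw [hη]
    field_simp
  have hηδ : A * η ≤ δ := by
    rw [hAη]
    nlinarith
  have hC₇η : C₇ * η ≤ δ := by
    refine le_trans (mul_le_mul_of_nonneg_right ?_ hη0.le) hηδ
    linarith
  have hη1 : η ≤ 1 := by nlinarith
  obtain ⟨C₁₀, hC₁₀, haux⟩ := hmain η hη0 hη1
  set CA : ℝ := C₁₀ * Real.exp K₀ / δ with hCA
  have hCA0 : 0 < CA := by positivity
  refine ⟨CA * (CA + 1), by positivity, ?_⟩
  intro W hW N B F K _ _ _ _ hdF hdK LF LK Q hLF hQ hLFs hLKs hfac T M hT hM hΔM hQM hB S hS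
  choose E hE using fun i => hdat (F i) (K i) ((W.baseChange ℚ).baseChange (F i))
    ((W.baseChange ℚ).baseChange (K i)) (hdF i) (hdK i) (LF i) (LK i) (Q i) (hLF i) (hQ i)
    (hLFs i) (hLKs i) (hfac i)
  set M' : ℝ := (CA + 1) ^ 2 * M with hM'
  have hCA1 : 1 ≤ (CA + 1) ^ 2 := by nlinarith
  have hMM : M ≤ M' := le_mul_of_one_le_left (by linarith) hCA1
  have hX0 : 0 < M * (T + 2) := by nlinarith
  have hX1 : 1 ≤ M * (T + 2) := by nlinarith
  set X : ℝ := M' * (T + 2) with hXdef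
  have hXe : X = (CA + 1) ^ 2 * (M * (T + 2)) := by rw [hXdef, hM']; ring
  have hXC : (CA + 1) ^ 2 ≤ X := by
    rw [hXe]
    exact le_mul_of_one_le_right (by positivity) hX1
  have hX2 : 1 ≤ X := hCA1.trans hXC
  have hcoef : ∀ i, ∀ p : ℕ, p.Prime → 3 < p → M' < p →
      (Tw.yg ((W.baseChange ℚ).baseChange (K i)) p - Tw.yg ((W.baseChange ℚ).baseChange (F i)) p) =
      (nuDiff (F i) (K i) p : ℝ) * Fam.yy W p := by
    intro i p hp h3 hpM
    have hΔ : ((W.Δ : ℤ) : ZMod p) ≠ 0 := by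
      intro h
      rw [ZMod.intCast_zmod_eq_zero_iff_dvd] at h
      have h4 := Int.le_of_dvd (abs_pos.2 hW) ((dvd_abs _ _).2 h)
      have h5 : ((p : ℕ) : ℝ) ≤ |(W.Δ : ℝ)| := by exact_mod_cast h4
      linarith
    rw [yg_baseChange W (K i) hp h3 hΔ, yg_baseChange W (F i) hp h3 hΔ]
    unfold nuDiff
    push_cast
    ring
  have hsub : ∀ J : Finset (Fin N), (J.card : ℝ) ≤ ((B : ℝ) + 1) * X →
      ∑ i ∈ J, ((∑ x ∈ S i, analyticOrderNatAt (Q i) x : ℕ) : ℝ) ≤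
        CA * ((B : ℝ) + 1) * X ^ ε := by
    intro J hJ
    have h1 := haux B (Fin N) J Q E
      (fun i p => Tw.yg ((W.baseChange ℚ).baseChange (K i)) p -
        Tw.yg ((W.baseChange ℚ).baseChange (F i)) p) (Fam.yy W)
      (fun i p => nuDiff (F i) (K i) p) δ T M' hδ hδ1 hT (hM.trans hMM) (fun i _ => hE i)
      (Fam.abs_yy_le W) (fun i _ p hp => abs_nuDiff_le (F i) (K i) (hdF i) (hdK i) hp)
      (fun i _ => (Set.ncard_le_ncard (fun j hj => fun h => hj.2 (h.mono hMM))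
        (Set.toFinite _)).trans (hB i)) (fun i _ => hcoef i)
      (fun i _ s h1 h2 => (hQM i s h1 h2).trans hMM) hJ hC₇η S (fun i _ => hS i)
    push_cast
    refine h1.trans ?_
    have hLg : Zfr.Lg M' T δ = Real.log (X / δ) := rfl
    have hXδ : 1 ≤ X / δ := by
      rw [le_div_iff₀ hδ]
      linarith
    have hXδ0 : 0 < X / δ := by linarith
    have h2 : K₀ * (1 + η * (Zfr.Lg M' T δ / δ)) ≤ K₀ + ε * Real.log (X / δ) := by
      rw [hLg]
      have h3 : K₀ * (η * (Real.log (X / δ) / δ)) ≤ A * (η * (Real.log (X / δ) / δ)) := by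
        refine mul_le_mul_of_nonneg_right (by linarith) ?_
        have := Real.log_nonneg hXδ
        positivity
      have h4 : A * (η * (Real.log (X / δ) / δ)) = ε * Real.log (X / δ) := by
        calc A * (η * (Real.log (X / δ) / δ)) = (A * η) * Real.log (X / δ) / δ := by ring
          _ = ε * δ * Real.log (X / δ) / δ := by rw [hAη]
          _ = _ := by field_simp
      linarith
    have h5 : Real.exp (K₀ * (1 + η * (Zfr.Lg M' T δ / δ))) ≤
        Real.exp K₀ * (X ^ ε * (1 / δ)) := by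
      refine (Real.exp_le_exp.2 h2).trans ?_
      rw [Real.exp_add]
      refine mul_le_mul_of_nonneg_left ?_ (Real.exp_pos _).le
      have e : Real.exp (ε * Real.log (X / δ)) = (X / δ) ^ ε := by
        rw [Real.rpow_def_of_pos hXδ0, mul_comm]
      rw [e, div_eq_mul_one_div, Real.mul_rpow (by linarith) (by positivity)]
      refine mul_le_mul_of_nonneg_left ?_ (by positivity)
      have h6 : 1 ≤ 1 / δ := by
        rw [le_div_iff₀ hδ]
        linarith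
      calc (1 / δ) ^ ε ≤ (1 / δ) ^ (1 : ℝ) :=
            Real.rpow_le_rpow_of_exponent_le h6 (by linarith)
        _ = 1 / δ := Real.rpow_one _
    calc C₁₀ * (B + 1) * Real.exp (K₀ * (1 + η * (Zfr.Lg M' T δ / δ)))
        ≤ C₁₀ * (B + 1) * (Real.exp K₀ * (X ^ ε * (1 / δ))) :=
          mul_le_mul_of_nonneg_left h5 (by positivity)
      _ = _ := by rw [hCA]; ring
  have h1 := subfamily (fun i => ∑ x ∈ S i, analyticOrderNatAt (Q i) x) X CA ((B : ℝ) + 1) ε hCA0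
    (by
      have : (0 : ℝ) ≤ B := Nat.cast_nonneg B
      linarith) hε1 hXC hsub
  push_cast at h1
  refine h1.trans ?_
  have h2 : X ^ ε ≤ (CA + 1) * (M * (T + 2)) ^ ε := by
    rw [hXe, Real.mul_rpow (by positivity) hX0.le]
    refine mul_le_mul_of_nonneg_right ?_ (by positivity)
    have h3 : ((CA + 1) ^ 2) ^ ε ≤ ((CA + 1) ^ 2) ^ (1 / 2 : ℝ) :=
      Real.rpow_le_rpow_of_exponent_le hCA1 hε1
    rwa [← Real.sqrt_eq_rpow, Real.sqrt_sq (by positivity)] at h3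
  calc CA * ((B : ℝ) + 1) * X ^ ε ≤ CA * ((B : ℝ) + 1) * ((CA + 1) * (M * (T + 2)) ^ ε) :=
        mul_le_mul_of_nonneg_left h2 (by positivity)
    _ = _ := by ring

end Pool.Agent.MPfb225e.Qt
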