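import Mathlib

/-!
MP_fb225e_nt, project QT: sums of `k ^ ω(m)` over the squarefree numbers of a short interval.
-/

namespace Pool.Agent.MPfb225e.Qt

open Finset

/-- A squarefree number `m` has a divisor `d`, `d ^ 2 ≤ m`, with half of the prime factors. -/
theorem half_div {m : ℕ} (hm : Squarefree m) : ∃ d, d ∣ m ∧ d * d ≤ m ∧
    m.primeFactors.card ≤ 2 * d.primeFactors.card + 1 := by
  obtain ⟨S, hS, hSc⟩ := Finset.exists_subset_card_eq (s := m.primeFactors)
    (n := m.primeFactors.card / 2) (Nat.div_le_self _ _)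
  have h1 : m.primeFactors.card / 2 ≤ (m.primeFactors \ S).card := by
    rw [Finset.card_sdiff_of_subset hS, hSc]
    omega
  obtain ⟨S', hS', hSc'⟩ := Finset.exists_subset_card_eq h1
  have hdis : Disjoint S S' := by
    refine Finset.disjoint_left.2 fun x hx hx' => ?_
    exact (Finset.mem_sdiff.1 (hS' hx')).2 hx
  have hS'm : S' ⊆ m.primeFactors := hS'.trans Finset.sdiff_subset
  have hprod : (∏ p ∈ S, p) * (∏ p ∈ S', p) ≤ m := by
    rw [← Finset.prod_union hdis]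
    have h2 : (∏ p ∈ S ∪ S', p) ∣ ∏ p ∈ m.primeFactors, p :=
      Finset.prod_dvd_prod_of_subset _ _ _ (Finset.union_subset hS hS'm)
    rw [Nat.prod_primeFactors_of_squarefree hm] at h2
    exact Nat.le_of_dvd (Nat.pos_of_ne_zero hm.ne_zero) h2
  have key : ∀ R : Finset ℕ, R ⊆ m.primeFactors → R.card = m.primeFactors.card / 2 →
      (∏ p ∈ R, p) ∣ m ∧ m.primeFactors.card ≤ 2 * (∏ p ∈ R, p).primeFactors.card + 1 := by
    intro R hR hRc
    constructor
    · have h2 := Finset.prod_dvd_prod_of_subset _ _ (fun p => p) hR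
      rwa [Nat.prod_primeFactors_of_squarefree hm] at h2
    · rw [Nat.primeFactors_prod fun p hp => Nat.prime_of_mem_primeFactors (hR hp), hRc]
      omega
  rcases le_total (∏ p ∈ S, p) (∏ p ∈ S', p) with h | h
  · exact ⟨∏ p ∈ S, p, (key S hS hSc).1, (Nat.mul_le_mul_left _ h).trans hprod,
      (key S hS hSc).2⟩
  · exact ⟨∏ p ∈ S', p, (key S' hS'm hSc').1, (Nat.mul_le_mul_right _ h).trans hprod,
      (key S' hS'm hSc').2⟩

theorem card_dvd_le (a b d : ℕ) (hab : a ≤ b) (hd : 1 ≤ d) :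
    (((Ioc a b).filter (d ∣ ·)).card : ℝ) ≤ ((b : ℝ) - a) / d + 1 := by
  have h1 : ((Ioc a b).filter (d ∣ ·)).card = b / d - a / d := by
    have h2 := Nat.Ioc_filter_dvd_card_eq_div b d
    have h3 := Nat.Ioc_filter_dvd_card_eq_div a d
    have h4 : (Ioc 0 b).filter (d ∣ ·) = (Ioc 0 a).filter (d ∣ ·) ∪ (Ioc a b).filter (d ∣ ·) := by
      ext m
      simp only [mem_filter, mem_Ioc, mem_union]
      constructor
      · rintro ⟨⟨h5, h6⟩, h7⟩
        rcases le_or_gt m a with h8 | h8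
        · exact Or.inl ⟨⟨h5, h8⟩, h7⟩
        · exact Or.inr ⟨⟨h8, h6⟩, h7⟩
      · rintro (⟨⟨h5, h6⟩, h7⟩ | ⟨⟨h5, h6⟩, h7⟩)
        · exact ⟨⟨h5, h6.trans hab⟩, h7⟩
        · exact ⟨⟨by omega, h6⟩, h7⟩
    have h5 : Disjoint ((Ioc 0 a).filter (d ∣ ·)) ((Ioc a b).filter (d ∣ ·)) := by
      rw [disjoint_left]
      intro m h6 h7
      simp only [mem_filter, mem_Ioc] at h6 h7
      omega
    have h6 := congrArg Finset.card h4
    rw [card_union_of_disjoint h5, h2, h3] at h6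
    omega
  have h2 : a / d ≤ b / d := Nat.div_le_div_right hab
  rw [h1, Nat.cast_sub h2]
  have hd0 : (0 : ℝ) < d := by exact_mod_cast hd
  have h3 : ((b / d : ℕ) : ℝ) ≤ (b : ℝ) / d := Nat.cast_div_le
  have h4 : (a : ℝ) / d < ((a / d : ℕ) : ℝ) + 1 := by
    rw [div_lt_iff₀ hd0]
    have h5 := Nat.lt_div_mul_add (a := a) hd
    have h6 : (a : ℝ) < ((a / d * d + d : ℕ) : ℝ) := by exact_mod_cast h5
    push_cast at h6
    nlinarith
  rw [sub_div]
  linarith

/-- The sums of `k ^ ω(m)` over an interval. -/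
theorem omega_interval (k a b : ℕ) (hk : 1 ≤ k) (hab : a ≤ b) :
    ∑ m ∈ (Ioc a b).filter Squarefree, (k : ℝ) ^ m.primeFactors.card ≤
      k * ∑ d ∈ (Icc 1 (Nat.sqrt b)).filter Squarefree,
        (((k ^ 2 : ℕ)) : ℝ) ^ d.primeFactors.card * (((b : ℝ) - a) / d + 1) := by
  have hk1 : (1 : ℝ) ≤ k := by exact_mod_cast hk
  have h1 : ∀ m ∈ (Ioc a b).filter Squarefree, (k : ℝ) ^ m.primeFactors.card ≤
      ∑ d ∈ (Icc 1 (Nat.sqrt b)).filter Squarefree,
        if d ∣ m then (k : ℝ) * (((k ^ 2 : ℕ)) : ℝ) ^ d.primeFactors.card else 0 := by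
    intro m hm
    rw [mem_filter, mem_Ioc] at hm
    obtain ⟨d, hd1, hd2, hd3⟩ := half_div hm.2
    have hd0 : 1 ≤ d := Nat.pos_of_dvd_of_pos hd1 (by omega)
    have hdmem : d ∈ (Icc 1 (Nat.sqrt b)).filter Squarefree := by
      rw [mem_filter, mem_Icc]
      exact ⟨⟨hd0, Nat.le_sqrt.2 (hd2.trans hm.1.2)⟩, hm.2.squarefree_of_dvd hd1⟩
    refine le_trans ?_ (Finset.single_le_sum (f := fun d => if d ∣ m then (k : ℝ) *
      (((k ^ 2 : ℕ)) : ℝ) ^ d.primeFactors.card else 0) (fun e _ => by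
        split_ifs <;> positivity) hdmem)
    rw [if_pos hd1]
    calc (k : ℝ) ^ m.primeFactors.card ≤ (k : ℝ) ^ (2 * d.primeFactors.card + 1) :=
          pow_le_pow_right₀ hk1 hd3
      _ = _ := by
          push_cast
          rw [pow_succ, pow_mul]
          ring
  refine (sum_le_sum h1).trans ?_
  rw [sum_comm, mul_sum]
  refine sum_le_sum fun d hd => ?_
  rw [mem_filter, mem_Icc] at hd
  have h2 : ∑ m ∈ (Ioc a b).filter Squarefree,
      (if d ∣ m then (k : ℝ) * (((k ^ 2 : ℕ)) : ℝ) ^ d.primeFactors.card else 0) ≤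
      ∑ m ∈ Ioc a b,
      (if d ∣ m then (k : ℝ) * (((k ^ 2 : ℕ)) : ℝ) ^ d.primeFactors.card else 0) :=
    sum_le_sum_of_subset_of_nonneg (filter_subset _ _) fun m _ _ => by
      split_ifs <;> positivity
  refine h2.trans ?_
  rw [← sum_filter, sum_const, nsmul_eq_mul]
  have h3 := card_dvd_le a b d hab hd.1.1
  calc _ ≤ (((b : ℝ) - a) / d + 1) * ((k : ℝ) * (((k ^ 2 : ℕ)) : ℝ) ^ d.primeFactors.card) :=
        mul_le_mul_of_nonneg_right h3 (by positivity)
    _ = _ := by ring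

/-- The sums of `a ^ ω(d) / d`. -/
theorem omega_div (N : ℕ) : ∀ a : ℕ,
    ∑ d ∈ (Icc 1 N).filter Squarefree, (a : ℝ) ^ d.primeFactors.card / d ≤
      (1 + Real.log N) ^ a := by
  intro a
  have hlog : 0 ≤ Real.log N := Real.log_natCast_nonneg N
  induction a with
  | zero =>
    rw [pow_zero]
    have h1 : ∀ d ∈ (Icc 1 N).filter Squarefree,
        ((0 : ℕ) : ℝ) ^ d.primeFactors.card / d = if d = 1 then 1 else 0 := by
      intro d hd
      rw [mem_filter, mem_Icc] at hd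
      split_ifs with h
      · rw [h]
        simp
      · have h2 : d.primeFactors.card ≠ 0 := by
          rw [Ne, Finset.card_eq_zero, Nat.primeFactors_eq_empty]
          omega
        rw [Nat.cast_zero, zero_pow h2, zero_div]
    rw [sum_congr rfl h1, sum_ite_eq']
    split_ifs <;> norm_num
  | succ a ih =>
    set D := (Icc 1 N).filter Squarefree with hD
    have h1 : ∀ d ∈ D, ((a + 1 : ℕ) : ℝ) ^ d.primeFactors.card / d =
        ∑ S ∈ d.primeFactors.powerset, (a : ℝ) ^ S.card / d := by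
      intro d _
      have h2 := Finset.sum_pow_mul_eq_add_pow (a : ℝ) 1 d.primeFactors
      simp only [one_pow, mul_one] at h2
      rw [← sum_div, h2]
      push_cast
      rfl
    rw [sum_congr rfl h1, sum_sigma']
    -- pairs
    set g : (Σ _ : ℕ, Finset ℕ) → ℕ × ℕ := fun x => (∏ p ∈ x.2, p, x.1 / ∏ p ∈ x.2, p) with hg
    have hmem : ∀ x ∈ D.sigma fun d => d.primeFactors.powerset,
        (∏ p ∈ x.2, p) ∣ x.1 ∧ (∏ p ∈ x.2, p).primeFactors = x.2 ∧ 1 ≤ x.1 ∧ x.1 ≤ N ∧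
        Squarefree x.1 := by
      rintro ⟨d, S⟩ hx
      rw [mem_sigma, mem_powerset, hD, mem_filter, mem_Icc] at hx
      obtain ⟨⟨⟨h2, h3⟩, h4⟩, h5⟩ := hx
      refine ⟨?_, ?_, h2, h3, h4⟩
      · have h6 := Finset.prod_dvd_prod_of_subset _ _ (fun p => p) h5
        rwa [Nat.prod_primeFactors_of_squarefree h4] at h6
      · exact Nat.primeFactors_prod fun p hp => Nat.prime_of_mem_primeFactors (h5 hp)
    have hinj : Set.InjOn g (D.sigma fun d => d.primeFactors.powerset) := by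
      intro x hx y hy hxy
      obtain ⟨h2, h3, h4, -, -⟩ := hmem x hx
      obtain ⟨h2', h3', h4', -, -⟩ := hmem y hy
      rw [hg] at hxy
      simp only [Prod.mk.injEq] at hxy
      have e1 : x.2 = y.2 := by rw [← h3, ← h3', hxy.1]
      have e2 : x.1 = y.1 := by
        rw [← Nat.div_mul_cancel h2, ← Nat.div_mul_cancel h2', hxy.2, hxy.1]
      exact Sigma.ext e2 (heq_of_eq e1)
    have h2 : ∑ x ∈ D.sigma (fun d => d.primeFactors.powerset), (a : ℝ) ^ x.2.card / x.1 =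
        ∑ y ∈ (D.sigma fun d => d.primeFactors.powerset).image g,
          (a : ℝ) ^ y.1.primeFactors.card / y.1 * (1 / y.2) := by
      rw [sum_image hinj]
      refine sum_congr rfl fun x hx => ?_
      obtain ⟨h2, h3, h4, -, -⟩ := hmem x hx
      rw [hg]
      simp only
      rw [h3]
      have h5 : ((x.1 : ℕ) : ℝ) = ((∏ p ∈ x.2, p : ℕ) : ℝ) *
          ((x.1 / ∏ p ∈ x.2, p : ℕ) : ℝ) := by
        rw [← Nat.cast_mul, Nat.mul_div_cancel' h2]
      rw [h5]
      ring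
    rw [h2]
    have h3 : (D.sigma fun d => d.primeFactors.powerset).image g ⊆ D ×ˢ Icc 1 N := by
      intro y hy
      obtain ⟨x, hx, rfl⟩ := mem_image.1 hy
      obtain ⟨h2, h3, h4, h5, h6⟩ := hmem x hx
      have h7 : 1 ≤ ∏ p ∈ x.2, p := Nat.pos_of_dvd_of_pos h2 h4
      rw [mem_product, hD, mem_filter, mem_Icc, mem_Icc]
      refine ⟨⟨⟨h7, (Nat.le_of_dvd h4 h2).trans h5⟩, h6.squarefree_of_dvd h2⟩, ?_, ?_⟩
      · exact Nat.div_pos (Nat.le_of_dvd h4 h2) h7
      · exact (Nat.div_le_self _ _).trans h5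
    refine (sum_le_sum_of_subset_of_nonneg h3 fun y _ _ => by positivity).trans ?_
    rw [sum_product, pow_succ]
    have h4 : ∀ e ∈ D, ∑ f ∈ Icc 1 N, (a : ℝ) ^ e.primeFactors.card / e * (1 / (f : ℝ)) =
        (a : ℝ) ^ e.primeFactors.card / e * ∑ f ∈ Icc 1 N, 1 / (f : ℝ) := fun e _ =>
      (mul_sum _ _ _).symm
    rw [sum_congr rfl h4, ← sum_mul]
    have h5 : ∑ f ∈ Icc 1 N, 1 / (f : ℝ) ≤ 1 + Real.log N := by
      have h6 := harmonic_le_one_add_log N
      have h7 : ((harmonic N : ℚ) : ℝ) = ∑ f ∈ Icc 1 N, 1 / (f : ℝ) := by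
        rw [harmonic_eq_sum_Icc]
        push_cast
        exact sum_congr rfl fun f _ => by rw [one_div]
      rwa [h7] at h6
    exact mul_le_mul ih h5 (sum_nonneg fun f _ => by positivity) (by positivity)

/-- The sums of `k ^ ω(m)` over a short window. -/
theorem omega_window (k : ℕ) (hk : 1 ≤ k) {u T : ℝ} (hT : 1 ≤ T) (hu : 0 ≤ u)
    (hTu : T ≤ Real.exp (u / 2)) :
    ∑ m ∈ (Ioc ⌊Real.exp u⌋₊ ⌊Real.exp (u + 2 / T)⌋₊).filter Squarefree,
      (k : ℝ) ^ m.primeFactors.card ≤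
      (20 * k * 2 ^ k ^ 2) * (Real.exp u / T) * (u + 2) ^ k ^ 2 := by
  have hT0 : 0 < T := by linarith
  have h2T : 0 < 2 / T := by positivity
  obtain ⟨a, ha⟩ : ∃ a, a = ⌊Real.exp u⌋₊ := ⟨_, rfl⟩
  obtain ⟨b, hb⟩ : ∃ b, b = ⌊Real.exp (u + 2 / T)⌋₊ := ⟨_, rfl⟩
  have hab : a ≤ b := by
    rw [ha, hb]
    exact Nat.floor_mono (Real.exp_le_exp.2 (by linarith))
  have ha1 : 1 ≤ a := by
    rw [ha]
    exact Nat.le_floor (by rw [Nat.cast_one]; exact Real.one_le_exp hu)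
  have hTe : T ≤ Real.exp u := hTu.trans (Real.exp_le_exp.2 (by linarith))
  have he8 : Real.exp (2 / T) ≤ 8 := by
    have h3 : 2 / T ≤ 2 := by
      rw [div_le_iff₀ hT0]
      linarith
    have h6 : Real.exp (2 / T) ≤ Real.exp 2 := Real.exp_le_exp.2 h3
    have h7 : Real.exp 2 = Real.exp 1 * Real.exp 1 := by
      rw [← Real.exp_add]
      norm_num
    have h8 : Real.exp 1 < 2.7182818286 := Real.exp_one_lt_d9
    have h9 : 0 < Real.exp 1 := Real.exp_pos 1
    nlinarith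
  have hb8 : (b : ℝ) ≤ 8 * Real.exp u := by
    rw [hb]
    refine (Nat.floor_le (Real.exp_pos _).le).trans ?_
    rw [Real.exp_add, mul_comm]
    exact mul_le_mul_of_nonneg_right he8 (Real.exp_pos u).le
  have hba : (b : ℝ) - a ≤ 17 * (Real.exp u / T) := by
    have h1 : (b : ℝ) ≤ Real.exp (u + 2 / T) := hb ▸ Nat.floor_le (Real.exp_pos _).le
    have h2 : Real.exp u < (a : ℝ) + 1 := ha ▸ Nat.lt_floor_add_one _
    have h10 := Real.add_one_le_exp (-(2 / T))
    have h11 : Real.exp (2 / T) * Real.exp (-(2 / T)) = 1 := by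
      rw [← Real.exp_add, add_neg_cancel, Real.exp_zero]
    have h12 : Real.exp (2 / T) - 1 ≤ (2 / T) * Real.exp (2 / T) := by
      nlinarith [Real.exp_pos (2 / T)]
    have h13 : Real.exp (2 / T) - 1 ≤ 16 / T := by
      calc Real.exp (2 / T) - 1 ≤ (2 / T) * Real.exp (2 / T) := h12
        _ ≤ (2 / T) * 8 := mul_le_mul_of_nonneg_left he8 h2T.le
        _ = 16 / T := by ring
    have h14 : 1 ≤ Real.exp u / T := by
      rw [le_div_iff₀ hT0]
      linarith
    have h15 := mul_le_mul_of_nonneg_left h13 (Real.exp_pos u).le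
    rw [Real.exp_add] at h1
    calc (b : ℝ) - a ≤ Real.exp u * (Real.exp (2 / T) - 1) + 1 := by
          rw [mul_sub]
          linarith
      _ ≤ Real.exp u * (16 / T) + Real.exp u / T := by linarith
      _ = _ := by ring
  obtain ⟨N, hN⟩ : ∃ N, N = Nat.sqrt b := ⟨_, rfl⟩
  have hN1 : 1 ≤ N := by
    rw [hN, Nat.le_sqrt]
    omega
  have hN1' : (1 : ℝ) ≤ N := by exact_mod_cast hN1
  have hNe : (N : ℝ) ≤ 3 * Real.exp (u / 2) := by
    have h1 : N * N ≤ b := by
      rw [hN]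
      exact Nat.sqrt_le b
    have h2 : (N : ℝ) * N ≤ 8 * Real.exp u := by
      refine le_trans ?_ hb8
      exact_mod_cast h1
    have h3 : Real.exp u = Real.exp (u / 2) * Real.exp (u / 2) := by
      rw [← Real.exp_add]
      congr 1
      ring
    rw [h3] at h2
    have h4 : 0 < Real.exp (u / 2) := Real.exp_pos _
    nlinarith
  have hNT : (N : ℝ) ≤ 3 * (Real.exp u / T) := by
    refine hNe.trans (mul_le_mul_of_nonneg_left ?_ (by norm_num))
    rw [le_div_iff₀ hT0]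
    have h3 : Real.exp u = Real.exp (u / 2) * Real.exp (u / 2) := by
      rw [← Real.exp_add]
      congr 1
      ring
    rw [h3]
    exact mul_le_mul_of_nonneg_left hTu (Real.exp_pos _).le
  have hlogN : 1 + Real.log N ≤ 2 * (u + 2) := by
    have h1 : Real.log N ≤ Real.log (3 * Real.exp (u / 2)) :=
      Real.log_le_log (by linarith) hNe
    rw [Real.log_mul (by norm_num) (Real.exp_pos _).ne', Real.log_exp] at h1
    have h2 : Real.log 3 ≤ 2 := by
      have := Real.log_le_sub_one_of_pos (by norm_num : (0 : ℝ) < 3)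
      linarith
    linarith
  have hlog0 : 0 ≤ 1 + Real.log N := by
    have := Real.log_natCast_nonneg N
    linarith
  have h1 := omega_interval k a b hk hab
  rw [← ha, ← hb]
  refine h1.trans ?_
  rw [← hN]
  have hba0 : (0 : ℝ) ≤ (b : ℝ) - a := by
    have : (a : ℝ) ≤ b := by exact_mod_cast hab
    linarith
  have h2 : ∑ d ∈ (Icc 1 N).filter Squarefree,
      (((k ^ 2 : ℕ)) : ℝ) ^ d.primeFactors.card * (((b : ℝ) - a) / d + 1) ≤
      ((b : ℝ) - a + N) * ∑ d ∈ (Icc 1 N).filter Squarefree,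
        (((k ^ 2 : ℕ)) : ℝ) ^ d.primeFactors.card / d := by
    rw [mul_sum]
    refine sum_le_sum fun d hd => ?_
    rw [mem_filter, mem_Icc] at hd
    have hd0 : (0 : ℝ) < d := by exact_mod_cast hd.1.1
    have hdN : (d : ℝ) ≤ N := by exact_mod_cast hd.1.2
    have h3 : 1 ≤ (N : ℝ) / d := by
      rw [le_div_iff₀ hd0]
      linarith
    calc _ ≤ (((k ^ 2 : ℕ)) : ℝ) ^ d.primeFactors.card * (((b : ℝ) - a) / d + N / d) :=
          mul_le_mul_of_nonneg_left (by linarith) (by positivity)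
      _ = _ := by ring
  have h3 := omega_div N (k ^ 2)
  have h4 : (1 + Real.log N) ^ k ^ 2 ≤ 2 ^ k ^ 2 * (u + 2) ^ k ^ 2 := by
    rw [← mul_pow]
    exact pow_le_pow_left₀ hlog0 hlogN _
  have hu2 : 0 ≤ u + 2 := by linarith
  have h5 : (b : ℝ) - a + N ≤ 20 * (Real.exp u / T) := by linarith
  calc (k : ℝ) * ∑ d ∈ (Icc 1 N).filter Squarefree,
        (((k ^ 2 : ℕ)) : ℝ) ^ d.primeFactors.card * (((b : ℝ) - a) / d + 1)
      ≤ k * ((20 * (Real.exp u / T)) * (2 ^ k ^ 2 * (u + 2) ^ k ^ 2)) := by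
        refine mul_le_mul_of_nonneg_left (h2.trans ?_) (by positivity)
        exact mul_le_mul h5 (h3.trans h4) (sum_nonneg fun d _ => by positivity) (by positivity)
    _ = _ := by ring

/-- Powers against exponentials. -/
theorem pow_mul_exp_le (j : ℕ) (hj : 1 ≤ j) {η u : ℝ} (hη : 0 < η) (hη1 : η ≤ 1) (hu : 0 ≤ u) :
    (u + 2) ^ j * Real.exp (-(η * u)) ≤ (2 * j) ^ j * (η⁻¹) ^ j := by
  have hj0 : (1 : ℝ) ≤ j := by exact_mod_cast hj
  have hc : 1 ≤ (j : ℝ) * η⁻¹ := by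
    have : 1 ≤ η⁻¹ := (one_le_inv₀ hη).2 hη1
    nlinarith
  have hc0 : 0 < (j : ℝ) * η⁻¹ := by linarith
  have h1 : u + 2 ≤ 2 * (j * η⁻¹) * Real.exp (u / (j * η⁻¹)) := by
    have h2 := Real.add_one_le_exp (u / (j * η⁻¹))
    have h3 : (j * η⁻¹) * (u / (j * η⁻¹) + 1) ≤ (j * η⁻¹) * Real.exp (u / (j * η⁻¹)) :=
      mul_le_mul_of_nonneg_left h2 hc0.le
    have h4 : (j * η⁻¹) * (u / (j * η⁻¹) + 1) = u + j * η⁻¹ := by
      rw [mul_add, mul_div_cancel₀ _ hc0.ne', mul_one]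
    rw [h4] at h3
    linarith
  have h5 : (u + 2) ^ j ≤ (2 * (j * η⁻¹) * Real.exp (u / (j * η⁻¹))) ^ j :=
    pow_le_pow_left₀ (by linarith) h1 j
  have h6 : Real.exp (u / (j * η⁻¹)) ^ j = Real.exp (η * u) := by
    rw [← Real.exp_nat_mul]
    congr 1
    field_simp
  rw [mul_pow, h6] at h5
  have h7 : Real.exp (η * u) * Real.exp (-(η * u)) = 1 := by
    rw [← Real.exp_add, add_neg_cancel, Real.exp_zero]
  calc (u + 2) ^ j * Real.exp (-(η * u)) ≤
        ((2 * (j * η⁻¹)) ^ j * Real.exp (η * u)) * Real.exp (-(η * u)) :=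
        mul_le_mul_of_nonneg_right h5 (Real.exp_pos _).le
    _ = (2 * (j * η⁻¹)) ^ j * (Real.exp (η * u) * Real.exp (-(η * u))) := by ring
    _ = _ := by rw [h7, mul_one, ← mul_assoc, mul_pow]

end Pool.Agent.MPfb225e.Qt
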