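import Mathlib
import Pool.Agent.Lib.MP_fb225e_nt.Qt.Win2
import Pool.Agent.Lib.MP_fb225e_nt.Qt.Omega

/-!
MP_fb225e_nt, project QT: the sums over the primes of a short window, with explicit dependence on
the exponent.
-/

namespace Pool.Agent.MPfb225e.Qt

open Finset

universe v

/-- QT: the sums over the primes of a short window. -/
theorem quot_window2 (n : ℕ) : ∃ (C : ℝ) (A : ℕ), 0 < C ∧ ∀ η : ℝ, 0 < η → η ≤ 1 →
    ∀ (B : ℕ) (κ : Type v) (J : Finset κ) (V : κ → ℕ → ℤ) (T u δ M : ℝ), 1 ≤ T → 0 ≤ u →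
    T ≤ Real.exp (u / 2) → 0 < δ →
    δ ≤ 1 / 2 → 1 ≤ M → (∀ i ∈ J, ∀ p, p.Prime → |V i p| ≤ n) →
    (∀ i ∈ J, Set.ncard {j : κ | j ∈ J ∧ ¬ Pair M δ (V i) (V j)} ≤ B) →
    (J.card : ℝ) * M * T ≤ (B + 1) * Real.exp (δ * u) →
    ∀ P : Finset Nat.Primes, (∀ p ∈ P, u < Real.log p ∧ Real.log p ≤ u + 2 / T) →
    ∀ b : κ → ℂ, ∑ p ∈ P, Real.log p / p * ((p : ℝ) ^ (-η) * ‖∑ i ∈ J, b i * (V i p : ℂ)‖ ^ 2) ≤
      C * (η⁻¹) ^ A * (B + 1) / T * ∑ i ∈ J, ‖b i‖ ^ 2 := by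
  classical
  obtain ⟨k, hk⟩ : ∃ k : ℕ, k = (n + 1) ^ 2 := ⟨_, rfl⟩
  have hk1 : 1 ≤ k := by
    rw [hk]
    exact Nat.one_le_pow _ _ (Nat.succ_pos n)
  obtain ⟨j₀, hj₀⟩ : ∃ j₀ : ℕ, j₀ = k ^ 2 + 1 := ⟨_, rfl⟩
  have hj₀1 : 1 ≤ j₀ := by omega
  obtain ⟨C₃, hC₃⟩ : ∃ C₃ : ℝ, C₃ = 20 * k * 2 ^ k ^ 2 := ⟨_, rfl⟩
  have hkR : (1 : ℝ) ≤ k := by exact_mod_cast hk1
  have hC₃0 : 0 < C₃ := by rw [hC₃]; positivity
  have hj₀R : (1 : ℝ) ≤ j₀ := by exact_mod_cast hj₀1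
  refine ⟨(C₃ + 16) * (2 * j₀) ^ j₀, j₀, by positivity, ?_⟩
  intro η hη hη1 B κ J V T u δ M hT hu hTu2 hδ hδ1 hM hV hB hJ P hP b
  have hT0 : 0 < T := by linarith
  have hS0 : 0 ≤ ∑ i ∈ J, ‖b i‖ ^ 2 := sum_nonneg fun _ _ => sq_nonneg _
  -- pointwise
  have hlog : ∀ p ∈ P, Real.log p / p * ((p : ℝ) ^ (-η) * ‖∑ i ∈ J, b i * (V i p : ℂ)‖ ^ 2) ≤
      (u + 2) * Real.exp (-u) * Real.exp (-(η * u)) * ‖∑ i ∈ J, b i * (V i p : ℂ)‖ ^ 2 := by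
    intro p hp
    obtain ⟨h1, h2⟩ := hP p hp
    have hp0 : (0 : ℝ) < (p : ℕ) := by exact_mod_cast p.2.pos
    have h3 : 2 / T ≤ 2 := by
      rw [div_le_iff₀ hT0]
      linarith
    have h4 : Real.exp u ≤ (p : ℕ) := ((Real.lt_log_iff_exp_lt hp0).1 h1).le
    have h5 : ((p : ℕ) : ℝ)⁻¹ ≤ Real.exp (-u) := by
      rw [Real.exp_neg]
      exact inv_anti₀ (Real.exp_pos u) h4
    have h6 : ((p : ℕ) : ℝ) ^ (-η) ≤ Real.exp (-(η * u)) := by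
      rw [Real.rpow_def_of_pos hp0]
      refine Real.exp_le_exp.2 ?_
      nlinarith
    have hl0 : 0 ≤ Real.log p := by linarith
    calc Real.log p / p * ((p : ℝ) ^ (-η) * ‖∑ i ∈ J, b i * (V i p : ℂ)‖ ^ 2)
        = Real.log p * ((p : ℕ) : ℝ)⁻¹ * ((p : ℝ) ^ (-η)) * ‖∑ i ∈ J, b i * (V i p : ℂ)‖ ^ 2 := by
          ring
      _ ≤ _ := by
          refine mul_le_mul_of_nonneg_right ?_ (sq_nonneg _)
          refine mul_le_mul ?_ h6 (Real.rpow_nonneg hp0.le _) (by positivity)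
          exact mul_le_mul (by linarith) h5 (by positivity) (by linarith)
  set W : Finset ℕ := (Ioc ⌊Real.exp u⌋₊ ⌊Real.exp (u + 2 / T)⌋₊).filter Squarefree with hW
  -- primes to integers
  have hPW : ∑ p ∈ P, ‖∑ i ∈ J, b i * (V i p : ℂ)‖ ^ 2 ≤
      ∑ m ∈ W, ‖∑ i ∈ J, b i * ((((ext (V i) m : ℤ) : ℝ) : ℝ) : ℂ)‖ ^ 2 := by
    have e1 : ∑ p ∈ P, ‖∑ i ∈ J, b i * (V i p : ℂ)‖ ^ 2 =
        ∑ m ∈ P.image (fun p : Nat.Primes => (p : ℕ)),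
          ‖∑ i ∈ J, b i * ((((ext (V i) m : ℤ) : ℝ) : ℝ) : ℂ)‖ ^ 2 := by
      rw [Finset.sum_image (g := fun p : Nat.Primes => (p : ℕ))
        (fun p _ q _ h => Nat.Primes.coe_nat_injective h)]
      refine sum_congr rfl fun p _ => ?_
      congr 2
      refine sum_congr rfl fun i _ => ?_
      rw [ext_prime (V i) p.2]
      push_cast
      rfl
    rw [e1]
    refine sum_le_sum_of_subset_of_nonneg ?_ fun _ _ _ => sq_nonneg _
    intro m hm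
    obtain ⟨p, hp, rfl⟩ := mem_image.1 hm
    obtain ⟨h1, h2⟩ := hP p hp
    have hp0 : (0 : ℝ) < (p : ℕ) := by exact_mod_cast p.2.pos
    rw [hW, mem_filter, mem_Ioc]
    refine ⟨⟨?_, ?_⟩, p.2.squarefree⟩
    · exact (Nat.floor_lt (Real.exp_pos u).le).2 ((Real.lt_log_iff_exp_lt hp0).1 h1)
    · exact Nat.le_floor ((Real.log_le_iff_le_exp hp0).1 h2)
  -- expand
  set S : κ → κ → ℝ := fun i j => ∑ m ∈ W, ((ext (V i) m : ℤ) : ℝ) * ((ext (V j) m : ℤ) : ℝ)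
    with hS
  have hexp : ∑ m ∈ W, ‖∑ i ∈ J, b i * ((((ext (V i) m : ℤ) : ℝ) : ℝ) : ℂ)‖ ^ 2 ≤
      ∑ i ∈ J, ∑ j ∈ J, ‖b i‖ * ‖b j‖ * |S i j| := by
    have h0 : 0 ≤ ∑ m ∈ W, ‖∑ i ∈ J, b i * ((((ext (V i) m : ℤ) : ℝ) : ℝ) : ℂ)‖ ^ 2 :=
      sum_nonneg fun _ _ => sq_nonneg _
    have h1 : ((∑ m ∈ W, ‖∑ i ∈ J, b i * ((((ext (V i) m : ℤ) : ℝ) : ℝ) : ℂ)‖ ^ 2 : ℝ) : ℂ) =
        ∑ i ∈ J, ∑ j ∈ J, (b i * (starRingEnd ℂ) (b j)) * ((S i j : ℝ) : ℂ) := by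
      rw [Complex.ofReal_sum]
      have h2 : ∀ m ∈ W, ((‖∑ i ∈ J, b i * ((((ext (V i) m : ℤ) : ℝ) : ℝ) : ℂ)‖ ^ 2 : ℝ) : ℂ) =
          ∑ i ∈ J, ∑ j ∈ J, (b i * (starRingEnd ℂ) (b j)) *
            (((((ext (V i) m : ℤ) : ℝ)) * ((ext (V j) m : ℤ) : ℝ) : ℝ) : ℂ) := fun m _ =>
        Tw.normSq_sum_expand J b fun i => ((ext (V i) m : ℤ) : ℝ)
      rw [sum_congr rfl h2, sum_comm]
      refine sum_congr rfl fun i _ => ?_
      rw [sum_comm]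
      refine sum_congr rfl fun j _ => ?_
      rw [← mul_sum, hS, ← Complex.ofReal_sum]
    have h2 : ∑ m ∈ W, ‖∑ i ∈ J, b i * ((((ext (V i) m : ℤ) : ℝ) : ℝ) : ℂ)‖ ^ 2 =
        ‖((∑ m ∈ W, ‖∑ i ∈ J, b i * ((((ext (V i) m : ℤ) : ℝ) : ℝ) : ℂ)‖ ^ 2 : ℝ) : ℂ)‖ := by
      rw [Complex.norm_real, Real.norm_eq_abs, abs_of_nonneg h0]
    rw [h2, h1]
    refine (norm_sum_le _ _).trans (sum_le_sum fun i _ => ?_)
    refine (norm_sum_le _ _).trans (sum_le_sum fun j _ => ?_)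
    rw [norm_mul, norm_mul, RCLike.norm_conj, Complex.norm_real, Real.norm_eq_abs]
  -- the entries
  have hy' : Real.exp (u + 2 / T) ≤ 8 * Real.exp u := by
    rw [Real.exp_add, mul_comm]
    exact mul_le_mul_of_nonneg_right (exp_two_div_le hT) (Real.exp_pos u).le
  have hD : ∀ i ∈ J, ∀ j ∈ J, |S i j| ≤ C₃ * (Real.exp u / T) * (u + 2) ^ k ^ 2 := by
    intro i hi j hj
    have h1 : ∀ m ∈ W, |((ext (V i) m : ℤ) : ℝ) * ((ext (V j) m : ℤ) : ℝ)| ≤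
        (k : ℝ) ^ m.primeFactors.card := by
      intro m hm
      rw [abs_mul]
      have h3 := mul_le_mul (abs_ext_le (V i) (hV i hi) m) (abs_ext_le (V j) (hV j hj) m)
        (abs_nonneg _) (by positivity)
      refine h3.trans (le_of_eq ?_)
      rw [← mul_pow, ← sq, hk]
      push_cast
      rfl
    have h2 : |S i j| ≤ ∑ m ∈ W, (k : ℝ) ^ m.primeFactors.card := by
      rw [hS]
      exact (abs_sum_le_sum_abs _ _).trans (sum_le_sum h1)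
    refine h2.trans ?_
    rw [hC₃]
    exact omega_window k hk1 hT hu hTu2
  have hE : ∀ i ∈ J, ∀ j ∈ J, ¬ ¬ Pair M δ (V i) (V j) →
      |S i j| ≤ 16 * M * Real.exp ((1 - δ) * u) := by
    intro i _ j _ h
    exact window_pair (not_not.1 h) hM hδ hδ1 hT hu
  have hB' : ∀ i ∈ J, (J.filter (fun j => ¬ Pair M δ (V i) (V j))).card ≤ B := by
    intro i hi
    refine le_trans (le_of_eq ?_) (hB i hi)
    rw [← Set.ncard_coe_finset]
    congr 1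
    ext j
    simp
  have hgram := gram J S (fun i j => ¬ Pair M δ (V i) (V j))
    (fun i j h h' => h h'.symm) B
    (C₃ * (Real.exp u / T) * (u + 2) ^ k ^ 2)
    (16 * M * Real.exp ((1 - δ) * u)) (by positivity) (by positivity) hB' hD hE
    (fun i => ‖b i‖) (fun i => norm_nonneg _)
  -- conclusion
  have h1 : ∑ p ∈ P, Real.log p / p * ((p : ℝ) ^ (-η) * ‖∑ i ∈ J, b i * (V i p : ℂ)‖ ^ 2) ≤
      (u + 2) * Real.exp (-u) * Real.exp (-(η * u)) *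
        ((B * (C₃ * (Real.exp u / T) * (u + 2) ^ k ^ 2) +
          J.card * (16 * M * Real.exp ((1 - δ) * u))) * ∑ i ∈ J, ‖b i‖ ^ 2) := by
    refine (sum_le_sum hlog).trans ?_
    rw [← mul_sum]
    exact mul_le_mul_of_nonneg_left (hPW.trans (hexp.trans hgram)) (by positivity)
  refine h1.trans ?_
  have e1 : Real.exp (-u) * Real.exp u = 1 := by
    rw [← Real.exp_add, neg_add_cancel, Real.exp_zero]
  have e3 : Real.exp (-u) * Real.exp ((1 - δ) * u) = Real.exp (-(δ * u)) := by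
    rw [← Real.exp_add]
    congr 1
    ring
  have h5 : (J.card : ℝ) * M * Real.exp (-(δ * u)) ≤ (B + 1) / T := by
    rw [le_div_iff₀ hT0]
    have h6 : Real.exp (δ * u) * Real.exp (-(δ * u)) = 1 := by
      rw [← Real.exp_add, add_neg_cancel, Real.exp_zero]
    have h7 := mul_le_mul_of_nonneg_right hJ (Real.exp_pos (-(δ * u))).le
    rw [mul_assoc ((B : ℝ) + 1), h6, mul_one] at h7
    linarith
  have hpow : u + 2 ≤ (u + 2) ^ j₀ := by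
    calc u + 2 = (u + 2) ^ 1 := (pow_one _).symm
      _ ≤ (u + 2) ^ j₀ := pow_le_pow_right₀ (by linarith) hj₀1
  have hpow' : (u + 2) * (u + 2) ^ k ^ 2 = (u + 2) ^ j₀ := by
    rw [hj₀, pow_succ (u + 2) (k ^ 2), mul_comm]
  have hexpj := pow_mul_exp_le j₀ hj₀1 hη hη1 hu
  have hcoef : (u + 2) * Real.exp (-u) * Real.exp (-(η * u)) *
      (B * (C₃ * (Real.exp u / T) * (u + 2) ^ k ^ 2) +
        J.card * (16 * M * Real.exp ((1 - δ) * u))) ≤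
      (C₃ + 16) * (2 * j₀) ^ j₀ * (η⁻¹) ^ j₀ * (B + 1) / T := by
    have h10 : (u + 2) * Real.exp (-u) * Real.exp (-(η * u)) *
        (B * (C₃ * (Real.exp u / T) * (u + 2) ^ k ^ 2) +
          J.card * (16 * M * Real.exp ((1 - δ) * u))) =
        C₃ * B / T * (Real.exp (-u) * Real.exp u) *
          (((u + 2) * (u + 2) ^ k ^ 2) * Real.exp (-(η * u))) +
        16 * ((u + 2) * Real.exp (-(η * u))) *
          (J.card * M * (Real.exp (-u) * Real.exp ((1 - δ) * u))) := by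
      ring
    rw [h10, e1, e3, hpow', mul_one]
    have h11 : 16 * ((u + 2) * Real.exp (-(η * u))) * (J.card * M * Real.exp (-(δ * u))) ≤
        16 * ((u + 2) ^ j₀ * Real.exp (-(η * u))) * ((B + 1) / T) := by
      refine mul_le_mul ?_ h5 (by positivity) (by positivity)
      refine mul_le_mul_of_nonneg_left ?_ (by norm_num)
      exact mul_le_mul_of_nonneg_right hpow (Real.exp_pos _).le
    have h12 : C₃ * B / T ≤ C₃ * ((B + 1) / T) := by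
      rw [mul_div_assoc]
      refine mul_le_mul_of_nonneg_left ?_ hC₃0.le
      exact div_le_div_of_nonneg_right (by linarith) hT0.le
    calc C₃ * B / T * ((u + 2) ^ j₀ * Real.exp (-(η * u))) +
          16 * ((u + 2) * Real.exp (-(η * u))) * (J.card * M * Real.exp (-(δ * u)))
        ≤ C₃ * ((B + 1) / T) * ((u + 2) ^ j₀ * Real.exp (-(η * u))) +
          16 * ((u + 2) ^ j₀ * Real.exp (-(η * u))) * ((B + 1) / T) := by
          refine add_le_add (mul_le_mul_of_nonneg_right h12 (by positivity)) h11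
      _ = (C₃ + 16) * ((B + 1) / T) * ((u + 2) ^ j₀ * Real.exp (-(η * u))) := by ring
      _ ≤ (C₃ + 16) * ((B + 1) / T) * ((2 * j₀) ^ j₀ * (η⁻¹) ^ j₀) :=
          mul_le_mul_of_nonneg_left hexpj (by positivity)
      _ = _ := by ring
  rw [← mul_assoc]
  exact mul_le_mul_of_nonneg_right hcoef hS0

end Pool.Agent.MPfb225e.Qt
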