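import Mathlib
import Pool.Agent.Lib.MP_fb225e_nt.Qt.Detect
import Pool.Agent.Lib.MP_fb225e_nt.Qt.Mean2
import Pool.Agent.Lib.MP_fb225e_nt.Tw.Trunc
import Pool.Agent.Lib.MP_fb225e_nt.Zd.Count

/-!
MP_fb225e_nt, project QT: the zeros of a family of entire functions near the edge, with explicit
dependence on the width.
-/

namespace Pool.Agent.MPfb225e.Qt

open Filter Topology Complex MeasureTheory
open scoped Nat

universe v

/-- The count for a small family. -/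
theorem count_aux2 (n N : ℕ) (C₃ C₄ : ℝ) (hC₃ : 0 < C₃) (hC₄ : 0 < C₄) :
    ∃ (K₀ C₇ C₁₀ : ℝ) (A₀ : ℕ), 0 < K₀ ∧ 4 ≤ C₇ ∧ 0 < C₁₀ ∧ ∀ η : ℝ, 0 < η → η ≤ 1 →
    ∀ (B : ℕ) (κ : Type v) (J : Finset κ) (Q E : κ → ℂ → ℂ) (z : κ → ℕ → ℝ) (y : ℕ → ℝ)
      (V : κ → ℕ → ℤ) (δ T M : ℝ), 0 < δ → δ ≤ 1 / 2 → 0 ≤ T → 2 ≤ M →
    (∀ i ∈ J, Dat N C₃ C₄ (Q i) (E i) (z i)) → (∀ p, |y p| ≤ 2) →
    (∀ i ∈ J, ∀ p, p.Prime → |V i p| ≤ n) →
    (∀ i ∈ J, Set.ncard {j : κ | j ∈ J ∧ ¬ Pair M δ (V i) (V j)} ≤ B) →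
    (∀ i ∈ J, ∀ p : ℕ, p.Prime → 3 < p → M < p → z i p = V i p * y p) →
    (∀ i ∈ J, ∀ s : ℂ, 3 / 2 - δ ≤ s.re → |s.im| ≤ T + 1 → ‖Q i s‖ ≤ M) →
    (J.card : ℝ) ≤ (B + 1) * (M * (T + 2)) → C₇ * η ≤ δ → ∀ S : κ → Finset ℂ,
    (∀ i ∈ J, ∀ x ∈ S i, 3 / 2 - η ≤ x.re ∧ |x.im| ≤ T) →
    ∑ i ∈ J, ∑ x ∈ S i, (analyticOrderNatAt (Q i) x : ℝ) ≤
      C₁₀ * (η⁻¹) ^ A₀ * (B + 1) * Real.exp (K₀ * (1 + η * (Zfr.Lg M T δ / δ))) := by
  classical
  obtain ⟨A, C₆, C₇, hA, hC₆, hC₇, hdet⟩ := detect N C₃ C₄ hC₃ hC₄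
  obtain ⟨κ₁, hκ₁, htrunc⟩ := Tw.trunc N A hA
  have hA0 : 0 < A := by linarith
  set C' : ℝ := C₆ + 3 / κ₁ + 1 with hC'
  have hC'0 : 1 ≤ C' := by
    have : 0 < 3 / κ₁ := by positivity
    linarith
  set BB : ℝ := 1296 * A ^ 2 with hBB
  have hBB1 : 1 ≤ BB := by
    rw [hBB]
    nlinarith
  have hlog2 : 0 ≤ Real.log BB := Real.log_nonneg hBB1
  obtain ⟨C₉'', A₀, hC₉'', hmean2⟩ := mean_family2.{v} n
  refine ⟨(C' + 1) * (2 + Real.log BB), max C₇ 4, 144 * C₉'', A₀, by positivity,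
    le_max_right _ _, by positivity, ?_⟩
  intro η hη hη1
  have hmean := hmean2 η hη hη1
  obtain ⟨C₉', hC₉'def⟩ : ∃ C : ℝ, C = C₉'' * (η⁻¹) ^ A₀ := ⟨_, rfl⟩
  have hC₉' : 0 < C₉' := by rw [hC₉'def]; positivity
  rw [← hC₉'def] at hmean
  intro B κ J Q E z y V δ T M hδ hδ1 hT hM hdat hy hV hB hz hQM hcard hηδ S hS
  obtain ⟨C₉, hC₉def⟩ : ∃ C : ℝ, C = C₉' * (B + 1) := ⟨_, rfl⟩
  have hC₉ : 0 < C₉ := by rw [hC₉def]; positivity
  have h4η : 4 * η ≤ δ := (mul_le_mul_of_nonneg_right (le_max_right _ _) hη.le).trans hηδ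
  have h7η : C₇ * η ≤ δ := (mul_le_mul_of_nonneg_right (le_max_left _ _) hη.le).trans hηδ
  have hLg := Zfr.two_le_Lg hδ hδ1 hT hM
  set Lg := Zfr.Lg M T δ with hLgdef
  set Λ : ℝ := Lg / δ with hΛ
  have hΛ0 : 0 < Λ := by rw [hΛ]; positivity
  have h2Lg : 2 * Lg ≤ Λ := by
    rw [hΛ, le_div_iff₀ hδ]
    nlinarith
  have hbase : 1 ≤ 1 + η * Λ := by
    have : 0 ≤ η * Λ := by positivity
    linarith
  set m : ℕ := ⌈C' * (1 + η * Λ)⌉₊ with hm
  have hm1 : C' * (1 + η * Λ) ≤ m := Nat.le_ceil _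
  have hm2 : (m : ℝ) ≤ (C' + 1) * (1 + η * Λ) := by
    have := Nat.ceil_lt_add_one (a := C' * (1 + η * Λ)) (by positivity)
    rw [← hm] at this
    nlinarith
  have hmpos : 1 ≤ m := by
    rw [hm, Nat.one_le_ceil_iff]
    positivity
  have hm6 : C₆ * (1 + η * Λ) ≤ m := by
    refine le_trans (mul_le_mul_of_nonneg_right ?_ (by linarith)) hm1
    have : 0 < 3 / κ₁ := by positivity
    linarith
  obtain ⟨P, hP1, hP2⟩ := htrunc η hη (by linarith) m hmpos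
  -- the truncation point
  have hU3 : 3 + 3 * Λ ≤ κ₁ * m / η := by
    have h3 : 3 / κ₁ * (1 + η * Λ) ≤ m := by
      refine le_trans ?_ hm1
      have h4 : 3 / κ₁ ≤ C' := by linarith
      exact mul_le_mul_of_nonneg_right h4 (by positivity)
    rw [div_mul_eq_mul_div, div_le_iff₀ hκ₁] at h3
    rw [le_div_iff₀ hη]
    nlinarith
  have hMT : Real.log (M * (T + 2)) ≤ Lg := by
    rw [hLgdef]
    unfold Zfr.Lg
    refine Real.log_le_log (by positivity) ?_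
    rw [le_div_iff₀ hδ]
    have : 0 < M * (T + 2) := by positivity
    nlinarith
  have hMT0 : 1 ≤ M * (T + 2) := by nlinarith
  have hTU : T + 1 ≤ Real.exp ((κ₁ * m / η - 1) / 2) := by
    have h1 : T + 1 ≤ Real.exp (Real.log (M * (T + 2))) := by
      rw [Real.exp_log (by linarith)]
      nlinarith
    refine h1.trans (Real.exp_le_exp.2 ?_)
    linarith
  have hJ : (J.card : ℝ) * M * (T + 1) ≤ (B + 1) * Real.exp (δ * (κ₁ * m / η - 1)) := by
    have h1 : (J.card : ℝ) * M * (T + 1) ≤ (B + 1) * Real.exp (2 * Real.log (M * (T + 2))) := by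
      have e : Real.exp (2 * Real.log (M * (T + 2))) = (M * (T + 2)) * (M * (T + 2)) := by
        rw [two_mul, Real.exp_add, Real.exp_log (by linarith)]
      rw [e, mul_assoc, ← mul_assoc ((B : ℝ) + 1)]
      refine mul_le_mul hcard ?_ (by positivity) (by positivity)
      nlinarith
    refine h1.trans (mul_le_mul_of_nonneg_left (Real.exp_le_exp.2 ?_) (by positivity))
    have h2 : δ * (2 + 3 * Λ) ≤ δ * (κ₁ * m / η - 1) :=
      mul_le_mul_of_nonneg_left (by linarith) hδ.le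
    have h3 : δ * Λ = Lg := by
      rw [hΛ]
      field_simp
    nlinarith
  -- the primes in `P` are large
  have hlarge : ∀ p ∈ P, 3 < (p : ℕ) ∧ M < (p : ℕ) := by
    intro p hp
    have h1 := lt_of_le_of_lt hU3 (hP1 p hp)
    have hp0 : (0 : ℝ) < (p : ℕ) := by exact_mod_cast p.2.pos
    have hM0 : Real.log M ≤ Lg := by
      refine le_trans (Real.log_le_log (by linarith) ?_) hMT
      nlinarith
    have h2 : 2 + Real.log M < Real.log p := by linarith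
    have h3 : Real.exp (2 + Real.log M) < (p : ℕ) := (Real.lt_log_iff_exp_lt hp0).1 h2
    rw [Real.exp_add, Real.exp_log (by linarith)] at h3
    have h4 : (3 : ℝ) ≤ Real.exp 2 := by
      have := Real.add_one_le_exp (2 : ℝ)
      linarith
    constructor
    · have : (3 : ℝ) < (p : ℕ) := by nlinarith
      exact_mod_cast this
    · nlinarith
  have hcoef : ∀ i ∈ J, ∀ p ∈ P, ∀ q : ℕ,
      Zd.bq (z i) η q p = Zd.bq y η q p * (V i p : ℝ) := by
    intro i hi p hp q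
    obtain ⟨h1, h2⟩ := hlarge p hp
    unfold Zd.bq
    rw [hz i hi p p.2 h1 h2]
    ring
  -- the functions
  set f : κ → ℕ → ℝ → ℂ := fun i q t =>
    ∑ p ∈ P, (Zd.bq y η q p : ℂ) * ((V i p : ℝ) : ℂ) *
      cexp (-(t * Real.log p : ℝ) * I) with hf
  have hfc : ∀ i q, Continuous (f i q) := by
    intro i q
    rw [hf]
    fun_prop
  set cf : ℕ → ℝ := fun q => 16 * (A ^ 2) ^ m * (3 * η) ^ (2 * (q + 1)) with hcf
  have hcf0 : ∀ q, 0 ≤ cf q := fun q => by rw [hcf]; positivity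
  set Φ : κ → ℝ → ℝ := fun i t => ∑ q ∈ Finset.Ico m (2 * m), cf q * ‖f i q t‖ ^ 2 with hΦ
  have hΦc : ∀ i, Continuous (Φ i) := by
    intro i
    rw [hΦ]
    refine continuous_finsetSum _ fun q _ => ?_
    exact continuous_const.mul ((hfc i q).norm.pow 2)
  have hΦ0 : ∀ i t, 0 ≤ Φ i t := fun i t =>
    Finset.sum_nonneg fun q _ => mul_nonneg (hcf0 q) (sq_nonneg _)
  have hmain : ∀ i ∈ J, η * ∑ x ∈ S i, (analyticOrderNatAt (Q i) x : ℝ) ≤
      m * ∫ t in (-(T + 1))..(T + 1), Φ i t := by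
    intro i hi
    have hdd := hdet (Q i) (E i) (z i) (hdat i hi) δ T M hδ hδ1 hT hM (hQM i hi) η hη h7η
      m hm6
    refine Zd.count_zeros (hdat i hi).diff hη (by linarith) hT m (hΦc i) (hΦ0 i)
      (fun t ht => (hdd t ht).1) ?_ (S i) (hS i hi)
    intro t ht x hx1 hx2 hx0
    obtain ⟨q, hq1, hq2, hq3⟩ := (hdd t ht).2 x hx1 hx2 hx0
    have h1 := hP2 (z i) (hdat i hi).hy q hq1 hq2 t
    have hfe : ∑ p ∈ P, (Zd.bq (z i) η q p : ℂ) * cexp (-(t * Real.log p : ℝ) * I) =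
        f i q t := by
      rw [hf]
      refine Finset.sum_congr rfl fun p hp => ?_
      rw [hcoef i hi p hp q]
      push_cast
      ring
    rw [hfe] at h1
    have h2 : 1 / 4 * A⁻¹ ^ m * ((3 * η)⁻¹) ^ (q + 1) ≤ ‖f i q t‖ := by
      have e : 1 / 2 * A⁻¹ ^ m * ((3 * η)⁻¹) ^ (q + 1) =
          1 / 4 * A⁻¹ ^ m * ((3 * η)⁻¹) ^ (q + 1) + 1 / 4 * A⁻¹ ^ m * ((3 * η)⁻¹) ^ (q + 1) := by
        ring
      linarith
    have h3 : 1 ≤ cf q * ‖f i q t‖ ^ 2 := by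
      have h4 : (1 / 4 * A⁻¹ ^ m * ((3 * η)⁻¹) ^ (q + 1)) ^ 2 ≤ ‖f i q t‖ ^ 2 :=
        pow_le_pow_left₀ (by positivity) h2 2
      have h5 : cf q * (1 / 4 * A⁻¹ ^ m * ((3 * η)⁻¹) ^ (q + 1)) ^ 2 = 1 := by
        have e1 : cf q = (4 * A ^ m * (3 * η) ^ (q + 1)) ^ 2 := by
          have e3 : (A ^ 2) ^ m = (A ^ m) ^ 2 := by rw [← pow_mul, ← pow_mul, mul_comm]
          have e4 : (3 * η) ^ (2 * (q + 1)) = ((3 * η) ^ (q + 1)) ^ 2 := by
            rw [← pow_mul, mul_comm 2]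
          rw [hcf]
          simp only
          rw [e3, e4]
          ring
        rw [e1, ← mul_pow]
        have e2 : 4 * A ^ m * (3 * η) ^ (q + 1) * (1 / 4 * A⁻¹ ^ m * ((3 * η)⁻¹) ^ (q + 1)) = 1 := by
          rw [inv_pow, inv_pow]
          field_simp
        rw [e2, one_pow]
      calc (1 : ℝ) = cf q * (1 / 4 * A⁻¹ ^ m * ((3 * η)⁻¹) ^ (q + 1)) ^ 2 := h5.symm
        _ ≤ _ := mul_le_mul_of_nonneg_left h4 (hcf0 q)
    refine h3.trans ?_
    exact Finset.single_le_sum (f := fun q => cf q * ‖f i q t‖ ^ 2)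
      (fun q _ => mul_nonneg (hcf0 q) (sq_nonneg _)) (Finset.mem_Ico.2 ⟨hq1, by omega⟩)
  -- the integral
  have hint : ∑ i ∈ J, ∫ t in (-(T + 1))..(T + 1), Φ i t ≤ η * (144 * C₉ * m * BB ^ m) := by
    have hi : ∀ i, ∀ q ∈ Finset.Ico m (2 * m),
        IntervalIntegrable (fun t => cf q * ‖f i q t‖ ^ 2) volume (-(T + 1)) (T + 1) := fun i q _ =>
      (Continuous.mul continuous_const ((hfc i q).norm.pow 2)).intervalIntegrable _ _
    have e0 : ∀ i, ∫ t in (-(T + 1))..(T + 1), Φ i t =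
        ∑ q ∈ Finset.Ico m (2 * m), cf q * ∫ t in (-(T + 1))..(T + 1), ‖f i q t‖ ^ 2 := by
      intro i
      rw [hΦ]
      rw [intervalIntegral.integral_finsetSum (hi i)]
      exact Finset.sum_congr rfl fun q _ => intervalIntegral.integral_const_mul _ _
    have e1 : ∑ i ∈ J, ∫ t in (-(T + 1))..(T + 1), Φ i t =
        ∑ q ∈ Finset.Ico m (2 * m), cf q *
          ∑ i ∈ J, ∫ t in (-(T + 1))..(T + 1), ‖f i q t‖ ^ 2 := by
      rw [Finset.sum_congr rfl fun i _ => e0 i, Finset.sum_comm]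
      exact Finset.sum_congr rfl fun q _ => (Finset.mul_sum _ _ _).symm
    rw [e1]
    have hq : ∀ q ∈ Finset.Ico m (2 * m), cf q *
        ∑ i ∈ J, ∫ t in (-(T + 1))..(T + 1), ‖f i q t‖ ^ 2 ≤ η * (144 * C₉ * BB ^ m) := by
      intro q hq
      rw [Finset.mem_Ico] at hq
      have h1 := hmean B κ J V (T + 1) (κ₁ * m / η) δ M (by linarith) (by linarith) hTU hδ hδ1
        (by linarith) hV hB hJ P hP1 y hy q
      rw [← hC₉def] at h1
      have h2 : cf q * (∑ i ∈ J, ∫ t in (-(T + 1))..(T + 1), ‖f i q t‖ ^ 2) ≤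
          cf q * (C₉ * 4 ^ q * (η⁻¹) ^ (2 * q + 1)) := mul_le_mul_of_nonneg_left h1 (hcf0 q)
      refine h2.trans ?_
      have h3 : cf q * (C₉ * 4 ^ q * (η⁻¹) ^ (2 * q + 1)) =
          η * (144 * C₉ * ((A ^ 2) ^ m * 36 ^ q)) := by
        rw [hcf]
        simp only
        have e1 : (3 * η) ^ (2 * (q + 1)) = 9 * 9 ^ q * η ^ (2 * q + 1) * η := by
          rw [mul_pow, pow_mul, show ((3 : ℝ) ^ 2) = 9 by norm_num, pow_succ 9,
            show 2 * (q + 1) = (2 * q + 1) + 1 by ring, pow_succ η (2 * q + 1)]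
          ring
        have e2 : (36 : ℝ) ^ q = 9 ^ q * 4 ^ q := by
          rw [← mul_pow]
          norm_num
        have e3 : η ^ (2 * q + 1) * (η⁻¹) ^ (2 * q + 1) = 1 := by
          rw [← mul_pow, mul_inv_cancel₀ hη.ne', one_pow]
        rw [e1, e2]
        calc 16 * (A ^ 2) ^ m * (9 * 9 ^ q * η ^ (2 * q + 1) * η) *
              (C₉ * 4 ^ q * (η⁻¹) ^ (2 * q + 1))
            = (η ^ (2 * q + 1) * (η⁻¹) ^ (2 * q + 1)) *
                (η * (144 * C₉ * ((A ^ 2) ^ m * (9 ^ q * 4 ^ q)))) := by ring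
          _ = _ := by rw [e3, one_mul]
      rw [h3]
      have h4 : (A ^ 2) ^ m * 36 ^ q ≤ BB ^ m := by
        have h5 : (36 : ℝ) ^ q ≤ 1296 ^ m := by
          calc (36 : ℝ) ^ q ≤ 36 ^ (2 * m) := pow_le_pow_right₀ (by norm_num) (by omega)
            _ = 1296 ^ m := by rw [pow_mul]; norm_num
        calc (A ^ 2) ^ m * 36 ^ q ≤ (A ^ 2) ^ m * 1296 ^ m :=
              mul_le_mul_of_nonneg_left h5 (by positivity)
          _ = BB ^ m := by rw [hBB, ← mul_pow, mul_comm]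
      gcongr
    refine (Finset.sum_le_sum hq).trans ?_
    rw [Finset.sum_const, Nat.card_Ico, nsmul_eq_mul]
    have e : ((2 * m - m : ℕ) : ℝ) = m := by
      congr 1
      omega
    rw [e]
    exact le_of_eq (by ring)
  have hfin : ∑ i ∈ J, ∑ x ∈ S i, (analyticOrderNatAt (Q i) x : ℝ) ≤
      m * (144 * C₉ * m * BB ^ m) := by
    have h1 : η * ∑ i ∈ J, ∑ x ∈ S i, (analyticOrderNatAt (Q i) x : ℝ) ≤
        η * (m * (144 * C₉ * m * BB ^ m)) := by
      rw [Finset.mul_sum]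
      refine (Finset.sum_le_sum hmain).trans ?_
      rw [← Finset.mul_sum]
      have := mul_le_mul_of_nonneg_left hint (Nat.cast_nonneg (α := ℝ) m)
      calc _ ≤ (m : ℝ) * (η * (144 * C₉ * m * BB ^ m)) := this
        _ = _ := by ring
    exact le_of_mul_le_mul_left h1 hη
  refine hfin.trans ?_
  have hmexp : (m : ℝ) ≤ Real.exp m := by
    have := Real.add_one_le_exp (m : ℝ)
    linarith
  have h1 : (m : ℝ) * (144 * C₉ * m * BB ^ m) ≤
      144 * C₉ * Real.exp (m * (2 + Real.log BB)) := by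
    have h2 : Real.exp (m * (2 + Real.log BB)) =
        (Real.exp m * Real.exp m) * BB ^ m := by
      have e2 : BB ^ m = Real.exp (m * Real.log BB) := by
        rw [Real.exp_nat_mul, Real.exp_log (by positivity)]
      rw [e2, ← Real.exp_add, ← Real.exp_add]
      congr 1
      ring
    rw [h2]
    calc (m : ℝ) * (144 * C₉ * m * BB ^ m) = 144 * C₉ * ((m * m) * BB ^ m) := by ring
      _ ≤ 144 * C₉ * ((Real.exp m * Real.exp m) * BB ^ m) := by gcongr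
  have e9 : 144 * C₉'' * (η⁻¹) ^ A₀ * (B + 1) = 144 * C₉ := by
    rw [hC₉def, hC₉'def]
    ring
  rw [e9]
  refine h1.trans (mul_le_mul_of_nonneg_left (Real.exp_le_exp.2 ?_) (by positivity))
  calc (m : ℝ) * (2 + Real.log BB)
      ≤ ((C' + 1) * (1 + η * Λ)) * (2 + Real.log BB) :=
        mul_le_mul_of_nonneg_right hm2 (by linarith)
    _ = _ := by ring

end Pool.Agent.MPfb225e.Qt
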