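import Mathlib
import Pool.Agent.Lib.MP_fb225e_nt.Qt.Main2
import Pool.Agent.Lib.MP_fb225e_nt.Qt.Final

/-!
MP_fb225e_nt, project QT: the zeros of the quotients `L(E/K_i, s) / L(E/F_i, s)`, with constants
that depend on the degree only.
-/

namespace Pool.Agent.MPfb225e.Qt

open Filter Topology Complex NumberField

universe u

/-- From subfamilies of bounded size to the whole family. -/
theorem subfamily2 {N : ℕ} (a : Fin N → ℕ) (X D b : ℝ) (hb : 1 ≤ b) (hX : 0 ≤ X)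
    (hD : D + 1 ≤ X)
    (h : ∀ J : Finset (Fin N), (J.card : ℝ) ≤ b * X → ∑ i ∈ J, (a i : ℝ) ≤ b * D) :
    ∑ i, (a i : ℝ) ≤ b * D := by
  classical
  set Ex : Finset (Fin N) := Finset.univ.filter fun i => a i ≠ 0 with hEx
  have hsum : ∑ i, (a i : ℝ) = ∑ i ∈ Ex, (a i : ℝ) := by
    rw [hEx, Finset.sum_filter]
    refine Finset.sum_congr rfl fun i _ => ?_
    by_cases h0 : a i = 0
    · simp [h0]
    · rw [if_pos h0]
  rw [hsum]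
  refine h Ex ?_
  by_contra hcon
  push Not at hcon
  obtain ⟨J, hJ1, hJ2⟩ := Finset.exists_subset_card_eq (s := Ex) (n := ⌊b * X⌋₊)
    (Nat.floor_le_of_le hcon.le)
  have hbX : 0 ≤ b * X := by positivity
  have h1 : ((⌊b * X⌋₊ : ℕ) : ℝ) ≤ b * X := Nat.floor_le hbX
  have h2 := h J (by rw [hJ2]; exact h1)
  have h3 : (J.card : ℝ) ≤ ∑ i ∈ J, (a i : ℝ) := by
    rw [Finset.card_eq_sum_ones, Nat.cast_sum]
    refine Finset.sum_le_sum fun i hi => ?_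
    have h4 := (Finset.mem_filter.1 (hJ1 hi)).2
    exact_mod_cast Nat.one_le_iff_ne_zero.2 h4
  have h5 : b * X < (⌊b * X⌋₊ : ℝ) + 1 := Nat.lt_floor_add_one _
  rw [hJ2] at h3
  nlinarith

/-- The enlarged parameter. -/
theorem exists_R (C₂ : ℝ) (hC₂ : 0 < C₂) (A₀ : ℕ) : ∃ C₃ : ℝ, 1 ≤ C₃ ∧ ∀ δ Y X : ℝ, 0 < δ →
    δ ≤ 1 / 2 → 1 ≤ Y → X = C₃ * (1 / δ) ^ (4 * A₀ + 4) * Y / δ →
    C₂ * (Real.log X / δ) ^ A₀ * X ^ (1 / 4 : ℝ) + 1 ≤ δ * X := by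
  obtain ⟨C₄, hC₄⟩ : ∃ C₄ : ℝ, C₄ = (4 * ((A₀ : ℝ) + 1)) ^ A₀ := ⟨_, rfl⟩
  have hC₄0 : 0 < C₄ := by rw [hC₄]; positivity
  refine ⟨(C₂ * C₄ + 1) ^ 4, one_le_pow₀ (by nlinarith), ?_⟩
  intro δ Y X hδ hδ1 hY hX
  have hd1 : 1 ≤ 1 / δ := by
    rw [le_div_iff₀ hδ]
    linarith
  have hC1 : 1 ≤ (C₂ * C₄ + 1) ^ 4 := one_le_pow₀ (by nlinarith)
  have hYd : 1 ≤ Y / δ := by
    rw [le_div_iff₀ hδ]
    nlinarith
  have hXe : X = (C₂ * C₄ + 1) ^ 4 * (1 / δ) ^ (4 * A₀ + 4) * (Y / δ) := by rw [hX]; ring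
  have hpow1 : 1 ≤ (1 / δ) ^ (4 * A₀ + 4) := one_le_pow₀ hd1
  have hX3 : (C₂ * C₄ + 1) ^ 4 ≤ X := by
    rw [hXe, mul_assoc]
    refine le_mul_of_one_le_right (by positivity) ?_
    nlinarith
  have hXd : (1 / δ) ^ (4 * A₀ + 4) ≤ X := by
    rw [hXe]
    calc (1 / δ) ^ (4 * A₀ + 4) = 1 * (1 / δ) ^ (4 * A₀ + 4) * 1 := by ring
      _ ≤ _ := by gcongr
  have hX1 : 1 ≤ X := hC1.trans hX3
  have hX0 : 0 < X := by linarith
  obtain ⟨Z, hZ⟩ : ∃ Z, Z = X ^ (1 / 4 : ℝ) := ⟨_, rfl⟩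
  have hZ0 : 0 < Z := by rw [hZ]; positivity
  have hZ4 : Z ^ 4 = X := by
    rw [hZ, ← Real.rpow_natCast, ← Real.rpow_mul hX0.le]
    norm_num
  have hZ1 : 1 ≤ Z := by rw [hZ]; exact Real.one_le_rpow hX1 (by norm_num)
  have hZC : C₂ * C₄ + 1 ≤ Z := by
    refine le_of_pow_le_pow_left₀ (n := 4) (by norm_num) hZ0.le ?_
    rw [hZ4]
    exact hX3
  have hZd : (1 / δ) ^ (A₀ + 1) ≤ Z := by
    refine le_of_pow_le_pow_left₀ (n := 4) (by norm_num) hZ0.le ?_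
    rw [hZ4, ← pow_mul]
    refine le_trans (le_of_eq ?_) hXd
    congr 1
    ring
  have hlog : Real.log X ^ A₀ ≤ C₄ * Z := by
    have hε : (0 : ℝ) < 1 / (4 * ((A₀ : ℝ) + 1)) := by positivity
    have h1 := Real.log_le_rpow_div hX0.le hε
    have h2 : X ^ (1 / (4 * ((A₀ : ℝ) + 1))) / (1 / (4 * ((A₀ : ℝ) + 1))) =
        4 * ((A₀ : ℝ) + 1) * X ^ (1 / (4 * ((A₀ : ℝ) + 1))) := by
      field_simp
    rw [h2] at h1
    have h3 : Real.log X ^ A₀ ≤ (4 * ((A₀ : ℝ) + 1) * X ^ (1 / (4 * ((A₀ : ℝ) + 1)))) ^ A₀ :=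
      pow_le_pow_left₀ (Real.log_nonneg hX1) h1 _
    refine h3.trans ?_
    rw [mul_pow, ← hC₄]
    refine mul_le_mul_of_nonneg_left ?_ hC₄0.le
    rw [← Real.rpow_natCast, ← Real.rpow_mul hX0.le, hZ]
    refine Real.rpow_le_rpow_of_exponent_le hX1 ?_
    rw [one_div_mul_eq_div, div_le_div_iff₀ (by positivity) (by norm_num)]
    nlinarith
  have hdd : (1 / δ) ^ A₀ ≤ δ * Z := by
    have h1 : (1 / δ) ^ (A₀ + 1) * δ = (1 / δ) ^ A₀ := by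
      rw [pow_succ]
      field_simp
    rw [← h1, mul_comm]
    exact mul_le_mul_of_nonneg_left hZd hδ.le
  have h1Z : 1 ≤ δ * Z := (one_le_pow₀ hd1).trans hdd
  have hlog0 : 0 ≤ Real.log X ^ A₀ := pow_nonneg (Real.log_nonneg hX1) _
  rw [← hZ]
  have e1 : (Real.log X / δ) ^ A₀ = Real.log X ^ A₀ * (1 / δ) ^ A₀ := by
    rw [← mul_pow]
    congr 1
    ring
  rw [e1]
  have h4 : Real.log X ^ A₀ * (1 / δ) ^ A₀ ≤ (C₄ * Z) * (δ * Z) :=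
    mul_le_mul hlog hdd (by positivity) (by positivity)
  calc C₂ * (Real.log X ^ A₀ * (1 / δ) ^ A₀) * Z + 1
      ≤ C₂ * ((C₄ * Z) * (δ * Z)) * Z + (δ * Z) * (Z * Z) := by
        refine add_le_add ?_ ?_
        · exact mul_le_mul_of_nonneg_right (mul_le_mul_of_nonneg_left h4 hC₂.le) hZ0.le
        · have h5 : 1 ≤ Z * Z := by nlinarith
          nlinarith
    _ = δ * ((C₂ * C₄ + 1) * Z ^ 3) := by ring
    _ ≤ δ * (Z * Z ^ 3) := by gcongr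
    _ = δ * X := by rw [← hZ4]; ring

/-- QT main, with constants that depend on the degree only. -/
theorem total2 (n : ℕ) : ∃ (A : ℕ) (C : ℝ), 1 ≤ A ∧ 0 < C ∧ ∀ δ l : ℝ, 0 < δ → δ ≤ 1 / 2 →
    0 ≤ l → l ≤ δ / A → ∀ (W : WeierstrassCurve ℤ), W.Δ ≠ 0 → ∀ (N B : ℕ) (F K : Fin N → Type u)
    [∀ i, Field (F i)] [∀ i, NumberField (F i)] [∀ i, Field (K i)] [∀ i, NumberField (K i)],
    (∀ i, Module.finrank ℚ (F i) ≤ n) → (∀ i, Module.finrank ℚ (K i) ≤ n) →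
    ∀ LF LK Q : Fin N → ℂ → ℂ, (∀ i, Differentiable ℂ (LF i)) → (∀ i, Differentiable ℂ (Q i)) →
    (∀ i, ∀ s : ℂ, 3 / 2 < s.re → LF i s = ((W.baseChange ℚ).baseChange (F i)).LSeries s) →
    (∀ i, ∀ s : ℂ, 3 / 2 < s.re → LK i s = ((W.baseChange ℚ).baseChange (K i)).LSeries s) →
    (∀ i s, LK i s = LF i s * Q i s) → ∀ T M : ℝ, 0 ≤ T → 2 ≤ M → |(W.Δ : ℝ)| ≤ M →
    (∀ i, ∀ s : ℂ, 3 / 2 - δ ≤ s.re → |s.im| ≤ T + 1 → ‖Q i s‖ ≤ M) →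
    (∀ i, Set.ncard {j | ¬ Pair M δ (nuDiff (F i) (K i)) (nuDiff (F j) (K j))} ≤ B) →
    ∀ S : Fin N → Finset ℂ, (∀ i, ∀ x ∈ S i, 3 / 2 - l ≤ x.re ∧ |x.im| ≤ T) →
    ∑ i, ∑ x ∈ S i, (analyticOrderNatAt (Q i) x : ℝ) ≤
      C * (B + 1) * (Real.log (M * (T + 2) / δ) / δ) ^ A * (M * (T + 2) / δ) ^ (A * l / δ) := by
  classical
  obtain ⟨C₃, C₄, hC₃, hC₄, hdat⟩ := quot_dat.{u} n
  obtain ⟨K₀, C₇, C₁₀, A₀, hK₀, hC₇, hC₁₀, hmain⟩ := count_aux2.{0} n (2 * n) C₃ C₄ hC₃ hC₄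
  obtain ⟨C₂, hC₂⟩ : ∃ C₂ : ℝ, C₂ = C₁₀ * (2 * C₇) ^ A₀ * Real.exp (2 * K₀) := ⟨_, rfl⟩
  have hC₂0 : 0 < C₂ := by rw [hC₂]; positivity
  obtain ⟨C₅, hC₅, hR⟩ := exists_R C₂ hC₂0 A₀
  obtain ⟨r, hr⟩ : ∃ r : ℕ, r = 4 * A₀ + 4 := ⟨_, rfl⟩
  obtain ⟨A, hA⟩ : ∃ A : ℕ, A = A₀ + ⌈(r + 1) * K₀⌉₊ + ⌈4 * K₀⌉₊ + ⌈2 * C₇⌉₊ := ⟨_, rfl⟩
  have hAr : ((r : ℝ) + 1) * K₀ ≤ A := by
    have h1 : ((r : ℝ) + 1) * K₀ ≤ (⌈((r : ℝ) + 1) * K₀⌉₊ : ℝ) := Nat.le_ceil _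
    rw [hA]
    push_cast
    have h2 : (0 : ℝ) ≤ (A₀ : ℝ) := Nat.cast_nonneg _
    have h3 : (0 : ℝ) ≤ (⌈4 * K₀⌉₊ : ℝ) := Nat.cast_nonneg _
    have h4 : (0 : ℝ) ≤ (⌈2 * C₇⌉₊ : ℝ) := Nat.cast_nonneg _
    linarith
  have hA4 : 4 * K₀ ≤ A := by
    have h1 : 4 * K₀ ≤ (⌈4 * K₀⌉₊ : ℝ) := Nat.le_ceil _
    rw [hA]
    push_cast
    have h2 : (0 : ℝ) ≤ (A₀ : ℝ) := Nat.cast_nonneg _
    have h3 : (0 : ℝ) ≤ (⌈((r : ℝ) + 1) * K₀⌉₊ : ℝ) := Nat.cast_nonneg _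
    have h4 : (0 : ℝ) ≤ (⌈2 * C₇⌉₊ : ℝ) := Nat.cast_nonneg _
    linarith
  have hA7 : 2 * C₇ ≤ A := by
    have h1 : 2 * C₇ ≤ (⌈2 * C₇⌉₊ : ℝ) := Nat.le_ceil _
    rw [hA]
    push_cast
    have h2 : (0 : ℝ) ≤ (A₀ : ℝ) := Nat.cast_nonneg _
    have h3 : (0 : ℝ) ≤ (⌈((r : ℝ) + 1) * K₀⌉₊ : ℝ) := Nat.cast_nonneg _
    have h4 : (0 : ℝ) ≤ (⌈4 * K₀⌉₊ : ℝ) := Nat.cast_nonneg _
    linarith
  have hA0 : A₀ ≤ A := by
    rw [hA]
    omega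
  have hA8 : (8 : ℝ) ≤ A := by linarith
  have hApos : (0 : ℝ) < A := by linarith
  obtain ⟨C₆, hC₆⟩ : ∃ C₆ : ℝ, C₆ = Real.log C₅ + (r + 1) := ⟨_, rfl⟩
  have hlogC₅ : 0 ≤ Real.log C₅ := Real.log_nonneg hC₅
  have hC₆1 : 1 ≤ C₆ := by
    rw [hC₆]
    have : (0 : ℝ) ≤ r := Nat.cast_nonneg _
    linarith
  refine ⟨A, C₂ * C₆ ^ A₀ * C₅, ?_, by positivity, ?_⟩
  · have : (1 : ℝ) ≤ A := by linarith
    exact_mod_cast this
  intro δ l hδ hδ1 hl hlA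
  intro W hW N B F K _ _ _ _ hdF hdK LF LK Q hLF hQ hLFs hLKs hfac T M hT hM hΔM hQM hB S hS
  choose E hE using fun i => hdat (F i) (K i) ((W.baseChange ℚ).baseChange (F i))
    ((W.baseChange ℚ).baseChange (K i)) (hdF i) (hdK i) (LF i) (LK i) (Q i) (hLF i) (hQ i)
    (hLFs i) (hLKs i) (hfac i)
  have hd1 : 1 ≤ 1 / δ := by
    rw [le_div_iff₀ hδ]
    linarith
  have hpow1 : 1 ≤ (1 / δ) ^ r := one_le_pow₀ hd1
  obtain ⟨M', hM'⟩ : ∃ M' : ℝ, M' = C₅ * (1 / δ) ^ r * M := ⟨_, rfl⟩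
  have hMM : M ≤ M' := by
    rw [hM']
    refine le_mul_of_one_le_left (by linarith) ?_
    nlinarith
  have hX0 : 0 < M * (T + 2) := by nlinarith
  have hX1 : 1 ≤ M * (T + 2) := by nlinarith
  obtain ⟨X, hX⟩ : ∃ X : ℝ, X = M * (T + 2) / δ := ⟨_, rfl⟩
  obtain ⟨X', hX'⟩ : ∃ X' : ℝ, X' = M' * (T + 2) / δ := ⟨_, rfl⟩
  have hXX' : X' = C₅ * (1 / δ) ^ r * (M * (T + 2)) / δ := by rw [hX', hM']; ring
  have hXX'2 : X' = C₅ * (1 / δ) ^ r * X := by rw [hXX', hX]; ring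
  have hX4 : 1 / δ ≤ X := by
    rw [hX]
    exact div_le_div_of_nonneg_right hX1 hδ.le
  have hX1' : 1 ≤ X := hd1.trans hX4
  have hXpos : 0 < X := by linarith
  have hX'X : X ≤ X' := by
    rw [hXX'2]
    refine le_mul_of_one_le_left hXpos.le ?_
    nlinarith
  have hX'1 : 1 ≤ X' := hX1'.trans hX'X
  have hX'0 : 0 < X' := by linarith
  have hLg : Zfr.Lg M' T δ = Real.log X' := by
    rw [hX']
    rfl
  have hLg2 : 2 ≤ Real.log X := by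
    have h1 := Zfr.two_le_Lg hδ hδ1 hT hM
    have h2 : Zfr.Lg M T δ = Real.log X := by
      rw [hX]
      rfl
    rwa [h2] at h1
  have hLg2' : 2 ≤ Real.log X' := hLg2.trans (Real.log_le_log hXpos hX'X)
  obtain ⟨ℓ, hℓ⟩ : ∃ ℓ, ℓ = Real.log X' := ⟨_, rfl⟩
  have hℓ2 : 2 ≤ ℓ := by rw [hℓ]; exact hLg2'
  have hℓ0 : 0 < ℓ := by linarith
  -- the width
  obtain ⟨η, hη⟩ : ∃ η : ℝ, η = l + δ / (2 * C₇ * ℓ) := ⟨_, rfl⟩
  have hC₇0 : 0 < C₇ := by linarith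
  have hηp : 0 < δ / (2 * C₇ * ℓ) := by positivity
  have hη0 : 0 < η := by rw [hη]; linarith
  have hlη : l ≤ η := by rw [hη]; linarith
  have hlC : 2 * C₇ * l ≤ δ := by
    have h1 : (A : ℝ) * l ≤ δ := by
      rw [mul_comm]
      exact (le_div_iff₀ hApos).1 hlA
    exact (mul_le_mul_of_nonneg_right hA7 hl).trans h1
  have hηC : C₇ * η ≤ δ := by
    have h1 : C₇ * (δ / (2 * C₇ * ℓ)) = δ / (2 * ℓ) := by
      field_simp
    have h2 : δ / (2 * ℓ) ≤ δ / 2 := by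
      refine div_le_div_of_nonneg_left hδ.le (by norm_num) ?_
      linarith
    rw [hη, mul_add, h1]
    linarith
  have hη1 : η ≤ 1 := by nlinarith
  have hηinv : η⁻¹ ≤ 2 * C₇ * (ℓ / δ) := by
    have h1 : η⁻¹ ≤ (δ / (2 * C₇ * ℓ))⁻¹ := inv_anti₀ hηp (by rw [hη]; linarith)
    refine h1.trans (le_of_eq ?_)
    rw [inv_div]
    ring
  -- the bound
  obtain ⟨D, hD⟩ : ∃ D : ℝ, D = C₂ * (Real.log X' / δ) ^ A₀ * X' ^ (K₀ * l / δ) := ⟨_, rfl⟩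
  have hcoef : ∀ i, ∀ p : ℕ, p.Prime → 3 < p → M' < p →
      (Tw.yg ((W.baseChange ℚ).baseChange (K i)) p - Tw.yg ((W.baseChange ℚ).baseChange (F i)) p) =
      (nuDiff (F i) (K i) p : ℝ) * Fam.yy W p := by
    intro i p hp h3 hpM
    have hΔ : ((W.Δ : ℤ) : ZMod p) ≠ 0 := by
      intro h
      rw [ZMod.intCast_zmod_eq_zero_iff_dvd] at h
      have h4 := Int.le_of_dvd (abs_pos.2 hW) ((dvd_abs _ _).2 h)
      have h5 : ((p : ℕ) : ℝ) ≤ |(W.Δ : ℝ)| := by exact_mod_cast h4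
      linarith
    rw [yg_baseChange W (K i) hp h3 hΔ, yg_baseChange W (F i) hp h3 hΔ]
    unfold nuDiff
    push_cast
    ring
  have hsub : ∀ J : Finset (Fin N), (J.card : ℝ) ≤ ((B : ℝ) + 1) * (M' * (T + 2)) →
      ∑ i ∈ J, ((∑ x ∈ S i, analyticOrderNatAt (Q i) x : ℕ) : ℝ) ≤ ((B : ℝ) + 1) * D := by
    intro J hJ
    have h1 := hmain η hη0 hη1 B (Fin N) J Q E
      (fun i p => Tw.yg ((W.baseChange ℚ).baseChange (K i)) p -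
        Tw.yg ((W.baseChange ℚ).baseChange (F i)) p) (Fam.yy W)
      (fun i p => nuDiff (F i) (K i) p) δ T M' hδ hδ1 hT (hM.trans hMM) (fun i _ => hE i)
      (Fam.abs_yy_le W) (fun i _ p hp => abs_nuDiff_le (F i) (K i) (hdF i) (hdK i) hp)
      (fun i _ => (Set.ncard_le_ncard (fun j hj => fun h => hj.2 (h.mono hMM))
        (Set.toFinite _)).trans (hB i)) (fun i _ => hcoef i)
      (fun i _ s h1 h2 => (hQM i s h1 h2).trans hMM) hJ hηC S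
      (fun i _ x hx => ⟨by linarith [(hS i x hx).1], (hS i x hx).2⟩)
    push_cast
    refine h1.trans ?_
    rw [hLg, ← hℓ]
    have h2 : K₀ * (1 + η * (ℓ / δ)) ≤ 2 * K₀ + K₀ * l / δ * ℓ := by
      have h3 : η * (ℓ / δ) = l * (ℓ / δ) + 1 / (2 * C₇) := by
        rw [hη]
        field_simp
      have h4 : 1 / (2 * C₇) ≤ 1 := by
        rw [div_le_iff₀ (by positivity)]
        linarith
      rw [h3]
      calc K₀ * (1 + (l * (ℓ / δ) + 1 / (2 * C₇))) ≤ K₀ * (1 + (l * (ℓ / δ) + 1)) := by gcongr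
        _ = _ := by ring
    have h5 : Real.exp (K₀ * (1 + η * (ℓ / δ))) ≤ Real.exp (2 * K₀) * X' ^ (K₀ * l / δ) := by
      refine (Real.exp_le_exp.2 h2).trans (le_of_eq ?_)
      rw [Real.exp_add, Real.rpow_def_of_pos hX'0, ← hℓ, mul_comm ℓ]
    have h6 : (η⁻¹) ^ A₀ ≤ (2 * C₇) ^ A₀ * (ℓ / δ) ^ A₀ := by
      rw [← mul_pow]
      exact pow_le_pow_left₀ (by positivity) hηinv _
    calc C₁₀ * (η⁻¹) ^ A₀ * (B + 1) * Real.exp (K₀ * (1 + η * (ℓ / δ)))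
        ≤ C₁₀ * ((2 * C₇) ^ A₀ * (ℓ / δ) ^ A₀) * (B + 1) *
            (Real.exp (2 * K₀) * X' ^ (K₀ * l / δ)) := by gcongr
      _ = _ := by
          rw [hD, hC₂, hℓ]
          ring
  have hlK : K₀ * l / δ ≤ 1 / 4 := by
    rw [div_le_iff₀ hδ]
    have h1 : (A : ℝ) * l ≤ δ := by
      rw [mul_comm]
      exact (le_div_iff₀ hApos).1 hlA
    have h2 := mul_le_mul_of_nonneg_right hA4 hl
    linarith
  have hlog0 : 0 ≤ Real.log X' / δ := by positivity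
  have hDX : D + 1 ≤ M' * (T + 2) := by
    have h1 := hR δ (M * (T + 2)) X' hδ hδ1 hX1 (by rw [hXX', hr])
    have h2 : δ * X' = M' * (T + 2) := by
      rw [hX']
      field_simp
    rw [h2] at h1
    refine le_trans ?_ h1
    have h3 : X' ^ (K₀ * l / δ) ≤ X' ^ (1 / 4 : ℝ) :=
      Real.rpow_le_rpow_of_exponent_le hX'1 hlK
    rw [hD]
    gcongr
  have hall := subfamily2 (fun i => ∑ x ∈ S i, analyticOrderNatAt (Q i) x) (M' * (T + 2)) D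
    ((B : ℝ) + 1) (by
      have : (0 : ℝ) ≤ B := Nat.cast_nonneg B
      linarith) (by
      have h1 : 0 < M' := by linarith
      positivity) hDX hsub
  push_cast at hall
  refine hall.trans ?_
  rw [← hX]
  -- the comparison
  have hX'le : X' ≤ C₅ * X ^ (r + 1) := by
    rw [hXX'2, pow_succ, mul_assoc]
    refine mul_le_mul_of_nonneg_left ?_ (by linarith)
    exact mul_le_mul_of_nonneg_right (pow_le_pow_left₀ (by positivity) hX4 _) hXpos.le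
  have hlogle : Real.log X' / δ ≤ C₆ * (Real.log X / δ) := by
    have h1 : Real.log X' ≤ C₆ * Real.log X := by
      have h2 := Real.log_le_log hX'0 hX'le
      rw [Real.log_mul (by positivity) (by positivity), Real.log_pow] at h2
      push_cast at h2
      have h3 : Real.log C₅ ≤ Real.log C₅ * Real.log X := by nlinarith
      rw [hC₆]
      nlinarith
    calc Real.log X' / δ ≤ C₆ * Real.log X / δ := div_le_div_of_nonneg_right h1 hδ.le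
      _ = _ := by ring
  have hlogX1 : 1 ≤ Real.log X / δ := by
    rw [le_div_iff₀ hδ]
    linarith
  have hpowle : (Real.log X' / δ) ^ A₀ ≤ C₆ ^ A₀ * (Real.log X / δ) ^ A := by
    refine (pow_le_pow_left₀ hlog0 hlogle _).trans ?_
    rw [mul_pow]
    refine mul_le_mul_of_nonneg_left ?_ (by positivity)
    exact pow_le_pow_right₀ hlogX1 hA0
  have he0 : 0 ≤ K₀ * l / δ := by positivity
  have hrpow : X' ^ (K₀ * l / δ) ≤ C₅ * X ^ (A * l / δ) := by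
    have h1 : X' ^ (K₀ * l / δ) ≤ (C₅ * X ^ (r + 1)) ^ (K₀ * l / δ) :=
      Real.rpow_le_rpow hX'0.le hX'le he0
    refine h1.trans ?_
    rw [Real.mul_rpow (by linarith) (by positivity)]
    refine mul_le_mul ?_ ?_ (by positivity) (by linarith)
    · calc C₅ ^ (K₀ * l / δ) ≤ C₅ ^ (1 : ℝ) :=
            Real.rpow_le_rpow_of_exponent_le hC₅ (by linarith)
        _ = C₅ := Real.rpow_one _
    · rw [← Real.rpow_natCast, ← Real.rpow_mul hXpos.le]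
      refine Real.rpow_le_rpow_of_exponent_le hX1' ?_
      push_cast
      calc ((r : ℝ) + 1) * (K₀ * l / δ) = (((r : ℝ) + 1) * K₀) * (l / δ) := by ring
        _ ≤ A * (l / δ) := mul_le_mul_of_nonneg_right hAr (by positivity)
        _ = _ := by ring
  have hB0 : (0 : ℝ) ≤ (B : ℝ) + 1 := by positivity
  calc ((B : ℝ) + 1) * D ≤ ((B : ℝ) + 1) * (C₂ * (C₆ ^ A₀ * (Real.log X / δ) ^ A) *
        (C₅ * X ^ (A * l / δ))) := by
        rw [hD]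
        gcongr
    _ = _ := by ring

end Pool.Agent.MPfb225e.Qt
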