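import Mathlib
import Pool.Agent.Lib.MP_fb225e_nt.Fam.Dihedral

/-!
MP_fb225e_nt, project QT, module Heil: group theory (Heilbronn characters).
-/

namespace Pool.Agent.MPfb225e.Qt

open Grp Subgroup
open scoped commutatorElement

universe u

/-- The characters of `H₁` which are trivial on `H`. -/
def triv {G : Type u} [Group G] (H₁ H : Subgroup G) : Set (H₁ →* ℂˣ) :=
  {χ | ∀ h : H₁, (h : G) ∈ H → χ h = 1}

open Classical in
/-- The orders `m H` are averages of the class function `a`, and they are sums of non-negative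
orders over the characters. -/
structure Hb {G : Type u} [Group G] [Fintype G] (a : G → ℝ) (m : Subgroup G → ℕ) : Prop where
  cls : ∀ x y, a (x⁻¹ * y * x) = a y
  avg : ∀ H : Subgroup G, sm a H = Nat.card H * (m H : ℝ)
  ab : ∀ H₁ : Subgroup G, ∃ n : (H₁ →* ℂˣ) → ℕ, ∀ H : Subgroup G, H ≤ H₁ → ⁅H₁, H₁⁆ ≤ H →
    m H = ∑ᶠ χ ∈ triv H₁ H, n χ

variable {G : Type u} [Group G] [Fintype G]

omit [Fintype G] in
theorem card_rel {D K : Subgroup G} (h : D ≤ K) : Nat.card D * D.relIndex K = Nat.card K := by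
  rw [← Subgroup.relIndex_bot_left, ← Subgroup.relIndex_bot_left,
    Subgroup.relIndex_mul_relIndex ⊥ D K bot_le h]

theorem sm_eq_sum {R : Type*} [AddCommMonoid R] (f : G → R) (H : Subgroup G) [Fintype H] :
    sm f H = ∑ h : H, f h := by
  classical
  unfold sm
  rw [← Finset.sum_filter]
  exact Finset.sum_subtype (Finset.univ.filter fun g => g ∈ H) (by simp) f

theorem sm_inf {R : Type*} [AddCommMonoid R] (f : G → R) (C D : Subgroup G) :
    sm (fun x => by classical exact if x ∈ C then f x else 0) D = sm f (D ⊓ C) := by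
  classical
  unfold sm
  refine Finset.sum_congr rfl fun x _ => ?_
  by_cases h1 : x ∈ D
  · by_cases h2 : x ∈ C
    · simp [h1, h2, mem_inf]
    · simp [h1, h2, mem_inf]
  · simp [h1, mem_inf]

omit [Fintype G] in
open Classical in
theorem finsum_triv (H₁ H : Subgroup G) (n : (H₁ →* ℂˣ) → ℕ) [Fintype (H₁ →* ℂˣ)] :
    ∑ᶠ χ ∈ triv H₁ H, n χ = ∑ χ, if χ ∈ triv H₁ H then n χ else 0 := by
  rw [finsum_eq_sum_of_fintype]
  refine Finset.sum_congr rfl fun χ _ => ?_
  rw [finsum_eq_if]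

omit [Fintype G] in
/-- The character sums over a subgroup. -/
theorem char_sum (H₁ H : Subgroup G) (hH : H ≤ H₁) (χ : H₁ →* ℂˣ) [Fintype H] :
    (∑ h : H, ((χ ⟨h, hH h.2⟩ : ℂˣ) : ℂ)) = by
      classical exact if χ ∈ triv H₁ H then (Nat.card H : ℂ) else 0 := by
  classical
  set ψ : H →* ℂ := (Units.coeHom ℂ).comp (χ.comp (inclusion hH)) with hψ
  have h1 : (∑ h : H, ((χ ⟨h, hH h.2⟩ : ℂˣ) : ℂ)) = ∑ h : H, ψ h := rfl
  rw [h1]
  by_cases hχ : χ ∈ triv H₁ H
  · rw [if_pos hχ]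
    have h2 : ∀ h : H, ψ h = 1 := by
      intro h
      have h3 : χ (inclusion hH h) = 1 := hχ _ h.2
      rw [hψ, MonoidHom.comp_apply, MonoidHom.comp_apply, h3, map_one]
    rw [Finset.sum_congr rfl fun h _ => h2 h, Finset.sum_const, Finset.card_univ, nsmul_eq_mul,
      mul_one, Nat.card_eq_fintype_card]
  · rw [if_neg hχ]
    refine sum_hom_units_eq_zero ψ fun h2 => hχ ?_
    intro h hh
    have h3 : ψ ⟨h, hh⟩ = 1 := by rw [h2, MonoidHom.one_apply]
    exact Units.val_eq_one.1 h3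

/-- The sum over the generators of a cyclic subgroup is at most the one for the trivial group. -/
theorem local_bound {a : G → ℝ} {m : Subgroup G → ℕ} (hb : Hb a m) (g : G) :
    gen a (zpowers g) ≤ gen (fun _ => (m ⊥ : ℝ)) (zpowers g) := by
  classical
  set C := zpowers g with hC
  obtain ⟨n, hn⟩ := hb.ab C
  have hfin : Fintype (C →* ℂˣ) := Fintype.ofFinite _
  have hcomm : ⁅C, C⁆ = ⊥ := by
    rw [Subgroup.commutator_eq_bot_iff_le_centralizer]
    intro x hx
    rw [mem_centralizer_iff]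
    intro y hy
    obtain ⟨i, rfl⟩ := mem_zpowers_iff.1 (hC ▸ hx)
    obtain ⟨j, rfl⟩ := mem_zpowers_iff.1 (hC ▸ hy)
    rw [← zpow_add, ← zpow_add, add_comm]
  have hn' : ∀ H : Subgroup G, H ≤ C → (m H : ℝ) =
      ∑ χ, if χ ∈ triv C H then (n χ : ℝ) else 0 := by
    intro H hH
    rw [hn H hH (by rw [hcomm]; exact bot_le), finsum_triv]
    push_cast
    rfl
  set b : G → ℝ := fun x => if hx : x ∈ C then ∑ χ : C →* ℂˣ, (n χ : ℝ) *
    ((χ ⟨x, hx⟩ : ℂˣ) : ℂ).re else 0 with hbdef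
  have hbH : ∀ H : Subgroup G, H ≤ C → sm b H = Nat.card H * (m H : ℝ) := by
    intro H hH
    rw [sm_eq_sum, hn' H hH, Finset.mul_sum]
    have h1 : ∀ h : H, b h = ∑ χ : C →* ℂˣ, (n χ : ℝ) * ((χ ⟨h, hH h.2⟩ : ℂˣ) : ℂ).re := by
      intro h
      rw [hbdef]
      simp only
      rw [dif_pos (hH h.2)]
    rw [Finset.sum_congr rfl fun h _ => h1 h, Finset.sum_comm]
    refine Finset.sum_congr rfl fun χ _ => ?_
    rw [← Finset.mul_sum, ← Complex.re_sum, char_sum C H hH χ]
    split_ifs with h2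
    · rw [Complex.natCast_re]
      ring
    · rw [Complex.zero_re, mul_zero, mul_zero]
  have hble : ∀ x ∈ C, b x ≤ (m ⊥ : ℝ) := by
    intro x hx
    rw [hbdef]
    simp only
    rw [dif_pos hx, hn' ⊥ bot_le]
    refine Finset.sum_le_sum fun χ _ => ?_
    have h1 : χ ∈ triv C ⊥ := by
      intro h hh
      have : h = 1 := Subtype.ext (mem_bot.1 hh)
      rw [this, map_one]
    rw [if_pos h1]
    have h2 : ‖((χ ⟨x, hx⟩ : ℂˣ) : ℂ)‖ = 1 := by
      have h3 : ((χ ⟨x, hx⟩ : ℂˣ) : ℂ) ^ orderOf (⟨x, hx⟩ : C) = 1 := by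
        rw [← Units.val_pow_eq_pow_val, ← map_pow, pow_orderOf_eq_one, map_one, Units.val_one]
      exact Complex.norm_eq_one_of_pow_eq_one h3 (orderOf_pos _).ne'
    have h3 := Complex.re_le_norm ((χ ⟨x, hx⟩ : ℂˣ) : ℂ)
    rw [h2] at h3
    calc (n χ : ℝ) * ((χ ⟨x, hx⟩ : ℂˣ) : ℂ).re ≤ n χ * 1 :=
          mul_le_mul_of_nonneg_left h3 (Nat.cast_nonneg _)
      _ = n χ := mul_one _
  -- the difference has zero sums
  set d : G → ℝ := fun x => if x ∈ C then a x - b x else 0 with hd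
  have hd0 : ∀ y, sm d (zpowers y) = 0 := by
    intro y
    have h1 : sm d (zpowers y) = sm (fun x => a x - b x) (zpowers y ⊓ C) := by
      rw [← sm_inf]
    rw [h1, sm_sub, hb.avg, hbH _ inf_le_right, sub_self]
  have h1 := gen_eq_zero d hd0 (Nat.card C) C rfl
  have h2 : gen d C = gen a C - gen b C := by
    unfold gen
    rw [← Finset.sum_sub_distrib]
    refine Finset.sum_congr rfl fun x _ => ?_
    split_ifs with h
    · have hx : x ∈ C := h ▸ mem_zpowers x
      rw [hd]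
      simp only
      rw [if_pos hx]
    · rw [sub_zero]
  rw [h2, sub_eq_zero] at h1
  rw [h1]
  unfold gen
  refine Finset.sum_le_sum fun x _ => ?_
  split_ifs with h
  · exact hble x (h ▸ mem_zpowers x)
  · exact le_rfl

theorem gen_noncyclic {R : Type*} [AddCommGroup R] (f : G → R) (C : Subgroup G)
    (hC : ¬ ∃ g, zpowers g = C) : gen f C = 0 := by
  unfold gen
  refine Finset.sum_eq_zero fun g _ => ?_
  rw [if_neg fun h1 => hC ⟨g, h1⟩]

/-- Below `N`. -/
theorem below {a : G → ℝ} {m : Subgroup G → ℕ} (hb : Hb a m) (N : Subgroup G)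
    (h0 : m ⊥ = m N) (H : Subgroup G) (hH : H ≤ N) : m H = m N := by
  classical
  have hf : Fintype (Subgroup G) := Fintype.ofFinite _
  have hle : ∀ C : Subgroup G, gen a C ≤ gen (fun _ => (m ⊥ : ℝ)) C := by
    intro C
    by_cases hC : ∃ g, zpowers g = C
    · obtain ⟨g, rfl⟩ := hC
      exact local_bound hb g
    · rw [gen_noncyclic _ C hC, gen_noncyclic _ C hC]
  have hcard : ∀ H : Subgroup G, sm (fun _ => (m ⊥ : ℝ)) H = Nat.card H * (m ⊥ : ℝ) := fun H =>
    sm_const _ H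
  have hN : ∑ C : Subgroup G, (if C ≤ N then gen (fun _ => (m ⊥ : ℝ)) C - gen a C else 0) = 0 := by
    have h1 : ∑ C : Subgroup G, (if C ≤ N then gen (fun _ => (m ⊥ : ℝ)) C - gen a C else 0) =
        sm (fun _ => (m ⊥ : ℝ)) N - sm a N := by
      rw [sm_eq_gen, sm_eq_gen, ← Finset.sum_sub_distrib]
      refine Finset.sum_congr rfl fun C _ => ?_
      split_ifs
      · rfl
      · rw [sub_zero]
    rw [h1, hcard, hb.avg, h0, sub_self]
  rw [Finset.sum_eq_zero_iff_of_nonneg (fun C _ => by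
    split_ifs
    · exact sub_nonneg.2 (hle C)
    · exact le_rfl)] at hN
  have h1 : sm a H = sm (fun _ => (m ⊥ : ℝ)) H := by
    rw [sm_eq_gen, sm_eq_gen]
    refine Finset.sum_congr rfl fun C _ => ?_
    split_ifs with hC
    · have h2 := hN C (Finset.mem_univ C)
      rw [if_pos (hC.trans hH)] at h2
      linarith
    · rfl
  rw [hb.avg, hcard] at h1
  have h2 : (0 : ℝ) < Nat.card H := by exact_mod_cast Nat.card_pos
  have h3 := mul_left_cancel₀ h2.ne' h1
  rw [← h0]
  exact_mod_cast h3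

/-- Abelian steps outside `N`. -/
theorem step {a : G → ℝ} {m : Subgroup G → ℕ} (hb : Hb a m) (N : Subgroup G) [N.Normal] {p : ℕ}
    (hp : p.Prime) (hN : N.index = p) (h0 : m ⊥ = m N) (H₁ H₂ : Subgroup G) (h21 : H₂ ≤ H₁)
    (hc : ⁅H₁, H₁⁆ ≤ H₂) (h2N : ¬ H₂ ≤ N) : m H₂ = m H₁ := by
  classical
  have hfact : Fact p.Prime := ⟨hp⟩
  obtain ⟨n, hn⟩ := hb.ab H₁
  have hfin : Fintype (H₁ →* ℂˣ) := Fintype.ofFinite _
  have hcard : Nat.card (G ⧸ N) = p := hN
  have hcyc : IsCyclic (G ⧸ N) := isCyclic_of_prime_card hcard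
  have hcN : ⁅H₁, H₁⁆ ≤ N := by
    have h1 := (Subgroup.Normal.quotient_commutative_iff_commutator_le (N := N)).1
      IsCyclic.isMulCommutative
    refine le_trans ?_ h1
    exact Subgroup.commutator_mono le_top le_top
  have e2 : ∑ χ, (if χ ∈ triv H₁ (H₂ ⊓ N) then n χ else 0) =
      ∑ χ, (if χ ∈ triv H₁ (H₁ ⊓ N) then n χ else 0) := by
    rw [← finsum_triv, ← finsum_triv, ← hn _ (inf_le_left.trans h21) (le_inf hc hcN),
      ← hn _ inf_le_left (le_inf (hc.trans h21) hcN), below hb N h0 _ inf_le_right,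
      below hb N h0 _ inf_le_right]
  have hsub : triv H₁ (H₁ ⊓ N) ⊆ triv H₁ (H₂ ⊓ N) := by
    intro χ hχ h hh
    exact hχ h ⟨h.2, hh.2⟩
  have hzero : ∀ χ, χ ∈ triv H₁ (H₂ ⊓ N) → χ ∉ triv H₁ (H₁ ⊓ N) → n χ = 0 := by
    have h1 : ∑ χ, ((if χ ∈ triv H₁ (H₂ ⊓ N) then n χ else 0) -
        (if χ ∈ triv H₁ (H₁ ⊓ N) then n χ else 0)) = 0 := by
      have h2 : ∑ χ, ((if χ ∈ triv H₁ (H₂ ⊓ N) then n χ else 0) -
          (if χ ∈ triv H₁ (H₁ ⊓ N) then n χ else 0)) +
          ∑ χ, (if χ ∈ triv H₁ (H₁ ⊓ N) then n χ else 0) =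
          ∑ χ, (if χ ∈ triv H₁ (H₂ ⊓ N) then n χ else 0) := by
        rw [← Finset.sum_add_distrib]
        refine Finset.sum_congr rfl fun χ _ => ?_
        by_cases h3 : χ ∈ triv H₁ (H₁ ⊓ N)
        · rw [if_pos h3, if_pos (hsub h3)]
          omega
        · rw [if_neg h3]
          omega
      omega
    intro χ h3 h4
    have h5 := (Finset.sum_eq_zero_iff.1 h1) χ (Finset.mem_univ χ)
    rw [if_pos h3, if_neg h4] at h5
    omega
  -- generation
  obtain ⟨z, hz2, hzN⟩ := SetLike.not_le_iff_exists.1 h2N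
  have hztop : zpowers (z : G ⧸ N) = ⊤ := by
    refine zpowers_eq_top_of_prime_card hcard ?_
    intro h
    exact hzN ((QuotientGroup.eq_one_iff z).1 h)
  have htriv : ∀ χ, χ ∈ triv H₁ H₂ → χ ∈ triv H₁ (H₁ ⊓ N) → χ ∈ triv H₁ H₁ := by
    intro χ h1 h2 h _
    have h3 : (h : G ⧸ N) ∈ zpowers (z : G ⧸ N) := by
      rw [hztop]
      exact mem_top _
    obtain ⟨k, hk⟩ := mem_zpowers_iff.1 h3
    have h4 : ((z ^ k)⁻¹ * (h : G)) ∈ N := by
      rw [← QuotientGroup.eq_one_iff, QuotientGroup.mk_mul, QuotientGroup.mk_inv,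
        QuotientGroup.mk_zpow, hk, inv_mul_cancel]
    have hz1 : z ∈ H₁ := h21 hz2
    set z' : H₁ := ⟨z, hz1⟩ with hz'
    have h5 : χ z' = 1 := h1 z' hz2
    have h6 : χ ((z' ^ k)⁻¹ * h) = 1 := by
      refine h2 _ ⟨SetLike.coe_mem _, ?_⟩
      simpa [hz'] using h4
    rw [map_mul, map_inv, map_zpow, h5, one_zpow, inv_one, one_mul] at h6
    exact h6
  rw [hn H₂ h21 hc, hn H₁ le_rfl (hc.trans h21), finsum_triv, finsum_triv]
  refine Finset.sum_congr rfl fun χ _ => ?_
  by_cases h1 : χ ∈ triv H₁ H₂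
  · rw [if_pos h1]
    by_cases h2 : χ ∈ triv H₁ (H₁ ⊓ N)
    · rw [if_pos (htriv χ h1 h2)]
    · have h3 : χ ∈ triv H₁ (H₂ ⊓ N) := fun h hh => h1 h hh.1
      rw [hzero χ h3 h2, ite_self]
  · rw [if_neg h1]
    have h2 : χ ∉ triv H₁ H₁ := fun h => h1 fun x hx => h x (h21 hx)
    rw [if_neg h2]

/-- Conjugation. -/
theorem conj_eq {a : G → ℝ} {m : Subgroup G → ℕ} (hb : Hb a m) (x : G) (H : Subgroup G) :
    m (H.map (MulAut.conj x).toMonoidHom) = m H := by
  classical
  have h1 : sm a (H.map (MulAut.conj x).toMonoidHom) = sm a H := by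
    unfold sm
    rw [← Equiv.sum_comp (MulAut.conj x).toEquiv]
    refine Finset.sum_congr rfl fun g _ => ?_
    have e1 : (MulAut.conj x).toEquiv g ∈ H.map (MulAut.conj x).toMonoidHom ↔ g ∈ H := by
      constructor
      · rintro ⟨y, hy, hyx⟩
        have : y = g := (MulAut.conj x).injective hyx
        rwa [← this]
      · intro h
        exact ⟨g, h, rfl⟩
    have e2 : a ((MulAut.conj x).toEquiv g) = a g := by
      change a (x * g * x⁻¹) = a g
      have := hb.cls x⁻¹ g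
      rwa [inv_inv] at this
    rw [e2]
    simp only [e1]
  have h2 : Nat.card (H.map (MulAut.conj x).toMonoidHom) = Nat.card H :=
    (Nat.card_congr (H.equivMapOfInjective _ (MulAut.conj x).injective).toEquiv).symm
  rw [hb.avg, hb.avg, h2] at h1
  have h3 : (0 : ℝ) < Nat.card H := by exact_mod_cast Nat.card_pos
  exact_mod_cast mul_left_cancel₀ h3.ne' h1

/-- Subgroups of prime power order which are not contained in `N`. -/
theorem psub {a : G → ℝ} {m : Subgroup G → ℕ} (hb : Hb a m) (N : Subgroup G) [N.Normal] {p : ℕ}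
    [hp : Fact p.Prime] (hN : N.index = p) (h0 : m ⊥ = m N) (P : Sylow p G) :
    ∀ (k j : ℕ) (D : Subgroup G), Nat.card D = p ^ j → (Nat.card G).factorization p = j + k →
      ¬ D ≤ N → m D = m (P : Subgroup G) := by
  intro k
  induction k with
  | zero =>
    intro j D hD hj hDN
    rw [add_zero] at hj
    -- `D` is a Sylow subgroup
    have hDp : IsPGroup p D := IsPGroup.of_card hD
    obtain ⟨Q, hQ⟩ := hDp.exists_le_sylow
    have h1 : Nat.card Q = p ^ j := by rw [Q.card_eq_multiplicity, hj]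
    have h2 : D = (Q : Subgroup G) := by
      refine Subgroup.eq_of_le_of_card_ge hQ ?_
      rw [hD]
      exact h1.le
    obtain ⟨x, hx⟩ := MulAction.exists_smul_eq G Q P
    rw [h2, ← hx]
    exact (conj_eq hb x Q).symm
  | succ k ih =>
    intro j D hD hj hDN
    have hdvd : p ^ (j + 1) ∣ Nat.card G := by
      refine (pow_dvd_pow p ?_).trans (Nat.ordProj_dvd (Nat.card G) p)
      omega
    obtain ⟨K, hK, hDK⟩ := Sylow.exists_subgroup_card_pow_succ hdvd hD
    have hKN : ¬ K ≤ N := fun h => hDN (hDK.trans h)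
    have hnorm : (D.subgroupOf K).Normal := by
      refine Subgroup.normal_of_index_eq_minFac_card ?_
      have h1 : D.relIndex K * Nat.card D = Nat.card K := by
        rw [mul_comm]
        exact card_rel hDK
      rw [hD, hK, pow_succ'] at h1
      have h2 : D.relIndex K = p :=
        Nat.eq_of_mul_eq_mul_right (pow_pos hp.1.pos j) h1
      rw [hK, Nat.pow_minFac (by omega), hp.1.minFac_eq]
      exact h2
    have hcomm : ⁅K, K⁆ ≤ D := by
      have h1 : Nat.card (K ⧸ D.subgroupOf K) = p := by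
        have h2 : D.relIndex K * Nat.card D = Nat.card K := by
          rw [mul_comm]
          exact card_rel hDK
        rw [hD, hK, pow_succ'] at h2
        exact Nat.eq_of_mul_eq_mul_right (pow_pos hp.1.pos j) h2
      have hcyc : IsCyclic (K ⧸ D.subgroupOf K) := isCyclic_of_prime_card h1
      have h3 := (Subgroup.Normal.quotient_commutative_iff_commutator_le
        (N := D.subgroupOf K)).1 IsCyclic.isMulCommutative
      rw [Subgroup.commutator_le]
      intro x hx y hy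
      have h4 : ⁅(⟨x, hx⟩ : K), (⟨y, hy⟩ : K)⁆ ∈ D.subgroupOf K :=
        h3 (Subgroup.commutator_mem_commutator (mem_top _) (mem_top _))
      exact h4
    rw [step hb N hp.1 hN h0 K D hDK hcomm hDN]
    exact ih (j + 1) K hK (by omega) hKN

/-- Cyclic subgroups which are not contained in `N`. -/
theorem cyc {a : G → ℝ} {m : Subgroup G → ℕ} (hb : Hb a m) (N : Subgroup G) [N.Normal] {p : ℕ}
    [hp : Fact p.Prime] (hN : N.index = p) (h0 : m ⊥ = m N) (P : Sylow p G) (g : G)
    (hg : g ∉ N) : m (zpowers g) = m (P : Subgroup G) := by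
  set k := orderOf g with hk
  have hk0 : 0 < k := orderOf_pos g
  obtain ⟨r, hr⟩ : ∃ r, r = k / p ^ k.factorization p := ⟨_, rfl⟩
  have hkr : p ^ k.factorization p * r = k := by
    rw [hr]
    exact Nat.ordProj_mul_ordCompl_eq_self k p
  have hrp : Nat.Coprime p r := by
    rw [hr]
    exact Nat.coprime_ordCompl hp.1 hk0.ne'
  set D := zpowers (g ^ r) with hD
  have hcardD : Nat.card D = p ^ k.factorization p := by
    rw [hD, Nat.card_zpowers, orderOf_pow, ← hk]
    have h1 : r ∣ k := ⟨_, by rw [mul_comm]; exact hkr.symm⟩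
    rw [Nat.gcd_eq_right h1]
    have hr0 : 0 < r := Nat.pos_of_dvd_of_pos h1 hk0
    exact Nat.div_eq_of_eq_mul_left hr0 hkr.symm
  have hcard : Nat.card (G ⧸ N) = p := hN
  have hDN : ¬ D ≤ N := by
    intro h
    have h1 : g ^ r ∈ N := h (mem_zpowers _)
    have h2 : (g : G ⧸ N) ^ r = 1 := by
      rw [← QuotientGroup.mk_pow]
      exact (QuotientGroup.eq_one_iff _).2 h1
    have h3 : (g : G ⧸ N) ^ p = 1 := by
      rw [← hcard]
      exact pow_card_eq_one'
    have h4 : orderOf (g : G ⧸ N) ∣ Nat.gcd p r :=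
      Nat.dvd_gcd (orderOf_dvd_of_pow_eq_one h3) (orderOf_dvd_of_pow_eq_one h2)
    rw [hrp, Nat.dvd_one, orderOf_eq_one_iff] at h4
    exact hg ((QuotientGroup.eq_one_iff g).1 h4)
  have hcomm : ⁅zpowers g, zpowers g⁆ = ⊥ := by
    rw [Subgroup.commutator_eq_bot_iff_le_centralizer]
    intro x hx
    rw [mem_centralizer_iff]
    intro y hy
    obtain ⟨i, rfl⟩ := mem_zpowers_iff.1 hx
    obtain ⟨j, rfl⟩ := mem_zpowers_iff.1 hy
    rw [← zpow_add, ← zpow_add, add_comm]
  have h1 := step hb N hp.1 hN h0 (zpowers g) D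
    ((zpowers_le).2 (pow_mem (mem_zpowers g) r)) (by rw [hcomm]; exact bot_le) hDN
  rw [← h1]
  have h2 : k.factorization p ≤ (Nat.card G).factorization p := by
    have h3 : k ∣ Nat.card G := orderOf_dvd_natCard g
    exact (Nat.factorization_le_iff_dvd hk0.ne' Nat.card_pos.ne').2 h3 p
  exact psub hb N hN h0 P ((Nat.card G).factorization p - k.factorization p) _ D hcardD
    (by omega) hDN

/-- **Heilbronn's argument.** -/
theorem heil {a : G → ℝ} {m : Subgroup G → ℕ} (hb : Hb a m) (N : Subgroup G) [N.Normal]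
    (hN : N.index = 1 ∨ N.index.Prime) (h0 : m ⊥ = m N) (H : Subgroup G) : m H = m (H ⊔ N) := by
  classical
  by_cases hHN : H ≤ N
  · rw [sup_eq_right.2 hHN]
    exact below hb N h0 H hHN
  rcases hN with hN | hN
  · rw [Subgroup.index_eq_one] at hN
    exact absurd (hN ▸ le_top) hHN
  obtain ⟨p, hp⟩ : ∃ p, p = N.index := ⟨_, rfl⟩
  rw [← hp] at hN
  have hfact : Fact p.Prime := ⟨hN⟩
  have P : Sylow p G := default
  obtain ⟨lam, hlam⟩ : ∃ l : ℝ, l = m (P : Subgroup G) := ⟨_, rfl⟩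
  have hp2 : (2 : ℝ) ≤ p := by exact_mod_cast hN.two_le
  obtain ⟨c, hc⟩ : ∃ c : ℝ, c = (p * lam - m N) / (p - 1) := ⟨_, rfl⟩
  have hc' : (m N : ℝ) + (p - 1) * c = p * lam := by
    rw [hc]
    have : (p : ℝ) - 1 ≠ 0 := by linarith
    field_simp
    ring
  obtain ⟨f, hf⟩ : ∃ f : G → ℝ, ∀ x, f x = if x ∈ N then (m N : ℝ) else c := ⟨_, fun _ => rfl⟩
  -- sums of the model
  have hin : ∀ H : Subgroup G, H ≤ N → sm f H = Nat.card H * (m N : ℝ) := by
    intro H hH
    rw [← sm_const]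
    exact sm_congr fun x hx => by rw [hf, if_pos (hH hx)]
  have hout : ∀ H : Subgroup G, ¬ H ≤ N → sm f H = Nat.card H * lam := by
    intro H hH
    have h1 : sm f H = sm (fun x => if x ∈ N then ((m N : ℝ) - c) else 0) H +
        sm (fun _ => c) H := by
      rw [← sm_add]
      refine sm_congr fun x _ => ?_
      rw [hf]
      split_ifs <;> ring
    rw [h1, sm_inf, sm_const, sm_const]
    have h2 : Nat.card H = p * Nat.card (H ⊓ N : Subgroup G) := by
      have h3 : N.relIndex H ∣ p := by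
        rw [hp]
        exact Subgroup.relIndex_dvd_index_of_normal N H
      have h4 : N.relIndex H ≠ 1 := fun h => hH (Subgroup.relIndex_eq_one.1 h)
      have h5 : N.relIndex H = p := (Nat.dvd_prime hN).1 h3 |>.resolve_left h4
      have h6 : Nat.card (H ⊓ N : Subgroup G) * (H ⊓ N).relIndex H = Nat.card H :=
        card_rel inf_le_left
      rw [inf_comm H N, Subgroup.inf_relIndex_right, h5] at h6
      rw [inf_comm H N, ← h6, mul_comm]
    rw [h2]
    push_cast
    have h3 : ((Nat.card (H ⊓ N : Subgroup G) : ℕ) : ℝ) * ((m N : ℝ) - c) +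
        p * (Nat.card (H ⊓ N : Subgroup G) : ℝ) * c =
        (Nat.card (H ⊓ N : Subgroup G) : ℝ) * ((m N : ℝ) + (p - 1) * c) := by ring
    rw [h3, hc']
    ring
  have hzero : ∀ g, sm (fun x => a x - f x) (zpowers g) = 0 := by
    intro g
    rw [sm_sub, hb.avg]
    by_cases hg : g ∈ N
    · have h1 : zpowers g ≤ N := (zpowers_le).2 hg
      rw [hin _ h1, below hb N h0 _ h1, sub_self]
    · have h1 : ¬ zpowers g ≤ N := fun h => hg (h (mem_zpowers g))
      rw [hout _ h1, hlam, cyc hb N hp.symm h0 P g hg, sub_self]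
  have hall : ∀ H : Subgroup G, ¬ H ≤ N → (m H : ℝ) = lam := by
    intro H hH
    have h1 := artin (fun x => a x - f x) hzero H
    rw [sm_sub, hb.avg, hout H hH, ← mul_sub] at h1
    have h2 : (Nat.card H : ℝ) ≠ 0 := by
      have : 0 < Nat.card H := Nat.card_pos
      exact_mod_cast this.ne'
    linarith [(mul_eq_zero.1 h1).resolve_left h2]
  have h1 := hall H hHN
  have h2 := hall (H ⊔ N) fun h => hHN (le_sup_left.trans h)
  rw [← h2] at h1
  exact_mod_cast h1

end Pool.Agent.MPfb225e.Qt
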