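import Mathlib
import Pool.Agent.Lib.MP_fb225e_nt.Qt.Class
import Pool.Agent.Lib.MP_fb225e_nt.Qt.Heil

/-!
MP_fb225e_nt, project QT, module Gal: Heilbronn's argument for the L-functions of the subfields of a
Galois extension.
-/

namespace Pool.Agent.MPfb225e.Qt

open NumberField Grp
open scoped commutatorElement

universe u

/-- The twists of the L-functions by the characters are entire: for each subfield `K₁` there are
entire functions `Φ χ`, for the characters `χ` of the Galois group of `L` over `K₁`, such that the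
L-function of each abelian extension `K` of `K₁` in `L` is the product of the `Φ χ` over the
characters `χ` of the Galois group of `K` over `K₁`. -/
def TwistEntire (L : Type u) [Field L] [NumberField L] (F : IntermediateField ℚ L → ℂ → ℂ) :
    Prop :=
  ∀ K₁ : IntermediateField ℚ L, ∃ Φ : (K₁.fixingSubgroup →* ℂˣ) → ℂ → ℂ,
    (∀ χ, Differentiable ℂ (Φ χ)) ∧ ∀ K : IntermediateField ℚ L, K₁ ≤ K →
      ⁅K₁.fixingSubgroup, K₁.fixingSubgroup⁆ ≤ K.fixingSubgroup → ∀ s : ℂ, F K s =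
        ∏ᶠ χ ∈ {χ : K₁.fixingSubgroup →* ℂˣ | ∀ σ : K₁.fixingSubgroup,
          (σ : L ≃ₐ[ℚ] L) ∈ K.fixingSubgroup → χ σ = 1}, Φ χ s

/-- The order of a product. -/
theorem order_prod {κ : Type*} (S : Finset κ) (Φ : κ → ℂ → ℂ) (hΦ : ∀ k, Differentiable ℂ (Φ k))
    (h2 : ∀ k ∈ S, Φ k 2 ≠ 0) (s : ℂ) :
    analyticOrderNatAt (fun z => ∏ k ∈ S, Φ k z) s = ∑ k ∈ S, analyticOrderNatAt (Φ k) s := by
  classical
  induction S using Finset.induction_on with
  | empty =>
    simp only [Finset.prod_empty, Finset.sum_empty]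
    unfold analyticOrderNatAt
    rw [analyticAt_const.analyticOrderAt_eq_zero.2 one_ne_zero]
    rfl
  | insert k S hk ih =>
    rw [Finset.sum_insert hk, ← ih fun j hj => h2 j (Finset.mem_insert_of_mem hj)]
    have hd : Differentiable ℂ fun z => ∏ j ∈ S, Φ j z :=
      Differentiable.fun_finsetProd fun j _ => hΦ j
    have e : (fun z => ∏ j ∈ insert k S, Φ j z) = (Φ k) * fun z => ∏ j ∈ S, Φ j z := by
      funext z
      rw [Finset.prod_insert hk]
      rfl
    have h3 : (∏ j ∈ S, Φ j 2) ≠ 0 :=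
      Finset.prod_ne_zero_iff.2 fun j hj => h2 j (Finset.mem_insert_of_mem hj)
    unfold analyticOrderNatAt
    rw [e, analyticOrderAt_mul ((hΦ k).analyticAt s) (hd.analyticAt s),
      ENat.toNat_add (order_ne_top (hΦ k) (h2 k (Finset.mem_insert_self k S)) s)
        (order_ne_top hd h3 s)]

section

variable {L : Type u} [Field L] [NumberField L] [IsGalois ℚ L]

/-- The data of Heilbronn's argument. -/
theorem exists_hb (W : WeierstrassCurve ℤ) (hW : W.Δ ≠ 0) (F : IntermediateField ℚ L → ℂ → ℂ)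
    (hF : ∀ K, Differentiable ℂ (F K))
    (hFL : ∀ K : IntermediateField ℚ L, ∀ s : ℂ, 3 / 2 < s.re → F K s = (bc W K).LSeries s)
    (htw : TwistEntire L F) {s₀ : ℂ} (hs₀ : 5 / 4 < s₀.re) :
    ∃ a : (L ≃ₐ[ℚ] L) → ℝ, Hb a fun H =>
      analyticOrderNatAt (F (IntermediateField.fixedField H)) s₀ := by
  classical
  obtain ⟨a, h1, h2⟩ := exists_class W hW (fun H => F (IntermediateField.fixedField H))
    (fun H => hF _) (fun H => hFL _) hs₀
  refine ⟨a, h1, h2, ?_⟩
  intro H₁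
  obtain ⟨K₁, rfl⟩ : ∃ K₁ : IntermediateField ℚ L, H₁ = K₁.fixingSubgroup :=
    ⟨IntermediateField.fixedField H₁, (IntermediateField.fixingSubgroup_fixedField H₁).symm⟩
  obtain ⟨Φ, hΦ, hprod⟩ := htw K₁
  have hfin : Fintype (K₁.fixingSubgroup →* ℂˣ) := Fintype.ofFinite _
  -- all characters are trivial on the commutator subgroup
  have htriv : ∀ χ : K₁.fixingSubgroup →* ℂˣ, ∀ σ : K₁.fixingSubgroup,
      (σ : L ≃ₐ[ℚ] L) ∈ ⁅K₁.fixingSubgroup, K₁.fixingSubgroup⁆ → χ σ = 1 := by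
    intro χ σ hσ
    have h3 : ⁅K₁.fixingSubgroup, K₁.fixingSubgroup⁆ ≤
        χ.ker.map K₁.fixingSubgroup.subtype := by
      rw [Subgroup.commutator_le]
      intro x hx y hy
      refine ⟨⁅(⟨x, hx⟩ : K₁.fixingSubgroup), (⟨y, hy⟩ : K₁.fixingSubgroup)⁆, ?_, rfl⟩
      rw [SetLike.mem_coe, MonoidHom.mem_ker, map_commutatorElement,
        commutatorElement_eq_one_iff_mul_comm, mul_comm]
    obtain ⟨τ, hτ, hτσ⟩ := h3 hσ
    have h4 : τ = σ := Subtype.ext hτσ
    rw [← h4]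
    exact hτ
  have hle : ∀ H : Subgroup (L ≃ₐ[ℚ] L), H ≤ K₁.fixingSubgroup →
      K₁ ≤ IntermediateField.fixedField H := by
    intro H hH
    rw [IntermediateField.le_iff_le]
    exact hH
  have hp : ∀ H : Subgroup (L ≃ₐ[ℚ] L), H ≤ K₁.fixingSubgroup →
      ⁅K₁.fixingSubgroup, K₁.fixingSubgroup⁆ ≤ H → ∀ s : ℂ,
      F (IntermediateField.fixedField H) s =
        ∏ χ ∈ Finset.univ.filter (fun χ => χ ∈ triv K₁.fixingSubgroup H), Φ χ s := by
    intro H hH hc s
    rw [hprod _ (hle H hH) (by rw [IntermediateField.fixingSubgroup_fixedField]; exact hc) s,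
      IntermediateField.fixingSubgroup_fixedField]
    have e : {χ : K₁.fixingSubgroup →* ℂˣ | ∀ σ : K₁.fixingSubgroup,
        (σ : L ≃ₐ[ℚ] L) ∈ H → χ σ = 1} =
        ((Finset.univ.filter (fun χ => χ ∈ triv K₁.fixingSubgroup H) :
          Finset (K₁.fixingSubgroup →* ℂˣ)) : Set (K₁.fixingSubgroup →* ℂˣ)) := by
      ext χ
      simp [triv]
    rw [e, finprod_mem_coe_finset]
  have hΦ2 : ∀ χ, Φ χ 2 ≠ 0 := by
    intro χ
    have h3 := hp _ (Subgroup.commutator_le_self _) le_rfl 2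
    have h4 : F (IntermediateField.fixedField ⁅K₁.fixingSubgroup, K₁.fixingSubgroup⁆) 2 ≠ 0 := by
      rw [hFL _ 2 (by norm_num)]
      exact Zfr.LSeries_ne _ (by norm_num)
    rw [h3, Finset.prod_ne_zero_iff] at h4
    exact h4 χ (by
      rw [Finset.mem_filter]
      exact ⟨Finset.mem_univ _, htriv χ⟩)
  refine ⟨fun χ => analyticOrderNatAt (Φ χ) s₀, fun H hH hc => ?_⟩
  have e : F (IntermediateField.fixedField H) = fun s =>
      ∏ χ ∈ Finset.univ.filter (fun χ => χ ∈ triv K₁.fixingSubgroup H), Φ χ s :=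
    funext (hp H hH hc)
  rw [e, order_prod _ Φ hΦ (fun χ _ => hΦ2 χ), finsum_triv, Finset.sum_filter]

/-- Heilbronn's argument at a point. -/
theorem heil_at (W : WeierstrassCurve ℤ) (hW : W.Δ ≠ 0) (F : IntermediateField ℚ L → ℂ → ℂ)
    (hF : ∀ K, Differentiable ℂ (F K))
    (hFL : ∀ K : IntermediateField ℚ L, ∀ s : ℂ, 3 / 2 < s.re → F K s = (bc W K).LSeries s)
    (htw : TwistEntire L F) {s₀ : ℂ} (hs₀ : 5 / 4 < s₀.re) (F₀ : IntermediateField ℚ L)
    (hn : F₀.fixingSubgroup.Normal)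
    (hF₀ : F₀.fixingSubgroup.index = 1 ∨ F₀.fixingSubgroup.index.Prime)
    (h0 : analyticOrderNatAt (F ⊤) s₀ = analyticOrderNatAt (F F₀) s₀)
    (K : IntermediateField ℚ L) :
    analyticOrderNatAt (F K) s₀ = analyticOrderNatAt (F (K ⊓ F₀)) s₀ := by
  classical
  obtain ⟨a, hb⟩ := exists_hb W hW F hF hFL htw hs₀
  have h1 := heil hb F₀.fixingSubgroup hF₀ (by
    rw [IntermediateField.fixedField_bot, IsGalois.fixedField_fixingSubgroup]
    exact h0) K.fixingSubgroup
  rw [IsGalois.fixedField_fixingSubgroup] at h1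
  rw [h1]
  congr 2
  have h2 : (K ⊓ F₀).fixingSubgroup = K.fixingSubgroup ⊔ F₀.fixingSubgroup := by
    have h3 := (IsGalois.intermediateFieldEquivSubgroup (F := ℚ) (E := L)).map_inf K F₀
    exact h3
  rw [← h2, IsGalois.fixedField_fixingSubgroup]

end

end Pool.Agent.MPfb225e.Qt
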