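import Mathlib
import Pool.Agent.Lib.MP_fb225e_nt.Qt.Heil

/-!
MP_fb225e_nt, project QT, module Heil2: group theory (Heilbronn characters), quotients all of whose
elements have prime power order.
-/

namespace Pool.Agent.MPfb225e.Qt

open Grp Subgroup
open scoped commutatorElement

universe u

section

variable {G : Type u} [Group G] [Fintype G]

/-- Restriction to a subgroup. -/
theorem restrict {a : G → ℝ} {m : Subgroup G → ℕ} (hb : Hb a m) (K : Subgroup G) [Fintype K] :
    Hb (fun x : K => a x) (fun H => m (H.map K.subtype)) where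
  cls x y := hb.cls x y
  avg H := by
    have h1 := hb.avg (H.map K.subtype)
    rw [sm_map] at h1
    rw [h1]
    congr 2
    exact (Nat.card_congr (H.equivMapOfInjective _ K.subtype_injective).toEquiv).symm
  ab H₁ := by
    obtain ⟨n, hn⟩ := hb.ab (H₁.map K.subtype)
    obtain ⟨e, he⟩ : ∃ e : H₁ ≃* H₁.map K.subtype, ∀ x : H₁, ((e x : G)) = ((x : K) : G) :=
      ⟨H₁.equivMapOfInjective K.subtype K.subtype_injective, fun x => rfl⟩
    refine ⟨fun χ => n (χ.comp e.symm.toMonoidHom), ?_⟩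
    intro H hH hc
    have hc' : ⁅H₁.map K.subtype, H₁.map K.subtype⁆ ≤ H.map K.subtype := by
      rw [← Subgroup.map_commutator]
      exact Subgroup.map_mono hc
    rw [hn (H.map K.subtype) (Subgroup.map_mono hH) hc']
    refine (finsum_mem_eq_of_bijOn
      (fun χ : H₁ →* ℂˣ => χ.comp e.symm.toMonoidHom) ?_ fun _ _ => rfl).symm
    refine ⟨?_, ?_, ?_⟩
    · intro χ hχ h hh
      obtain ⟨x, hx, hxh⟩ := hh
      have h1 : e.symm h = ⟨x, hH hx⟩ := by
        rw [MulEquiv.symm_apply_eq]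
        exact Subtype.ext (by rw [he]; exact hxh.symm)
      change χ (e.symm h) = 1
      rw [h1]
      exact hχ _ hx
    · intro χ _ ψ _ hχψ
      have h1 : ∀ h, χ (e.symm h) = ψ (e.symm h) := fun h => DFunLike.congr_fun hχψ h
      refine MonoidHom.ext fun x => ?_
      have := h1 (e x)
      rwa [MulEquiv.symm_apply_apply] at this
    · intro χ hχ
      refine ⟨χ.comp e.toMonoidHom, ?_, ?_⟩
      · intro h hh
        change χ (e h) = 1
        refine hχ _ ?_
        rw [he]
        exact ⟨h, hh, rfl⟩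
      · refine MonoidHom.ext fun x => ?_
        change χ (e (e.symm x)) = χ x
        rw [MulEquiv.apply_symm_apply]

omit [Fintype G] in
theorem zmem {S : Subgroup G} {g : G} {i j : ℤ} (h : IsCoprime i j) (hi : g ^ i ∈ S)
    (hj : g ^ j ∈ S) : g ∈ S := by
  obtain ⟨u, v, huv⟩ := h
  have h1 : g = (g ^ i) ^ u * (g ^ j) ^ v := by
    rw [← zpow_mul, ← zpow_mul, ← zpow_add, mul_comm i u, mul_comm j v, huv, zpow_one]
  rw [h1]
  exact S.mul_mem (S.zpow_mem hi u) (S.zpow_mem hj v)

/-- Abelian steps. -/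
theorem step2 {a : G → ℝ} {m : Subgroup G → ℕ} (hb : Hb a m) (N : Subgroup G) [N.Normal]
    (h0 : m ⊥ = m N) (H₁ H₂ : Subgroup G) (h21 : H₂ ≤ H₁)
    (hc : ⁅H₁, H₁⁆ ≤ H₂) (hcN : ⁅H₁, H₁⁆ ≤ N) (h2N : H₁ ≤ H₂ ⊔ N) : m H₂ = m H₁ := by
  classical
  obtain ⟨n, hn⟩ := hb.ab H₁
  have hfin : Fintype (H₁ →* ℂˣ) := Fintype.ofFinite _
  have e2 : ∑ χ, (if χ ∈ triv H₁ (H₂ ⊓ N) then n χ else 0) =
      ∑ χ, (if χ ∈ triv H₁ (H₁ ⊓ N) then n χ else 0) := by
    rw [← finsum_triv, ← finsum_triv, ← hn _ (inf_le_left.trans h21) (le_inf hc hcN),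
      ← hn _ inf_le_left (le_inf (hc.trans h21) hcN), below hb N h0 _ inf_le_right,
      below hb N h0 _ inf_le_right]
  have hsub : triv H₁ (H₁ ⊓ N) ⊆ triv H₁ (H₂ ⊓ N) := by
    intro χ hχ h hh
    exact hχ h ⟨h.2, hh.2⟩
  have hzero : ∀ χ, χ ∈ triv H₁ (H₂ ⊓ N) → χ ∉ triv H₁ (H₁ ⊓ N) → n χ = 0 := by
    have h1 : ∑ χ, ((if χ ∈ triv H₁ (H₂ ⊓ N) then n χ else 0) -
        (if χ ∈ triv H₁ (H₁ ⊓ N) then n χ else 0)) = 0 := by
      have h2 : ∑ χ, ((if χ ∈ triv H₁ (H₂ ⊓ N) then n χ else 0) -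
          (if χ ∈ triv H₁ (H₁ ⊓ N) then n χ else 0)) +
          ∑ χ, (if χ ∈ triv H₁ (H₁ ⊓ N) then n χ else 0) =
          ∑ χ, (if χ ∈ triv H₁ (H₂ ⊓ N) then n χ else 0) := by
        rw [← Finset.sum_add_distrib]
        refine Finset.sum_congr rfl fun χ _ => ?_
        by_cases h3 : χ ∈ triv H₁ (H₁ ⊓ N)
        · rw [if_pos h3, if_pos (hsub h3)]
          omega
        · rw [if_neg h3]
          omega
      omega
    intro χ h3 h4
    have h5 := (Finset.sum_eq_zero_iff.1 h1) χ (Finset.mem_univ χ)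
    rw [if_pos h3, if_neg h4] at h5
    omega
  have htriv : ∀ χ, χ ∈ triv H₁ H₂ → χ ∈ triv H₁ (H₁ ⊓ N) → χ ∈ triv H₁ H₁ := by
    intro χ h1 h2 h _
    obtain ⟨y, hy, z, hz, hyz⟩ := Subgroup.mem_sup_of_normal_right.1 (h2N h.2)
    have hy1 : y ∈ H₁ := h21 hy
    have hz1 : z ∈ H₁ := by
      have h3 : z = y⁻¹ * h := by rw [← hyz, inv_mul_cancel_left]
      rw [h3]
      exact H₁.mul_mem (H₁.inv_mem hy1) h.2
    have h3 : h = (⟨y, hy1⟩ : H₁) * ⟨z, hz1⟩ := Subtype.ext hyz.symm
    rw [h3, map_mul, h1 _ hy, h2 ⟨z, hz1⟩ ⟨hz1, hz⟩, one_mul]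
  rw [hn H₂ h21 hc, hn H₁ le_rfl (hc.trans h21), finsum_triv, finsum_triv]
  refine Finset.sum_congr rfl fun χ _ => ?_
  by_cases h1 : χ ∈ triv H₁ H₂
  · rw [if_pos h1]
    by_cases h2 : χ ∈ triv H₁ (H₁ ⊓ N)
    · rw [if_pos (htriv χ h1 h2)]
    · have h3 : χ ∈ triv H₁ (H₂ ⊓ N) := fun h hh => h1 h hh.1
      rw [hzero χ h3 h2, ite_self]
  · rw [if_neg h1]
    have h2 : χ ∉ triv H₁ H₁ := fun h => h1 fun x hx => h x (h21 hx)
    rw [if_neg h2]

/-- Subgroups of prime power order which generate the group together with `N`. -/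
theorem psub2 {a : G → ℝ} {m : Subgroup G → ℕ} (hb : Hb a m) (N : Subgroup G) [N.Normal] {p : ℕ}
    [hp : Fact p.Prime] (hcN : ⁅(⊤ : Subgroup G), (⊤ : Subgroup G)⁆ ≤ N) (h0 : m ⊥ = m N)
    (P : Sylow p G) :
    ∀ (k j : ℕ) (D : Subgroup G), Nat.card D = p ^ j → (Nat.card G).factorization p = j + k →
      D ⊔ N = ⊤ → m D = m (P : Subgroup G) := by
  intro k
  induction k with
  | zero =>
    intro j D hD hj hDN
    rw [add_zero] at hj
    -- `D` is a Sylow subgroup
    have hDp : IsPGroup p D := IsPGroup.of_card hD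
    obtain ⟨Q, hQ⟩ := hDp.exists_le_sylow
    have h1 : Nat.card Q = p ^ j := by rw [Q.card_eq_multiplicity, hj]
    have h2 : D = (Q : Subgroup G) := by
      refine Subgroup.eq_of_le_of_card_ge hQ ?_
      rw [hD]
      exact h1.le
    obtain ⟨x, hx⟩ := MulAction.exists_smul_eq G Q P
    rw [h2, ← hx]
    exact (conj_eq hb x Q).symm
  | succ k ih =>
    intro j D hD hj hDN
    have hdvd : p ^ (j + 1) ∣ Nat.card G := by
      refine (pow_dvd_pow p ?_).trans (Nat.ordProj_dvd (Nat.card G) p)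
      omega
    obtain ⟨K, hK, hDK⟩ := Sylow.exists_subgroup_card_pow_succ hdvd hD
    have hKN : K ⊔ N = ⊤ := top_le_iff.1 (hDN ▸ sup_le_sup_right hDK N)
    have hnorm : (D.subgroupOf K).Normal := by
      refine Subgroup.normal_of_index_eq_minFac_card ?_
      have h1 : D.relIndex K * Nat.card D = Nat.card K := by
        rw [mul_comm]
        exact card_rel hDK
      rw [hD, hK, pow_succ'] at h1
      have h2 : D.relIndex K = p :=
        Nat.eq_of_mul_eq_mul_right (pow_pos hp.1.pos j) h1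
      rw [hK, Nat.pow_minFac (by omega), hp.1.minFac_eq]
      exact h2
    have hcomm : ⁅K, K⁆ ≤ D := by
      have h1 : Nat.card (K ⧸ D.subgroupOf K) = p := by
        have h2 : D.relIndex K * Nat.card D = Nat.card K := by
          rw [mul_comm]
          exact card_rel hDK
        rw [hD, hK, pow_succ'] at h2
        exact Nat.eq_of_mul_eq_mul_right (pow_pos hp.1.pos j) h2
      have hcyc : IsCyclic (K ⧸ D.subgroupOf K) := isCyclic_of_prime_card h1
      have h3 := (Subgroup.Normal.quotient_commutative_iff_commutator_le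
        (N := D.subgroupOf K)).1 IsCyclic.isMulCommutative
      rw [Subgroup.commutator_le]
      intro x hx y hy
      have h4 : ⁅(⟨x, hx⟩ : K), (⟨y, hy⟩ : K)⁆ ∈ D.subgroupOf K :=
        h3 (Subgroup.commutator_mem_commutator (mem_top _) (mem_top _))
      exact h4
    rw [step2 hb N h0 K D hDK hcomm ((Subgroup.commutator_mono le_top le_top).trans hcN)
      (by rw [hDN]; exact le_top)]
    exact ih (j + 1) K hK (by omega) hKN

omit [Fintype G] in
theorem comm_zpowers (g : G) : ⁅zpowers g, zpowers g⁆ = ⊥ := by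
  rw [Subgroup.commutator_eq_bot_iff_le_centralizer]
  intro x hx
  rw [mem_centralizer_iff]
  intro y hy
  obtain ⟨i, rfl⟩ := mem_zpowers_iff.1 hx
  obtain ⟨j, rfl⟩ := mem_zpowers_iff.1 hy
  rw [← zpow_add, ← zpow_add, add_comm]

omit [Fintype G] in
theorem pow_index {N : Subgroup G} [N.Normal] {q : ℕ} (hN : N.index = q) (g : G) :
    g ^ (q : ℤ) ∈ N := by
  have h3 : (g : G ⧸ N) ^ q = 1 := by
    have hcard : Nat.card (G ⧸ N) = q := hN
    rw [← hcard]
    exact pow_card_eq_one'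
  rw [zpow_natCast, ← QuotientGroup.eq_one_iff, QuotientGroup.mk_pow]
  exact h3

/-- Cyclic subgroups which generate the group together with `N`. -/
theorem cyc2 {a : G → ℝ} {m : Subgroup G → ℕ} (hb : Hb a m) (N : Subgroup G) [N.Normal] {p l : ℕ}
    [hp : Fact p.Prime] (hN : N.index = p ^ l)
    (hcN : ⁅(⊤ : Subgroup G), (⊤ : Subgroup G)⁆ ≤ N) (h0 : m ⊥ = m N) (P : Sylow p G) (g : G)
    (hg : zpowers g ⊔ N = ⊤) : m (zpowers g) = m (P : Subgroup G) := by
  set k := orderOf g with hk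
  have hk0 : 0 < k := orderOf_pos g
  obtain ⟨r, hr⟩ : ∃ r, r = k / p ^ k.factorization p := ⟨_, rfl⟩
  have hkr : p ^ k.factorization p * r = k := by
    rw [hr]
    exact Nat.ordProj_mul_ordCompl_eq_self k p
  have hrp : Nat.Coprime p r := by
    rw [hr]
    exact Nat.coprime_ordCompl hp.1 hk0.ne'
  set D := zpowers (g ^ r) with hD
  have hcardD : Nat.card D = p ^ k.factorization p := by
    rw [hD, Nat.card_zpowers, orderOf_pow, ← hk]
    have h1 : r ∣ k := ⟨_, by rw [mul_comm]; exact hkr.symm⟩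
    rw [Nat.gcd_eq_right h1]
    have hr0 : 0 < r := Nat.pos_of_dvd_of_pos h1 hk0
    exact Nat.div_eq_of_eq_mul_left hr0 hkr.symm
  have hDN : D ⊔ N = ⊤ := by
    rw [← top_le_iff, ← hg]
    refine sup_le ((zpowers_le).2 ?_) le_sup_right
    have h1 : IsCoprime (r : ℤ) ((p ^ l : ℕ) : ℤ) :=
      Nat.isCoprime_iff_coprime.2 (Nat.Coprime.pow_right l hrp.symm)
    refine zmem h1 (mem_sup_left ?_) (mem_sup_right (pow_index hN g))
    rw [zpow_natCast]
    exact mem_zpowers _
  have h1 := step2 hb N h0 (zpowers g) D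
    ((zpowers_le).2 (pow_mem (mem_zpowers g) r)) (by rw [comm_zpowers]; exact bot_le)
    (by rw [comm_zpowers]; exact bot_le) (by rw [hDN]; exact le_top)
  rw [← h1]
  have h2 : k.factorization p ≤ (Nat.card G).factorization p := by
    have h3 : k ∣ Nat.card G := orderOf_dvd_natCard g
    exact (Nat.factorization_le_iff_dvd hk0.ne' Nat.card_pos.ne').2 h3 p
  exact psub2 hb N hcN h0 P ((Nat.card G).factorization p - k.factorization p) _ D hcardD
    (by omega) hDN

end

/-- The quotient by `N` is cyclic of prime power order. -/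
theorem full (p : ℕ) [hp : Fact p.Prime] : ∀ (c : ℕ) (G : Type u) [Group G] [Fintype G]
    (a : G → ℝ) (m : Subgroup G → ℕ), Nat.card G = c → Hb a m → ∀ N : Subgroup G, N.Normal →
    (∃ l, N.index = p ^ l) → (∃ g : G, zpowers g ⊔ N = ⊤) → m ⊥ = m N →
    ∀ H : Subgroup G, H ⊔ N = ⊤ → m H = m ⊤ := by
  intro c
  induction c using Nat.strong_induction_on with
  | _ c ih =>
  intro G _ _ a m hc hb N hNn hNi hg h0
  classical
  obtain ⟨l, hl⟩ := hNi
  obtain ⟨g, hg⟩ := hg
  by_cases hNtop : N = ⊤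
  · intro H _
    rw [below hb N h0 H (by rw [hNtop]; exact le_top), hNtop]
  -- the commutator subgroup
  have hgen : ∀ x : G, ∃ i : ℤ, ∃ n ∈ N, g ^ i * n = x := by
    intro x
    have hx : x ∈ zpowers g ⊔ N := by rw [hg]; exact mem_top x
    obtain ⟨y, hy, z, hz, hyz⟩ := Subgroup.mem_sup_of_normal_right.1 hx
    obtain ⟨i, rfl⟩ := mem_zpowers_iff.1 hy
    exact ⟨i, z, hz, hyz⟩
  have hcN : ⁅(⊤ : Subgroup G), (⊤ : Subgroup G)⁆ ≤ N := by
    rw [Subgroup.commutator_le]
    intro x _ y _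
    obtain ⟨i, n, hn, rfl⟩ := hgen x
    obtain ⟨j, n', hn', rfl⟩ := hgen y
    rw [← QuotientGroup.eq_one_iff, commutatorElement_def]
    have e1 : (n : G ⧸ N) = 1 := (QuotientGroup.eq_one_iff n).2 hn
    have e2 : (n' : G ⧸ N) = 1 := (QuotientGroup.eq_one_iff n').2 hn'
    simp only [QuotientGroup.mk_mul, QuotientGroup.mk_inv, QuotientGroup.mk_zpow, e1, e2, mul_one]
    rw [← zpow_add, add_comm i j, zpow_add]
    group
  -- the maximal subgroup above `N`
  obtain ⟨M, hM⟩ : ∃ M, M = zpowers (g ^ p) ⊔ N := ⟨_, rfl⟩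
  have hNM : N ≤ M := hM ▸ le_sup_right
  have hgM : g ^ p ∈ M := by
    rw [hM]
    exact mem_sup_left (mem_zpowers _)
  have hout : ∀ x : G, x ∉ M → zpowers x ⊔ N = ⊤ := by
    intro x hx
    obtain ⟨i, n, hn, hin⟩ := hgen x
    have hpi : ¬ (p : ℤ) ∣ i := by
      rintro ⟨j, rfl⟩
      apply hx
      rw [← hin]
      refine M.mul_mem ?_ (hNM hn)
      rw [zpow_mul, zpow_natCast]
      exact M.zpow_mem hgM j
    have hcop : IsCoprime i ((p ^ l : ℕ) : ℤ) := by
      push_cast
      refine IsCoprime.pow_right ?_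
      exact ((Nat.prime_iff_prime_int.1 hp.1).coprime_iff_not_dvd.2 hpi).symm
    rw [← top_le_iff, ← hg]
    refine sup_le ((zpowers_le).2 ?_) le_sup_right
    refine zmem hcop ?_ (mem_sup_right (pow_index hl g))
    have h1 : g ^ i = x * n⁻¹ := by rw [← hin, mul_inv_cancel_right]
    rw [h1]
    exact Subgroup.mul_mem _ (mem_sup_left (mem_zpowers x)) (mem_sup_right (N.inv_mem hn))
  have hMtop : M ≠ ⊤ := by
    intro h
    apply hNtop
    have h1 : g ∈ zpowers (g ^ p) ⊔ N := by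
      rw [← hM, h]
      exact mem_top g
    obtain ⟨y, hy, z, hz, hyz⟩ := Subgroup.mem_sup_of_normal_right.1 h1
    obtain ⟨j, rfl⟩ := mem_zpowers_iff.1 hy
    have h2 : g ^ (1 - p * j : ℤ) ∈ N := by
      have h3 : g ^ (1 - p * j : ℤ) = (g ^ (p * j : ℤ))⁻¹ * g := by
        rw [sub_eq_neg_add, zpow_add, zpow_neg, zpow_one]
      have h4 : g ^ (p * j : ℤ) = (g ^ p) ^ j := by rw [zpow_mul, zpow_natCast]
      have h5 : ((g ^ p) ^ j)⁻¹ * g = z := by rw [inv_mul_eq_iff_eq_mul, hyz]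
      rw [h3, h4, h5]
      exact hz
    have hcop : IsCoprime (1 - p * j : ℤ) ((p ^ l : ℕ) : ℤ) := by
      push_cast
      refine IsCoprime.pow_right ?_
      exact ⟨1, j, by ring⟩
    have h3 : g ∈ N := zmem hcop h2 (pow_index hl g)
    rw [← top_le_iff, ← hg]
    exact sup_le ((zpowers_le).2 h3) le_rfl
  have hMn : M.Normal := by
    refine ⟨fun x hx y => ?_⟩
    have h1 : y * x * y⁻¹ = ⁅y, x⁆ * x := by
      rw [commutatorElement_def]
      group
    rw [h1]
    exact M.mul_mem (hNM (hcN (Subgroup.commutator_mem_commutator (mem_top y) (mem_top x)))) hx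
  -- the values on `M`
  have hfM : Fintype M := Fintype.ofFinite _
  have hMlt : Nat.card M < c := by
    rw [← hc]
    refine lt_of_le_of_ne (Subgroup.card_le_card_group M) fun h => hMtop ?_
    exact (Subgroup.card_eq_iff_eq_top M).1 h
  have hmapN : (N.subgroupOf M).map M.subtype = N := by
    rw [Subgroup.subgroupOf_map_subtype]
    exact inf_eq_left.2 hNM
  have hmapT : (⊤ : Subgroup M).map M.subtype = M := by
    rw [← MonoidHom.range_eq_map, Subgroup.range_subtype]
  have hIH := ih (Nat.card M) hMlt M (fun x : M => a x) (fun H => m (H.map M.subtype)) rfl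
    (restrict hb M) (N.subgroupOf M) inferInstance (by
      have h1 : N.relIndex M ∣ p ^ l := by
        rw [← hl, ← Subgroup.relIndex_mul_index hNM]
        exact Dvd.intro _ rfl
      obtain ⟨j, _, hj⟩ := (Nat.dvd_prime_pow hp.1).1 h1
      exact ⟨j, hj⟩) (by
      refine ⟨⟨g ^ p, hgM⟩, ?_⟩
      apply Subgroup.map_injective M.subtype_injective
      rw [Subgroup.map_sup, hmapN, hmapT, MonoidHom.map_zpowers]
      exact hM.symm) (by
      rw [Subgroup.map_bot, hmapN]
      exact h0)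
  have hcap : ∀ H : Subgroup G, H ⊔ N = ⊤ → m (H ⊓ M) = m M := by
    intro H hH
    have h1 := hIH (H.subgroupOf M) (by
      apply Subgroup.map_injective M.subtype_injective
      rw [Subgroup.map_sup, hmapN, hmapT, Subgroup.subgroupOf_map_subtype]
      refine le_antisymm (sup_le inf_le_right hNM) ?_
      intro x hx
      have hx' : x ∈ H ⊔ N := by rw [hH]; exact mem_top x
      obtain ⟨y, hy, z, hz, rfl⟩ := Subgroup.mem_sup_of_normal_right.1 hx'
      refine Subgroup.mul_mem _ (mem_sup_left ⟨hy, ?_⟩) (mem_sup_right hz)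
      have h2 : y = y * z * z⁻¹ := by rw [mul_inv_cancel_right]
      rw [h2]
      exact M.mul_mem hx (M.inv_mem (hNM hz)))
    simp only [hmapT, Subgroup.subgroupOf_map_subtype] at h1
    exact h1
  -- the index
  obtain ⟨d, hd⟩ : ∃ d, d = M.index := ⟨_, rfl⟩
  have hd2 : 2 ≤ d := by
    have h1 : d ≠ 1 := by
      rw [hd]
      exact fun h => hMtop (Subgroup.index_eq_one.1 h)
    have h2 : d ≠ 0 := by
      rw [hd]
      exact Subgroup.index_ne_zero_of_finite
    omega
  have hdH : ∀ H : Subgroup G, H ⊔ N = ⊤ →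
      (Nat.card H : ℝ) = d * Nat.card (H ⊓ M : Subgroup G) := by
    intro H hH
    have h1 : H ⊔ M = ⊤ := top_le_iff.1 (hH ▸ sup_le_sup_left hNM H)
    have h2 : M.relIndex H = d := by
      rw [← Subgroup.relIndex_sup_right, h1, Subgroup.relIndex_top_right, hd]
    have h3 : Nat.card (H ⊓ M : Subgroup G) * (H ⊓ M).relIndex H = Nat.card H :=
      card_rel inf_le_left
    rw [inf_comm H M, Subgroup.inf_relIndex_right, h2] at h3
    rw [inf_comm H M, ← h3]
    push_cast
    ring
  have P : Sylow p G := default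
  obtain ⟨lam, hlam⟩ : ∃ t : ℝ, t = m (P : Subgroup G) := ⟨_, rfl⟩
  have hd2' : (2 : ℝ) ≤ d := by exact_mod_cast hd2
  obtain ⟨v, hv⟩ : ∃ v : ℝ, v = (d * lam - m M) / (d - 1) := ⟨_, rfl⟩
  have hv' : (m M : ℝ) + (d - 1) * v = d * lam := by
    rw [hv]
    have : (d : ℝ) - 1 ≠ 0 := by linarith
    field_simp
    ring
  obtain ⟨f, hf⟩ : ∃ f : G → ℝ, ∀ x, f x = if x ∈ M then a x - v else 0 := ⟨_, fun _ => rfl⟩
  have hsum : ∀ H : Subgroup G, H ⊔ N = ⊤ → sm (fun x => (a x - v) - f x) H =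
      Nat.card H * ((m H : ℝ) - lam) := by
    intro H hH
    have h1 : sm f H = sm (fun x => a x - v) (H ⊓ M) := by
      rw [← sm_inf]
      exact sm_congr fun x _ => hf x
    rw [sm_sub, h1, sm_sub, sm_sub, hb.avg, hb.avg, sm_const, sm_const, hcap H hH, hdH H hH]
    have h2 : (Nat.card (H ⊓ M : Subgroup G) : ℝ) * ((m M : ℝ) + (d - 1) * v) =
        (Nat.card (H ⊓ M : Subgroup G) : ℝ) * (d * lam) := by rw [hv']
    linear_combination -h2
  have hzero : ∀ y, sm (fun x => (a x - v) - f x) (zpowers y) = 0 := by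
    intro y
    by_cases hy : y ∈ M
    · rw [sm_congr (g := fun _ => (0 : ℝ)), sm_const, mul_zero]
      intro x hx
      have h1 : x ∈ M := (zpowers_le).2 hy hx
      rw [hf, if_pos h1, sub_self]
    · rw [hsum _ (hout y hy), cyc2 hb N hl hcN h0 P y (hout y hy), hlam, sub_self, mul_zero]
  have hall : ∀ H : Subgroup G, H ⊔ N = ⊤ → (m H : ℝ) = lam := by
    intro H hH
    have h1 := artin _ hzero H
    rw [hsum H hH] at h1
    have h2 : (Nat.card H : ℝ) ≠ 0 := by
      have : 0 < Nat.card H := Nat.card_pos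
      exact_mod_cast this.ne'
    linarith [(mul_eq_zero.1 h1).resolve_left h2]
  intro H hH
  have h1 := hall H hH
  rw [← hall ⊤ (by rw [top_sup_eq])] at h1
  exact_mod_cast h1

section

variable {G : Type u} [Group G] [Fintype G]

/-- Cyclic subgroups. -/
theorem cyc3 {a : G → ℝ} {m : Subgroup G → ℕ} (hb : Hb a m) (N : Subgroup G) [N.Normal]
    (h0 : m ⊥ = m N) (g : G) (hg : ∃ p k : ℕ, p.Prime ∧ g ^ p ^ k ∈ N) :
    m (zpowers g) = m (zpowers g ⊔ N) := by
  classical
  obtain ⟨p, k, hp, hgp⟩ := hg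
  have hfact : Fact p.Prime := ⟨hp⟩
  obtain ⟨K, hK⟩ : ∃ K, K = zpowers g ⊔ N := ⟨_, rfl⟩
  have hNK : N ≤ K := hK ▸ le_sup_right
  have hCK : zpowers g ≤ K := hK ▸ le_sup_left
  have hgK : g ∈ K := hCK (mem_zpowers g)
  have hfK : Fintype K := Fintype.ofFinite _
  have hmapN : (N.subgroupOf K).map K.subtype = N := by
    rw [Subgroup.subgroupOf_map_subtype]
    exact inf_eq_left.2 hNK
  have hmapC : ((zpowers g).subgroupOf K).map K.subtype = zpowers g := by
    rw [Subgroup.subgroupOf_map_subtype]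
    exact inf_eq_left.2 hCK
  have hmapT : (⊤ : Subgroup K).map K.subtype = K := by
    rw [← MonoidHom.range_eq_map, Subgroup.range_subtype]
  have h1 := full p (Nat.card K) K (fun x : K => a x) (fun H => m (H.map K.subtype)) rfl
    (restrict hb K) (N.subgroupOf K) inferInstance (by
      have h2 : (N.subgroupOf K).index = Nat.card (K.map (QuotientGroup.mk' N)) := by
        rw [← Subgroup.relIndex_ker, QuotientGroup.ker_mk']
        rfl
      have h3 : K.map (QuotientGroup.mk' N) = zpowers (g : G ⧸ N) := by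
        rw [hK, Subgroup.map_sup, QuotientGroup.map_mk'_self, sup_bot_eq, MonoidHom.map_zpowers]
        rfl
      have h4 : orderOf (g : G ⧸ N) ∣ p ^ k := by
        apply orderOf_dvd_of_pow_eq_one
        rw [← QuotientGroup.mk_pow]
        exact (QuotientGroup.eq_one_iff _).2 hgp
      rw [h2, h3, Nat.card_zpowers]
      obtain ⟨j, _, hj⟩ := (Nat.dvd_prime_pow hp).1 h4
      exact ⟨j, hj⟩) (by
      refine ⟨⟨g, hgK⟩, ?_⟩
      apply Subgroup.map_injective K.subtype_injective
      rw [Subgroup.map_sup, hmapN, hmapT, MonoidHom.map_zpowers]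
      exact hK.symm) (by
      rw [Subgroup.map_bot, hmapN]
      exact h0) ((zpowers g).subgroupOf K) (by
      apply Subgroup.map_injective K.subtype_injective
      rw [Subgroup.map_sup, hmapN, hmapT, hmapC]
      exact hK.symm)
  simp only [hmapT, hmapC] at h1
  rw [h1, hK]

/-- Left translation. -/
theorem sm_shift_left {R : Type*} [AddCommMonoid R] (f : G → R) (C : Subgroup G) {k : G}
    (hk : k ∈ C) : sm (fun c => f (k * c)) C = sm f C := by
  classical
  unfold sm
  rw [← Equiv.sum_comp (Equiv.mulLeft k) (fun c => if c ∈ C then f c else 0)]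
  refine Finset.sum_congr rfl fun c _ => ?_
  change _ = if k * c ∈ C then f (k * c) else 0
  rw [C.mul_mem_cancel_left hk]

theorem sm_comm (f : G → G → ℝ) (C D : Subgroup G) :
    sm (fun x => sm (fun y => f x y) D) C = sm (fun y => sm (fun x => f x y) C) D := by
  classical
  unfold sm
  have h1 : ∀ x : G, (if x ∈ C then ∑ y : G, (if y ∈ D then f x y else 0) else 0) =
      ∑ y : G, if x ∈ C then (if y ∈ D then f x y else 0) else 0 := by
    intro x
    split_ifs
    · rfl
    · rw [Finset.sum_const_zero]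
  have h2 : ∀ y : G, (if y ∈ D then ∑ x : G, (if x ∈ C then f x y else 0) else 0) =
      ∑ x : G, if x ∈ C then (if y ∈ D then f x y else 0) else 0 := by
    intro y
    split_ifs with h
    · rfl
    · refine (Finset.sum_eq_zero fun x _ => ?_).symm
      rw [ite_self]
  rw [Finset.sum_congr rfl fun x _ => h1 x, Finset.sum_congr rfl fun y _ => h2 y,
    Finset.sum_comm]

theorem sm_mul_left (r : ℝ) (f : G → ℝ) (C : Subgroup G) :
    sm (fun x => r * f x) C = r * sm f C := by
  classical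
  unfold sm
  rw [Finset.mul_sum]
  refine Finset.sum_congr rfl fun x _ => ?_
  split_ifs
  · rfl
  · rw [mul_zero]

/-- The averages over the cosets of `N`. -/
theorem sm_coset (a : G → ℝ) (N : Subgroup G) [N.Normal] (H : Subgroup G) :
    Nat.card (H ⊔ N : Subgroup G) * sm (fun x => sm (fun n => a (x * n)) N) H =
      Nat.card H * Nat.card N * sm a (H ⊔ N) := by
  obtain ⟨A, hA⟩ : ∃ A : G → ℝ, ∀ x, A x = sm (fun n => a (x * n)) N := ⟨_, fun _ => rfl⟩
  have hAN : ∀ x, ∀ n ∈ N, A (x * n) = A x := by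
    intro x n hn
    rw [hA, hA, ← sm_shift_left (fun c => a (x * c)) N hn]
    exact sm_congr fun y _ => by rw [mul_assoc]
  have h1 : sm A (H ⊔ N) = Nat.card N * sm a (H ⊔ N) := by
    have e1 : sm A (H ⊔ N) = sm (fun x => sm (fun n => a (x * n)) N) (H ⊔ N) :=
      sm_congr fun x _ => hA x
    rw [e1, sm_comm, ← sm_const]
    exact sm_congr fun n hn => sm_shift a _ (mem_sup_right hn)
  have h2 : Nat.card H * sm A (H ⊔ N) = Nat.card (H ⊔ N : Subgroup G) * sm A H := by
    have e1 : sm (fun h => sm (fun x => A (h * x)) (H ⊔ N)) H = Nat.card H * sm A (H ⊔ N) := by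
      rw [← sm_const]
      exact sm_congr fun h hh => sm_shift_left A _ (mem_sup_left hh)
    have e2 : sm (fun x => sm (fun h => A (h * x)) H) (H ⊔ N) =
        Nat.card (H ⊔ N : Subgroup G) * sm A H := by
      rw [← sm_const]
      refine sm_congr fun x hx => ?_
      obtain ⟨y, hy, z, hz, rfl⟩ := Subgroup.mem_sup_of_normal_right.1 hx
      rw [← sm_shift A H hy]
      exact sm_congr fun h _ => by rw [← mul_assoc, hAN _ z hz]
    rw [← e1, sm_comm, e2]
  have e3 : sm (fun x => sm (fun n => a (x * n)) N) H = sm A H := sm_congr fun x _ => (hA x).symm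
  rw [e3, ← h2, h1, mul_assoc]

/-- **Heilbronn's argument**, for quotients whose elements have prime power order. -/
theorem heil2 {a : G → ℝ} {m : Subgroup G → ℕ} (hb : Hb a m) (N : Subgroup G) [N.Normal]
    (hq : ∀ g : G, ∃ p k : ℕ, p.Prime ∧ g ^ p ^ k ∈ N) (h0 : m ⊥ = m N) (H : Subgroup G) :
    m H = m (H ⊔ N) := by
  classical
  obtain ⟨f, hf⟩ : ∃ f : G → ℝ, ∀ x, f x = (Nat.card N : ℝ)⁻¹ * sm (fun n => a (x * n)) N :=
    ⟨_, fun _ => rfl⟩
  have hN0 : (Nat.card N : ℝ) ≠ 0 := by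
    have : 0 < Nat.card N := Nat.card_pos
    exact_mod_cast this.ne'
  have hs : ∀ H : Subgroup G, sm f H = Nat.card H * (m (H ⊔ N) : ℝ) := by
    intro H
    have h1 := sm_coset a N H
    rw [hb.avg] at h1
    have h2 : (Nat.card (H ⊔ N : Subgroup G) : ℝ) ≠ 0 := by
      have : 0 < Nat.card (H ⊔ N : Subgroup G) := Nat.card_pos
      exact_mod_cast this.ne'
    have h3 : sm (fun x => sm (fun n => a (x * n)) N) H =
        Nat.card H * Nat.card N * (m (H ⊔ N) : ℝ) := by
      refine mul_left_cancel₀ h2 ?_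
      rw [h1]
      ring
    have h4 : sm f H = (Nat.card N : ℝ)⁻¹ * sm (fun x => sm (fun n => a (x * n)) N) H := by
      rw [← sm_mul_left]
      exact sm_congr fun x _ => hf x
    rw [h4, h3]
    field_simp
  have hzero : ∀ g, sm (fun x => a x - f x) (zpowers g) = 0 := by
    intro g
    rw [sm_sub, hb.avg, hs, cyc3 hb N h0 g (hq g), sub_self]
  have h1 := artin _ hzero H
  rw [sm_sub, hb.avg, hs, ← mul_sub] at h1
  have h2 : (Nat.card H : ℝ) ≠ 0 := by
    have : 0 < Nat.card H := Nat.card_pos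
    exact_mod_cast this.ne'
  have h3 := (mul_eq_zero.1 h1).resolve_left h2
  exact_mod_cast sub_eq_zero.1 h3

end

end Pool.Agent.MPfb225e.Qt
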