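import Mathlib
import Pool.Agent.Lib.MP_fb225e_nt.Qt.Heil2

/-!
MP_fb225e_nt, project QT, module Heil3: group theory (Heilbronn characters), solvable normal
subgroups.
-/

namespace Pool.Agent.MPfb225e.Qt

open Grp Subgroup
open scoped commutatorElement

universe u

section quot

variable {G : Type u} [Group G] [Fintype G]

open Classical in
/-- The averages over the cosets of `A`. -/
noncomputable def qavg (a : G → ℝ) (A : Subgroup G) (q : G ⧸ A) : ℝ :=
  (Nat.card A : ℝ)⁻¹ * ∑ x : G, if (x : G ⧸ A) = q then a x else 0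

omit [Fintype G] in
theorem card_comap_mk [Finite G] (A : Subgroup G) [A.Normal] (H : Subgroup (G ⧸ A)) :
    Nat.card (H.comap (QuotientGroup.mk' A)) = Nat.card A * Nat.card H := by
  have h1 : (H.comap (QuotientGroup.mk' A)).index = H.index :=
    Subgroup.index_comap_of_surjective H (QuotientGroup.mk'_surjective A)
  have h2 := (H.comap (QuotientGroup.mk' A)).card_mul_index
  have h3 := H.card_mul_index
  have h4 : Nat.card G = Nat.card (G ⧸ A) * Nat.card A :=
    Subgroup.card_eq_card_quotient_mul_card_subgroup A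
  have h5 : 0 < H.index := Nat.pos_of_ne_zero Subgroup.index_ne_zero_of_finite
  rw [h1, h4, ← h3] at h2
  have h6 : Nat.card (H.comap (QuotientGroup.mk' A)) * H.index =
      (Nat.card A * Nat.card H) * H.index := by
    rw [h2]
    ring
  exact Nat.eq_of_mul_eq_mul_right h5 h6

/-- Quotients. -/
theorem quot {a : G → ℝ} {m : Subgroup G → ℕ} (hb : Hb a m) (A : Subgroup G) [A.Normal]
    [Fintype (G ⧸ A)] : Hb (qavg a A) (fun H => m (H.comap (QuotientGroup.mk' A))) where
  cls y q := by
    classical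
    obtain ⟨y, rfl⟩ := QuotientGroup.mk_surjective y
    unfold qavg
    congr 1
    rw [← Equiv.sum_comp (MulAut.conj y⁻¹).toEquiv
      (fun x => if (x : G ⧸ A) = (y : G ⧸ A)⁻¹ * q * y then a x else 0)]
    refine Finset.sum_congr rfl fun x _ => ?_
    have h1 : (MulAut.conj y⁻¹).toEquiv x = y⁻¹ * x * y := by
      change y⁻¹ * x * y⁻¹⁻¹ = _
      rw [inv_inv]
    rw [h1, hb.cls]
    have h2 : ((y⁻¹ * x * y : G) : G ⧸ A) = (y : G ⧸ A)⁻¹ * q * y ↔ (x : G ⧸ A) = q := by
      rw [QuotientGroup.mk_mul, QuotientGroup.mk_mul, QuotientGroup.mk_inv, mul_left_inj,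
        mul_right_inj]
    simp only [h2]
  avg H := by
    classical
    have hA0 : (Nat.card A : ℝ) ≠ 0 := by
      have : 0 < Nat.card A := Nat.card_pos
      exact_mod_cast this.ne'
    have h1 : sm (qavg a A) H = (Nat.card A : ℝ)⁻¹ * sm a (H.comap (QuotientGroup.mk' A)) := by
      unfold sm qavg
      have h2 : ∀ q : G ⧸ A, (if q ∈ H then (Nat.card A : ℝ)⁻¹ *
          ∑ x : G, (if (x : G ⧸ A) = q then a x else 0) else 0) =
          (Nat.card A : ℝ)⁻¹ * ∑ x : G, if (x : G ⧸ A) = q then
            (if x ∈ H.comap (QuotientGroup.mk' A) then a x else 0) else 0 := by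
        intro q
        split_ifs with hq
        · congr 1
          refine Finset.sum_congr rfl fun x _ => ?_
          split_ifs with h3 h4
          · rfl
          · exact absurd (show (x : G ⧸ A) ∈ H by rw [h3]; exact hq) h4
          · rfl
        · rw [Finset.sum_eq_zero, mul_zero]
          intro x _
          split_ifs with h3 h4
          · exfalso
            apply hq
            rw [← h3]
            exact h4
          · rfl
          · rfl
      rw [Finset.sum_congr rfl fun q _ => h2 q, ← Finset.mul_sum, Finset.sum_comm]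
      congr 1
      refine Finset.sum_congr rfl fun x _ => ?_
      rw [Finset.sum_ite_eq]
      simp
    rw [h1, hb.avg, card_comap_mk]
    push_cast
    field_simp
  ab H₁ := by
    obtain ⟨n, hn⟩ := hb.ab (H₁.comap (QuotientGroup.mk' A))
    obtain ⟨π, hπ⟩ : ∃ π : H₁.comap (QuotientGroup.mk' A) →* H₁,
        ∀ x : H₁.comap (QuotientGroup.mk' A), ((π x : H₁) : G ⧸ A) = ((x : G) : G ⧸ A) :=
      ⟨(QuotientGroup.mk' A).subgroupComap H₁, fun x => rfl⟩
    have hsurj : Function.Surjective π := by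
      rintro ⟨y, hy⟩
      obtain ⟨x, rfl⟩ := QuotientGroup.mk_surjective y
      exact ⟨⟨x, hy⟩, Subtype.ext (hπ _)⟩
    refine ⟨fun χ => n (χ.comp π), ?_⟩
    intro H hH hc
    have hc' : ⁅H₁.comap (QuotientGroup.mk' A), H₁.comap (QuotientGroup.mk' A)⁆ ≤
        H.comap (QuotientGroup.mk' A) := by
      rw [Subgroup.commutator_le]
      intro x hx y hy
      rw [Subgroup.mem_comap, map_commutatorElement]
      exact hc (Subgroup.commutator_mem_commutator hx hy)
    rw [hn (H.comap (QuotientGroup.mk' A)) (Subgroup.comap_mono hH) hc']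
    refine (finsum_mem_eq_of_bijOn (fun χ : H₁ →* ℂˣ => χ.comp π) ?_ fun _ _ => rfl).symm
    refine ⟨?_, ?_, ?_⟩
    · intro χ hχ h hh
      change χ (π h) = 1
      refine hχ _ ?_
      rw [hπ]
      exact hh
    · intro χ _ ψ _ hχψ
      refine MonoidHom.ext fun x => ?_
      obtain ⟨y, rfl⟩ := hsurj x
      exact DFunLike.congr_fun hχψ y
    · intro χ hχ
      have hker : π.ker ≤ χ.ker := by
        intro x hx
        rw [MonoidHom.mem_ker] at hx ⊢
        refine hχ x ?_
        have h1 := hπ x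
        rw [hx] at h1
        rw [Subgroup.mem_comap]
        change ((x : G) : G ⧸ A) ∈ H
        rw [← h1]
        exact H.one_mem
      have hlift : ∀ x, (π.liftOfSurjective hsurj ⟨χ, hker⟩) (π x) = χ x := fun x =>
        MonoidHom.liftOfRightInverse_comp_apply π _ _ ⟨χ, hker⟩ x
      refine ⟨π.liftOfSurjective hsurj ⟨χ, hker⟩, ?_, ?_⟩
      · intro h hh
        obtain ⟨y, rfl⟩ := hsurj h
        rw [hlift]
        refine hχ y ?_
        rw [hπ] at hh
        exact hh
      · refine MonoidHom.ext fun x => ?_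
        exact hlift x

end quot

section base

variable {G : Type u} [Group G] [Fintype G]

/-- Abelian minimal normal subgroups. -/
theorem base {a : G → ℝ} {m : Subgroup G → ℕ} (hb : Hb a m) (V : Subgroup G) [V.Normal]
    (hV : ∀ x ∈ V, ∀ y ∈ V, x * y = y * x) (g : G) (htop : zpowers g ⊔ V = ⊤) (h0 : m ⊥ = m V)
    (hmin : ∀ U : Subgroup G, U.Normal → U ≤ V → U = ⊥ ∨ U = V) : m (zpowers g) = m ⊤ := by
  classical
  obtain ⟨A, hA⟩ : ∃ A : G → ℝ, ∀ x, A x = sm (fun n => a (x * n)) V := ⟨_, fun _ => rfl⟩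
  obtain ⟨C, hC⟩ : ∃ C, C = zpowers g ⊓ Subgroup.centralizer (V : Set G) := ⟨_, rfl⟩
  have hcomm : ∀ x ∈ zpowers g, ∀ y ∈ zpowers g, x * y = y * x := by
    intro x hx y hy
    obtain ⟨i, rfl⟩ := mem_zpowers_iff.1 hx
    obtain ⟨j, rfl⟩ := mem_zpowers_iff.1 hy
    rw [← zpow_add, ← zpow_add, add_comm]
  have hV0 : (Nat.card V : ℝ) ≠ 0 := by
    have : 0 < Nat.card V := Nat.card_pos
    exact_mod_cast this.ne'
  -- outside `C`
  have hout : ∀ x ∈ zpowers g, x ∉ C → A x = Nat.card V * a x := by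
    intro x hx hxC
    obtain ⟨U, hU⟩ : ∃ U, U = V ⊓ Subgroup.centralizer {x} := ⟨_, rfl⟩
    have hUn : U.Normal := by
      refine ⟨fun v hv y => ?_⟩
      rw [hU, Subgroup.mem_inf, Subgroup.mem_centralizer_singleton_iff] at hv ⊢
      refine ⟨Subgroup.Normal.conj_mem inferInstance v hv.1 y, ?_⟩
      have hy : y ∈ zpowers g ⊔ V := by rw [htop]; exact mem_top y
      obtain ⟨z, hz, w, hw, rfl⟩ := Subgroup.mem_sup_of_normal_right.1 hy
      have h1 : z * w * v * (z * w)⁻¹ = z * v * z⁻¹ := by
        have h2 : w * v = v * w := hV w hw v hv.1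
        rw [mul_inv_rev, mul_assoc z w v, h2]
        group
      rw [h1]
      have h3 : x * z = z * x := hcomm x hx z hz
      have h4 : z⁻¹ * x = x * z⁻¹ := by
        rw [inv_mul_eq_iff_eq_mul, ← mul_assoc, ← h3, mul_inv_cancel_right]
      calc z * v * z⁻¹ * x = z * (v * x) * z⁻¹ := by
            rw [mul_assoc, h4]
            group
        _ = z * (x * v) * z⁻¹ := by rw [hv.2]
        _ = x * (z * v * z⁻¹) := by
            rw [← mul_assoc, ← h3]
            group
    rcases hmin U hUn (hU ▸ inf_le_left) with h1 | h1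
    · -- the fibres
      have hφ : ∀ v : V, x⁻¹ * v * x * (v : G)⁻¹ ∈ V := by
        intro v
        refine V.mul_mem ?_ (V.inv_mem v.2)
        have := Subgroup.Normal.conj_mem (H := V) inferInstance (v : G) v.2 x⁻¹
        rwa [inv_inv] at this
      let φ : V → V := fun v => ⟨x⁻¹ * v * x * (v : G)⁻¹, hφ v⟩
      have hinj : Function.Injective φ := by
        intro v w hvw
        have h2 : x⁻¹ * (v : G) * x * (v : G)⁻¹ = x⁻¹ * (w : G) * x * (w : G)⁻¹ :=
          congrArg Subtype.val hvw
        have h3 : (v : G) * x * (v : G)⁻¹ = (w : G) * x * (w : G)⁻¹ := by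
          have h4 := congrArg (fun z => x * z) h2
          simpa only [mul_assoc, mul_inv_cancel_left] using h4
        have h5 : (w : G)⁻¹ * v ∈ U := by
          rw [hU, Subgroup.mem_inf, Subgroup.mem_centralizer_singleton_iff]
          refine ⟨V.mul_mem (V.inv_mem w.2) v.2, ?_⟩
          have h6 : (v : G) * x = (w : G) * x * (w : G)⁻¹ * v := by
            rw [← h3, inv_mul_cancel_right]
          calc (w : G)⁻¹ * v * x = (w : G)⁻¹ * ((v : G) * x) := by group
            _ = x * ((w : G)⁻¹ * v) := by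
              rw [h6]
              group
        rw [h1, Subgroup.mem_bot, inv_mul_eq_one] at h5
        exact (Subtype.ext h5).symm
      have hbij : Function.Bijective φ := Finite.injective_iff_bijective.1 hinj
      rw [hA, sm_eq_sum, ← (Equiv.ofBijective φ hbij).sum_comp]
      have h7 : ∀ v : V, a (x * ((Equiv.ofBijective φ hbij v : V) : G)) = a x := by
        intro v
        change a (x * (x⁻¹ * v * x * (v : G)⁻¹)) = a x
        have h8 : x * (x⁻¹ * v * x * (v : G)⁻¹) = ((v : G)⁻¹)⁻¹ * x * (v : G)⁻¹ := by group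
        rw [h8, hb.cls]
      rw [Finset.sum_congr rfl fun v _ => h7 v, Finset.sum_const, Finset.card_univ, nsmul_eq_mul,
        Nat.card_eq_fintype_card]
    · exfalso
      apply hxC
      rw [hC, Subgroup.mem_inf, Subgroup.mem_centralizer_iff]
      refine ⟨hx, fun v hv => ?_⟩
      have h2 : v ∈ U := by rw [h1]; exact hv
      rw [hU, Subgroup.mem_inf, Subgroup.mem_centralizer_singleton_iff] at h2
      exact h2.2
  -- on `C`
  have hCV : m C = m (C ⊔ V) := by
    have hCab : ∀ x ∈ C ⊔ V, ∀ y ∈ C ⊔ V, x * y = y * x := by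
      intro x hx y hy
      obtain ⟨c, hc, v, hv, rfl⟩ := Subgroup.mem_sup_of_normal_right.1 hx
      obtain ⟨d, hd, w, hw, rfl⟩ := Subgroup.mem_sup_of_normal_right.1 hy
      rw [hC, Subgroup.mem_inf, Subgroup.mem_centralizer_iff] at hc hd
      have e1 : v * d = d * v := hd.2 v hv
      have e2 : w * c = c * w := hc.2 w hw
      have e3 : v * w = w * v := hV v hv w hw
      have e4 : c * d = d * c := hcomm c hc.1 d hd.1
      calc c * v * (d * w) = c * (v * d) * w := by group
        _ = (c * d) * (v * w) := by rw [e1]; group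
        _ = d * (c * w) * v := by rw [e4, e3]; group
        _ = d * w * (c * v) := by rw [← e2]; group
    have hbot : ⁅C ⊔ V, C ⊔ V⁆ = ⊥ := by
      rw [Subgroup.commutator_eq_bot_iff_le_centralizer]
      intro x hx
      rw [mem_centralizer_iff]
      intro y hy
      exact hCab y hy x hx
    exact step2 hb V h0 (C ⊔ V) C le_sup_left (by rw [hbot]; exact bot_le)
      (by rw [hbot]; exact bot_le) le_rfl
  have hcos : ∀ H : Subgroup G, sm A H = Nat.card H * Nat.card V * (m (H ⊔ V) : ℝ) := by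
    intro H
    have h1 := sm_coset a V H
    rw [hb.avg] at h1
    have h2 : (Nat.card (H ⊔ V : Subgroup G) : ℝ) ≠ 0 := by
      have : 0 < Nat.card (H ⊔ V : Subgroup G) := Nat.card_pos
      exact_mod_cast this.ne'
    have h3 : sm A H = sm (fun x => sm (fun n => a (x * n)) V) H := sm_congr fun x _ => hA x
    rw [h3]
    refine mul_left_cancel₀ h2 ?_
    rw [h1]
    ring
  have hCle : C ≤ zpowers g := hC ▸ inf_le_left
  have hD : sm (fun x => A x - Nat.card V * a x) (zpowers g) =
      sm (fun x => A x - Nat.card V * a x) C := by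
    rw [← inf_eq_right.2 hCle, ← sm_inf]
    refine sm_congr fun x hx => ?_
    split_ifs with h
    · rfl
    · rw [hout x hx h, sub_self]
  have h1 : sm (fun x => A x - Nat.card V * a x) C = 0 := by
    rw [sm_sub, sm_mul_left, hcos, hb.avg, hCV]
    ring
  rw [h1, sm_sub, sm_mul_left, hcos, hb.avg, htop] at hD
  have h2 : (Nat.card (zpowers g) : ℝ) ≠ 0 := by
    have : 0 < Nat.card (zpowers g) := Nat.card_pos
    exact_mod_cast this.ne'
  have h3 : (Nat.card (zpowers g) : ℝ) * Nat.card V * ((m (⊤ : Subgroup G) : ℝ) - m (zpowers g)) =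
      0 := by
    linear_combination hD
  have h4 := (mul_eq_zero.1 h3).resolve_left (mul_ne_zero h2 hV0)
  have h5 : (m (zpowers g) : ℝ) = m (⊤ : Subgroup G) := by linarith
  exact_mod_cast h5

end base

/-- Minimal normal subgroups. -/
theorem exists_min {G : Type u} [Group G] [Finite G] (N : Subgroup G) (hN : N.Normal)
    (hN0 : N ≠ ⊥) : ∃ V : Subgroup G, V.Normal ∧ V ≤ N ∧ V ≠ ⊥ ∧
      ∀ U : Subgroup G, U.Normal → U ≤ V → U = ⊥ ∨ U = V := by
  have hfin : Finite {U : Subgroup G // U.Normal ∧ U ≤ N ∧ U ≠ ⊥} := inferInstance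
  have hne : Nonempty {U : Subgroup G // U.Normal ∧ U ≤ N ∧ U ≠ ⊥} := ⟨⟨N, hN, le_rfl, hN0⟩⟩
  obtain ⟨V, hV⟩ := Finite.exists_min
    fun U : {U : Subgroup G // U.Normal ∧ U ≤ N ∧ U ≠ ⊥} => Nat.card U.1
  refine ⟨V.1, V.2.1, V.2.2.1, V.2.2.2, fun U hU hUV => ?_⟩
  by_cases h : U = ⊥
  · exact Or.inl h
  · right
    exact Subgroup.eq_of_le_of_card_ge hUV (hV ⟨U, hU, hUV.trans V.2.2.1, h⟩)

/-- Solvable groups. -/
theorem solv : ∀ (c : ℕ) (G : Type u) [Group G] [Fintype G] (a : G → ℝ) (m : Subgroup G → ℕ),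
    Nat.card G = c → Hb a m → Group.IsSolvable G → ∀ N : Subgroup G, N.Normal → m ⊥ = m N →
    ∀ g : G, zpowers g ⊔ N = ⊤ → m (zpowers g) = m ⊤ := by
  intro c
  induction c using Nat.strong_induction_on with
  | _ c ih =>
  intro G _ _ a m hc hb hs N hNn h0 g hg
  classical
  by_cases hN0 : N = ⊥
  · rw [hN0, sup_bot_eq] at hg
    rw [hg]
  obtain ⟨V, hVn, hVN, hV0, hmin⟩ := exists_min N hNn hN0
  have hVab : ∀ x ∈ V, ∀ y ∈ V, x * y = y * x := by
    have h1 : ⁅V, V⁆ < V := Group.IsSolvable.commutator_lt_of_ne_bot hV0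
    have h2 : ⁅V, V⁆ = ⊥ := (hmin _ inferInstance h1.le).resolve_right h1.ne
    intro x hx y hy
    rw [Subgroup.commutator_eq_bot_iff_le_centralizer] at h2
    have h3 := h2 hy
    rw [mem_centralizer_iff] at h3
    exact h3 x hx
  have h0V : m ⊥ = m V := by rw [below hb N h0 V hVN, h0]
  -- the first step
  have hstep1 : m (zpowers g) = m (zpowers g ⊔ V) := by
    by_cases htop : zpowers g ⊔ V = ⊤
    · rw [htop]
      exact base hb V hVab g htop h0V hmin
    obtain ⟨K, hK⟩ : ∃ K, K = zpowers g ⊔ V := ⟨_, rfl⟩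
    rw [← hK] at htop ⊢
    have hVK : V ≤ K := hK ▸ le_sup_right
    have hgK : g ∈ K := hK ▸ mem_sup_left (mem_zpowers g)
    have hfK : Fintype K := Fintype.ofFinite _
    have hKlt : Nat.card K < c := by
      rw [← hc]
      refine lt_of_le_of_ne (Subgroup.card_le_card_group K) fun h => htop ?_
      exact (Subgroup.card_eq_iff_eq_top K).1 h
    have hmapV : (V.subgroupOf K).map K.subtype = V := by
      rw [Subgroup.subgroupOf_map_subtype]
      exact inf_eq_left.2 hVK
    have hmapT : (⊤ : Subgroup K).map K.subtype = K := by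
      rw [← MonoidHom.range_eq_map, Subgroup.range_subtype]
    have hmapg : (zpowers (⟨g, hgK⟩ : K)).map K.subtype = zpowers g := by
      rw [MonoidHom.map_zpowers]
      rfl
    have h1 := ih (Nat.card K) hKlt K (fun x : K => a x) (fun H => m (H.map K.subtype)) rfl
      (restrict hb K) inferInstance (V.subgroupOf K) inferInstance (by
        rw [Subgroup.map_bot, hmapV]
        exact h0V) ⟨g, hgK⟩ (by
        apply Subgroup.map_injective K.subtype_injective
        rw [Subgroup.map_sup, hmapV, hmapT, hmapg]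
        exact hK.symm)
    simp only [hmapT, hmapg] at h1
    exact h1
  -- the quotient by `V`
  have hfQ : Fintype (G ⧸ V) := Fintype.ofFinite _
  have hQlt : Nat.card (G ⧸ V) < c := by
    rw [← hc, Subgroup.card_eq_card_quotient_mul_card_subgroup V]
    have h1 : 1 < Nat.card V := by
      rw [Subgroup.one_lt_card_iff_ne_bot]
      exact hV0
    have h2 : 0 < Nat.card (G ⧸ V) := Nat.card_pos
    exact lt_mul_of_one_lt_right h2 h1
  have hcomapN : (N.map (QuotientGroup.mk' V)).comap (QuotientGroup.mk' V) = N := by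
    rw [Subgroup.comap_map_eq, QuotientGroup.ker_mk', sup_eq_left]
    exact hVN
  have hcomapg : (zpowers (g : G ⧸ V)).comap (QuotientGroup.mk' V) = zpowers g ⊔ V := by
    have h1 : zpowers (g : G ⧸ V) = (zpowers g).map (QuotientGroup.mk' V) := by
      rw [MonoidHom.map_zpowers]
      rfl
    rw [h1, Subgroup.comap_map_eq, QuotientGroup.ker_mk']
  have hnm : (N.map (QuotientGroup.mk' V)).Normal :=
    Subgroup.Normal.map hNn _ (QuotientGroup.mk'_surjective V)
  have h2 := ih (Nat.card (G ⧸ V)) hQlt (G ⧸ V) (qavg a V)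
    (fun H => m (H.comap (QuotientGroup.mk' V))) rfl (quot hb V) inferInstance
    (N.map (QuotientGroup.mk' V)) hnm (by
      rw [hcomapN, MonoidHom.comap_bot, QuotientGroup.ker_mk', ← h0V, h0]) (g : G ⧸ V) (by
      have h3 : zpowers (g : G ⧸ V) = (zpowers g).map (QuotientGroup.mk' V) := by
        rw [MonoidHom.map_zpowers]
        rfl
      rw [h3, ← Subgroup.map_sup, hg]
      exact Subgroup.map_top_of_surjective _ (QuotientGroup.mk'_surjective V))
  simp only [hcomapg, Subgroup.comap_top] at h2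
  rw [hstep1, h2]

section

variable {G : Type u} [Group G] [Fintype G]

/-- Cyclic subgroups. -/
theorem cyc4 {a : G → ℝ} {m : Subgroup G → ℕ} (hb : Hb a m) (N : Subgroup G) [N.Normal]
    (hs : Group.IsSolvable N) (h0 : m ⊥ = m N) (g : G) : m (zpowers g) = m (zpowers g ⊔ N) := by
  classical
  obtain ⟨K, hK⟩ : ∃ K, K = zpowers g ⊔ N := ⟨_, rfl⟩
  have hNK : N ≤ K := hK ▸ le_sup_right
  have hgK : g ∈ K := hK ▸ mem_sup_left (mem_zpowers g)
  have hfK : Fintype K := Fintype.ofFinite _
  have hmapN : (N.subgroupOf K).map K.subtype = N := by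
    rw [Subgroup.subgroupOf_map_subtype]
    exact inf_eq_left.2 hNK
  have hmapT : (⊤ : Subgroup K).map K.subtype = K := by
    rw [← MonoidHom.range_eq_map, Subgroup.range_subtype]
  have hmapg : (zpowers (⟨g, hgK⟩ : K)).map K.subtype = zpowers g := by
    rw [MonoidHom.map_zpowers]
    rfl
  have hsK : Group.IsSolvable K := by
    obtain ⟨f, hf⟩ : ∃ f : K →* zpowers (g : G ⧸ N), ∀ x : K, ((f x : zpowers (g : G ⧸ N)) :
        G ⧸ N) = ((x : G) : G ⧸ N) := by
      have h1 : ∀ x : K, ((QuotientGroup.mk' N).comp K.subtype) x ∈ zpowers (g : G ⧸ N) := by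
        rintro ⟨x, hx⟩
        rw [hK] at hx
        obtain ⟨y, hy, z, hz, rfl⟩ := Subgroup.mem_sup_of_normal_right.1 hx
        obtain ⟨i, rfl⟩ := mem_zpowers_iff.1 hy
        change ((g ^ i * z : G) : G ⧸ N) ∈ zpowers (g : G ⧸ N)
        rw [QuotientGroup.mk_mul, (QuotientGroup.eq_one_iff z).2 hz, mul_one,
          QuotientGroup.mk_zpow]
        exact mem_zpowers_iff.2 ⟨i, rfl⟩
      exact ⟨((QuotientGroup.mk' N).comp K.subtype).codRestrict _ h1, fun x => rfl⟩
    have hcs : Group.IsSolvable (zpowers (g : G ⧸ N)) := Group.isSolvable_of_comm fun x y => by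
      obtain ⟨i, hi⟩ := mem_zpowers_iff.1 x.2
      obtain ⟨j, hj⟩ := mem_zpowers_iff.1 y.2
      refine Subtype.ext ?_
      change (x : G ⧸ N) * y = y * x
      rw [← hi, ← hj, ← zpow_add, ← zpow_add, add_comm]
    refine Group.isSolvable_of_ker_le_range (Subgroup.inclusion hNK) f ?_
    intro x hx
    have h1 : ((x : G) : G ⧸ N) = 1 := by
      rw [← hf, MonoidHom.mem_ker.1 hx]
      rfl
    exact ⟨⟨x, (QuotientGroup.eq_one_iff _).1 h1⟩, Subtype.ext rfl⟩
  have h1 := solv (Nat.card K) K (fun x : K => a x) (fun H => m (H.map K.subtype)) rfl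
    (restrict hb K) hsK (N.subgroupOf K) inferInstance (by
      rw [Subgroup.map_bot, hmapN]
      exact h0) ⟨g, hgK⟩ (by
      apply Subgroup.map_injective K.subtype_injective
      rw [Subgroup.map_sup, hmapN, hmapT, hmapg]
      exact hK.symm)
  simp only [hmapT, hmapg] at h1
  rw [h1, hK]

/-- **Heilbronn's argument**, for solvable normal subgroups and for quotients whose elements have
prime power order. -/
theorem heil3 {a : G → ℝ} {m : Subgroup G → ℕ} (hb : Hb a m) (N : Subgroup G) [N.Normal]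
    (hq : Group.IsSolvable N ∨ ∀ g : G, ∃ p k : ℕ, p.Prime ∧ g ^ p ^ k ∈ N) (h0 : m ⊥ = m N)
    (H : Subgroup G) : m H = m (H ⊔ N) := by
  classical
  rcases hq with hq | hq
  swap
  · exact heil2 hb N hq h0 H
  obtain ⟨f, hf⟩ : ∃ f : G → ℝ, ∀ x, f x = (Nat.card N : ℝ)⁻¹ * sm (fun n => a (x * n)) N :=
    ⟨_, fun _ => rfl⟩
  have hN0 : (Nat.card N : ℝ) ≠ 0 := by
    have : 0 < Nat.card N := Nat.card_pos
    exact_mod_cast this.ne'
  have hs : ∀ H : Subgroup G, sm f H = Nat.card H * (m (H ⊔ N) : ℝ) := by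
    intro H
    have h1 := sm_coset a N H
    rw [hb.avg] at h1
    have h2 : (Nat.card (H ⊔ N : Subgroup G) : ℝ) ≠ 0 := by
      have : 0 < Nat.card (H ⊔ N : Subgroup G) := Nat.card_pos
      exact_mod_cast this.ne'
    have h3 : sm (fun x => sm (fun n => a (x * n)) N) H =
        Nat.card H * Nat.card N * (m (H ⊔ N) : ℝ) := by
      refine mul_left_cancel₀ h2 ?_
      rw [h1]
      ring
    have h4 : sm f H = (Nat.card N : ℝ)⁻¹ * sm (fun x => sm (fun n => a (x * n)) N) H := by
      rw [← sm_mul_left]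
      exact sm_congr fun x _ => hf x
    rw [h4, h3]
    field_simp
  have hzero : ∀ g, sm (fun x => a x - f x) (zpowers g) = 0 := by
    intro g
    rw [sm_sub, hb.avg, hs, cyc4 hb N hq h0 g, sub_self]
  have h1 := artin _ hzero H
  rw [sm_sub, hb.avg, hs, ← mul_sub] at h1
  have h2 : (Nat.card H : ℝ) ≠ 0 := by
    have : 0 < Nat.card H := Nat.card_pos
    exact_mod_cast this.ne'
  have h3 := (mul_eq_zero.1 h1).resolve_left h2
  exact_mod_cast sub_eq_zero.1 h3

end

end Pool.Agent.MPfb225e.Qt
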