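import Mathlib
import Pool.Agent.Lib.MP_fb225e_nt.Qt.Gal3
import Pool.Agent.Lib.MP_fb225e_nt.Qt.Heil3

/-!
MP_fb225e_nt, project QT, module Gal4: Heilbronn's argument for the L-functions of the intermediate
fields of a Galois extension `L/k` of number fields, over an intermediate field `F` normal over `k`
such that `L/F` is solvable or all elements of the Galois group of `F/k` have prime power order.
-/

namespace Pool.Agent.MPfb225e.Qt

open NumberField Grp

universe u

variable {k L : Type u} [Field k] [NumberField k] [Field L] [NumberField L] [Algebra k L]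
  [IsGalois k L]

/-- Heilbronn's argument at a point. -/
theorem heil_at4 (W : WeierstrassCurve ℤ) (hW : W.Δ ≠ 0) (F : IntermediateField k L → ℂ → ℂ)
    (hF : ∀ K, Differentiable ℂ (F K))
    (hFL : ∀ K : IntermediateField k L, ∀ s : ℂ, 3 / 2 < s.re → F K s = (bc W K).LSeries s)
    (htw : TwistEntire' k L F) {s₀ : ℂ} (hs₀ : 5 / 4 < s₀.re) (F₀ : IntermediateField k L)
    (hG : IsGalois k F₀) (hF₀ : Group.IsSolvable (L ≃ₐ[F₀] L) ∨
      ∀ σ : F₀ ≃ₐ[k] F₀, ∃ p l : ℕ, p.Prime ∧ σ ^ p ^ l = 1)
    (h0 : analyticOrderNatAt (F ⊤) s₀ = analyticOrderNatAt (F F₀) s₀)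
    (K : IntermediateField k L) :
    analyticOrderNatAt (F K) s₀ = analyticOrderNatAt (F (K ⊓ F₀)) s₀ := by
  classical
  have hn : F₀.fixingSubgroup.Normal := inferInstance
  have hq : Group.IsSolvable F₀.fixingSubgroup ∨
      ∀ σ : L ≃ₐ[k] L, ∃ p l : ℕ, p.Prime ∧ σ ^ p ^ l ∈ F₀.fixingSubgroup := by
    rcases hF₀ with hF₀ | hF₀
    · left
      exact Group.isSolvable_of_isSolvable_injective
        (f := (IntermediateField.fixingSubgroupEquiv F₀).toMonoidHom)
        (IntermediateField.fixingSubgroupEquiv F₀).injective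
    · right
      intro σ
      obtain ⟨p, l, hp, hk⟩ := hF₀ (AlgEquiv.restrictNormalHom F₀ σ)
      refine ⟨p, l, hp, ?_⟩
      rw [← map_pow] at hk
      rw [← IntermediateField.restrictNormalHom_ker, MonoidHom.mem_ker]
      exact hk
  obtain ⟨a, hb⟩ := exists_hb2 W hW F hF hFL htw hs₀
  have h1 := heil3 hb F₀.fixingSubgroup hq (by
    rw [IntermediateField.fixedField_bot, IsGalois.fixedField_fixingSubgroup]
    exact h0) K.fixingSubgroup
  rw [IsGalois.fixedField_fixingSubgroup] at h1
  rw [h1]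
  congr 2
  have h2 : (K ⊓ F₀).fixingSubgroup = K.fixingSubgroup ⊔ F₀.fixingSubgroup := by
    have h3 := (IsGalois.intermediateFieldEquivSubgroup (F := k) (E := L)).map_inf K F₀
    exact h3
  rw [← h2, IsGalois.fixedField_fixingSubgroup]

end Pool.Agent.MPfb225e.Qt
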